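import Pool.Agent.DQO.Defs

/-!
# DQO: linear algebra of triangles and edges
-/

namespace Pool.Agent.DQO

open Finset

variable {V : Type} [Fintype V] [DecidableEq V] {m : ℕ}

theorem mg_zero : mg (0 : V → V → V → ℤ) = 0 := by
  ext <;> simp [mg]

theorem mg_add (f g : V → V → V → ℤ) : mg (f + g) = mg f + mg g := by
  ext <;> simp [mg, Finset.sum_add_distrib]

theorem mg_sub (f g : V → V → V → ℤ) : mg (f - g) = mg f - mg g := by
  ext <;> simp [mg, Finset.sum_sub_distrib]

theorem mg_neg (f : V → V → V → ℤ) : mg (-f) = -mg f := by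
  ext <;> simp [mg]

/-- `mg` as a homomorphism. -/
def mgHom : (V → V → V → ℤ) →+ Mm V where
  toFun := mg
  map_zero' := mg_zero
  map_add' := mg_add

theorem mg_sum {ι : Type*} (s : Finset ι) (f : ι → V → V → V → ℤ) :
    mg (∑ i ∈ s, f i) = ∑ i ∈ s, mg (f i) :=
  map_sum (mgHom (V := V)) f s

/-- The marginals of a single triangle are its three edges. -/
theorem mg_dl (r c s : V) : mg (dl r c s) = rc r c + rs r s + cs c s := by
  refine Prod.ext ?_ (Prod.ext ?_ ?_)
  · funext x y
    simp only [mg, dl, rc, rs, cs, sg, Prod.fst_add, Pi.add_apply, Pi.zero_apply, add_zero]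
    by_cases h : x = r ∧ y = c
    · simp [h]
    · rw [if_neg h]
      apply Finset.sum_eq_zero
      intro z _
      rw [if_neg]
      rintro ⟨h1, h2, _⟩
      exact h ⟨h1, h2⟩
  · funext x z
    simp only [mg, dl, rc, rs, cs, sg, Prod.fst_add, Prod.snd_add, Pi.add_apply, Pi.zero_apply,
      add_zero, zero_add]
    by_cases h : x = r ∧ z = s
    · simp [h]
    · rw [if_neg h]
      apply Finset.sum_eq_zero
      intro y _
      rw [if_neg]
      rintro ⟨h1, _, h3⟩
      exact h ⟨h1, h3⟩
  · funext y z
    simp only [mg, dl, rc, rs, cs, sg, Prod.snd_add, Pi.add_apply, Pi.zero_apply,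
      zero_add]
    by_cases h : y = c ∧ z = s
    · simp [h]
    · rw [if_neg h]
      apply Finset.sum_eq_zero
      intro x _
      rw [if_neg]
      rintro ⟨_, h2, h3⟩
      exact h ⟨h2, h3⟩

theorem dl_nonneg (r c s x y z : V) : 0 ≤ dl r c s x y z := by
  unfold dl
  split <;> simp

theorem mg_dN (q : Sq V m) (r c : V) :
    mg (dN q (r, c)) = rc r c + rs r (q.nu r c) + cs c (q.nu r c) := mg_dl _ _ _

/-- The symbol of the intercalate. -/
theorem nu_inter (q : Sq V m) {r c s : V} (h : q.clS s ≠ xor (q.clR r) (q.clC c)) :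
    q.nu (q.row c s) (q.col r s) = q.nu r c := q.inter r c s h

/-- A good triangle plus three triangles is, on the level of edges, the sum of the four
triangles of the square in the intercalate of `(r, c)` with symbol `s`. -/
theorem mg_good (q : Sq V m) {r c s : V} (h : q.clS s ≠ xor (q.clR r) (q.clC c)) :
    mg (dl r c s) + (mg (dl r (q.col r s) (q.nu r c)) + mg (dl (q.row c s) c (q.nu r c)) +
        mg (dl (q.row c s) (q.col r s) s)) =
      mg (dN q (r, c)) + mg (dN q (r, q.col r s)) + mg (dN q (q.row c s, c)) +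
        mg (dN q (q.row c s, q.col r s)) := by
  simp only [mg_dN, mg_dl, q.nu_col, q.nu_row, nu_inter q h]
  abel

/-- The octahedron identity. -/
theorem mg_octa (r c s r' c' s' : V) :
    mg (dl r c s) + mg (dl r c' s') + mg (dl r' c s') + mg (dl r' c' s) =
      mg (dl r c s') + mg (dl r c' s) + mg (dl r' c s) + mg (dl r' c' s') := by
  simp only [mg_dl]
  abel

/-- All the edges. -/
theorem mg_all (q : Sq V m) :
    mg (∑ w : V × V, dN q w) = (fun _ _ => 1, fun _ _ => 1, fun _ _ => 1) := by
  have key : ∀ x y z : V, (∑ w : V × V, dN q w) x y z = if q.nu x y = z then 1 else 0 := by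
    intro x y z
    rw [Finset.sum_apply, Finset.sum_apply, Finset.sum_apply]
    rw [Finset.sum_eq_single (x, y)]
    · simp [dN, dl, eq_comm]
    · rintro ⟨a, b⟩ _ hne
      simp only [dN, dl]
      rw [if_neg]
      rintro ⟨h1, h2, _⟩
      exact hne (by rw [h1, h2])
    · intro h
      exact absurd (Finset.mem_univ _) h
  refine Prod.ext ?_ (Prod.ext ?_ ?_)
  · funext x y
    show ∑ z, (∑ w : V × V, dN q w) x y z = 1
    simp only [key]
    simp
  · funext x z
    show ∑ y, (∑ w : V × V, dN q w) x y z = 1
    simp only [key]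
    rw [Finset.sum_eq_single (q.col x z)]
    · simp [q.nu_col]
    · intro y _ hy
      rw [if_neg]
      intro h
      exact hy (by rw [← h, q.col_nu])
    · intro h
      exact absurd (Finset.mem_univ _) h
  · funext y z
    show ∑ x, (∑ w : V × V, dN q w) x y z = 1
    simp only [key]
    rw [Finset.sum_eq_single (q.row y z)]
    · simp [q.nu_row]
    · intro x _ hx
      rw [if_neg]
      intro h
      exact hx (by rw [← h, q.row_nu])
    · intro h
      exact absurd (Finset.mem_univ _) h

end Pool.Agent.DQO
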