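import Pool.Agent.Helper33.DefNum.Array

/-!
# DQO-App1: the choice of the unfrozen rows, columns, colours

A line (row, column or colour) is heavy if it has more than `h` cells of `S` (or, for a colour, is missing
in more than `h` rows, equivalently columns). Counting leaves `2 * m` lines of each kind which are not heavy.
-/

namespace Pool.Agent.DQO

open Finset Pool.Agent.Helper33.DefNum

private theorem app1_light {α : Type} [Fintype α] [DecidableEq α] {h g : ℕ} (f : α → ℕ)
    (hf : ∑ a, f a ≤ h * g) : (univ.filter fun a => h < f a).card ≤ g := by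
  by_contra hc
  have hc' : g + 1 ≤ (univ.filter fun a => h < f a).card := by omega
  have h1 : (univ.filter fun a => h < f a).card * (h + 1) ≤ ∑ a ∈ univ.filter (fun a => h < f a), f a := by
    rw [← smul_eq_mul]
    exact Finset.card_nsmul_le_sum _ _ _ fun a ha => (mem_filter.1 ha).2
  have h2 : ∑ a ∈ univ.filter (fun a => h < f a), f a ≤ ∑ a, f a :=
    Finset.sum_le_sum_of_subset (Finset.filter_subset _ _)
  have h3 : (g + 1) * (h + 1) ≤ (univ.filter fun a => h < f a).card * (h + 1) :=
    Nat.mul_le_mul_right _ hc'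
  nlinarith

private theorem app1_two {α : Type} [Fintype α] [DecidableEq α] {h g m : ℕ} (f1 f2 : α → ℕ)
    (h1 : ∑ a, f1 a ≤ h * g) (h2 : ∑ a, f2 a ≤ h * g) (hm : 2 * m + 2 * g ≤ Fintype.card α) :
    ∃ T : Finset α, T.card = 2 * m ∧ ∀ a ∈ T, f1 a ≤ h ∧ f2 a ≤ h := by
  have e1 := app1_light f1 h1
  have e2 := app1_light f2 h2
  have e3 : 2 * m ≤ ((univ.filter fun a => h < f1 a) ∪ (univ.filter fun a => h < f2 a))ᶜ.card := by
    rw [Finset.card_compl]
    have := Finset.card_union_le (univ.filter fun a => h < f1 a) (univ.filter fun a => h < f2 a)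
    omega
  obtain ⟨T, hT, hc⟩ := Finset.exists_subset_card_eq e3
  refine ⟨T, hc, fun a ha => ?_⟩
  have h4 := hT ha
  rw [Finset.mem_compl, Finset.mem_union, not_or, Finset.mem_filter, Finset.mem_filter] at h4
  constructor
  · by_contra h5
    exact h4.1 ⟨mem_univ _, not_le.1 h5⟩
  · by_contra h5
    exact h4.2 ⟨mem_univ _, not_le.1 h5⟩

private theorem app1_sum {n : ℕ} (S : Finset (Fin n × Fin n)) :
    ∑ i, (univ.filter fun j => (i, j) ∈ S).card = S.card := by
  simp_rw [Finset.card_filter]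
  rw [← Fintype.sum_prod_type' (f := fun i j => if (i, j) ∈ S then 1 else 0)]
  simp

private theorem app1_sum' {n : ℕ} (S : Finset (Fin n × Fin n)) :
    ∑ j, (univ.filter fun i => (i, j) ∈ S).card = S.card := by
  rw [← app1_sum S]
  simp_rw [Finset.card_filter]
  exact Finset.sum_comm

private theorem app1_miss {n k : ℕ} (F : Fin n → Fin n → Fin k) (hF : Proper F) (x : Fin k) :
    (univ.filter fun j => ∀ i, F i j ≠ x).card = (univ.filter fun i => ∀ j, F i j ≠ x).card := by
  have h1 : (univ.filter fun i => ∀ j, F i j ≠ x) =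
      ((univ.filter fun p : Fin n × Fin n => F p.1 p.2 = x).image Prod.fst)ᶜ := by
    ext i
    simp only [mem_filter, mem_univ, true_and, mem_compl, mem_image, Prod.exists, not_exists, not_and]
    constructor
    · rintro h a b hab rfl
      exact h b hab
    · intro h j hj
      exact h i j hj rfl
  have h2 : (univ.filter fun j => ∀ i, F i j ≠ x) =
      ((univ.filter fun p : Fin n × Fin n => F p.1 p.2 = x).image Prod.snd)ᶜ := by
    ext j
    simp only [mem_filter, mem_univ, true_and, mem_compl, mem_image, Prod.exists, not_exists, not_and]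
    constructor
    · rintro h a b hab rfl
      exact h a hab
    · intro h i hi
      exact h i j hi rfl
  have i1 : Set.InjOn Prod.fst ((univ.filter fun p : Fin n × Fin n => F p.1 p.2 = x) :
      Set (Fin n × Fin n)) := by
    rintro ⟨a, b⟩ hp ⟨a', b'⟩ hq hab
    have hp' := (mem_filter.1 (mem_coe.1 hp)).2
    have hq' := (mem_filter.1 (mem_coe.1 hq)).2
    simp only at hab hp' hq'
    subst hab
    rw [hF.1 a (hp'.trans hq'.symm)]
  have i2 : Set.InjOn Prod.snd ((univ.filter fun p : Fin n × Fin n => F p.1 p.2 = x) :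
      Set (Fin n × Fin n)) := by
    rintro ⟨a, b⟩ hp ⟨a', b'⟩ hq hab
    have hp' := (mem_filter.1 (mem_coe.1 hp)).2
    have hq' := (mem_filter.1 (mem_coe.1 hq)).2
    simp only at hab hp' hq'
    subst hab
    rw [hF.2 b (hp'.trans hq'.symm)]
  rw [h1, h2, card_compl, card_compl, card_image_of_injOn i1, card_image_of_injOn i2]

private theorem app1_row {n k : ℕ} (F : Fin n → Fin n → Fin k) (hF : Proper F) :
    ∑ x, (univ.filter fun i => ∀ j, F i j ≠ x).card = (k - n) * n := by
  have h1 : ∑ x, (univ.filter fun i => ∀ j, F i j ≠ x).card =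
      ∑ i, (univ.filter fun x => ∀ j, F i j ≠ x).card := by
    simp_rw [Finset.card_filter]
    exact Finset.sum_comm
  have h2 : ∀ i : Fin n, (univ.filter fun x => ∀ j, F i j ≠ x).card = k - n := by
    intro i
    have h3 : (univ.filter fun x => ∀ j, F i j ≠ x) = (univ.image (F i))ᶜ := by
      ext x
      simp
    rw [h3, card_compl, card_image_of_injective _ (hF.1 i), Fintype.card_fin, card_univ, Fintype.card_fin]
  rw [h1, sum_congr rfl fun i _ => h2 i, sum_const, card_univ, Fintype.card_fin, smul_eq_mul, mul_comm]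

theorem app1 {n k m h g : ℕ} (hnk : n ≤ k) (F : Fin n → Fin n → Fin k) (hF : Proper F)
    (S : Finset (Fin n × Fin n)) (hS : S.card ≤ h * g) (hk : (k - n) * n ≤ h * g)
    (hm : 2 * m + 2 * g ≤ n) :
    ∃ (Ru Cu : Finset (Fin n)) (Ku : Finset (Fin k)),
      Ru.card = 2 * m ∧ Cu.card = 2 * m ∧ Ku.card = 2 * m ∧
      (∀ i ∈ Ru, (univ.filter fun j => (i, j) ∈ S).card ≤ h) ∧
      (∀ j ∈ Cu, (univ.filter fun i => (i, j) ∈ S).card ≤ h) ∧
      (∀ x ∈ Ku, (S.filter fun e => F e.1 e.2 = x).card ≤ h) ∧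
      (∀ x ∈ Ku, (univ.filter fun i => ∀ j, F i j ≠ x).card ≤ h) ∧
      (∀ x ∈ Ku, (univ.filter fun j => ∀ i, F i j ≠ x).card ≤ h) := by
  have hn : 2 * m + 2 * g ≤ Fintype.card (Fin n) := by
    rw [Fintype.card_fin]
    exact hm
  have hkk : 2 * m + 2 * g ≤ Fintype.card (Fin k) := by
    rw [Fintype.card_fin]
    exact hm.trans hnk
  obtain ⟨Ru, r1, r2⟩ := app1_two (fun i : Fin n => (univ.filter fun j => (i, j) ∈ S).card)
    (fun i : Fin n => (univ.filter fun j => (i, j) ∈ S).card) ((app1_sum S).trans_le hS)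
    ((app1_sum S).trans_le hS) hn
  obtain ⟨Cu, c1, c2⟩ := app1_two (fun j : Fin n => (univ.filter fun i => (i, j) ∈ S).card)
    (fun j : Fin n => (univ.filter fun i => (i, j) ∈ S).card) ((app1_sum' S).trans_le hS)
    ((app1_sum' S).trans_le hS) hn
  have hc : ∑ x, (S.filter fun e => F e.1 e.2 = x).card = S.card :=
    (Finset.card_eq_sum_card_fiberwise fun e _ => mem_coe.2 (mem_univ (F e.1 e.2))).symm
  obtain ⟨Ku, k1, k2⟩ := app1_two (fun x : Fin k => (S.filter fun e => F e.1 e.2 = x).card)
    (fun x : Fin k => (univ.filter fun i => ∀ j, F i j ≠ x).card) (hc.trans_le hS)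
    ((app1_row F hF).trans_le hk) hkk
  refine ⟨Ru, Cu, Ku, r1, c1, k1, fun i hi => (r2 i hi).1, fun j hj => (c2 j hj).1,
    fun x hx => (k2 x hx).1, fun x hx => (k2 x hx).2, fun x hx => ?_⟩
  rw [app1_miss F hF x]
  exact (k2 x hx).2

end Pool.Agent.DQO
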