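import Pool.Agent.DQO.Alg

/-!
# DQO-PhA: loads and cell functions (counting)

Every cell lies on exactly three lines (`sum_load`, `card_sat`); a cell function is injective, two cell functions with different
guards agree at most once, and the values on other lines are counted by the number of the lines.
-/

namespace Pool.Agent.DQO

open Finset

variable {V : Type} [Fintype V] [DecidableEq V] {m : ℕ}

theorem sum_load (q : Sq V m) (X : Finset (V × V)) :
    ∑ l : Fin 3 × V, load q X l = 3 * X.card := by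
  simp only [load, Finset.card_filter]
  rw [Finset.sum_comm]
  have h : ∀ w ∈ X, (∑ l : Fin 3 × V, if pt q w l.1 = l.2 then 1 else 0) = 3 := by
    intro w _
    rw [Fintype.sum_prod_type]
    simp
  rw [Finset.sum_congr rfl h, Finset.sum_const, smul_eq_mul, mul_comm]

theorem card_sat (q : Sq V m) (X : Finset (V × V)) (θ : ℕ) :
    (univ.filter fun l : Fin 3 × V => θ ≤ load q X l).card * θ ≤ 3 * X.card := by
  have h1 : (univ.filter fun l : Fin 3 × V => θ ≤ load q X l).card • θ ≤
      ∑ l ∈ univ.filter fun l : Fin 3 × V => θ ≤ load q X l, load q X l :=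
    Finset.card_nsmul_le_sum _ _ _ fun l hl => (Finset.mem_filter.1 hl).2
  rw [smul_eq_mul] at h1
  refine h1.trans (le_trans (Finset.sum_le_sum_of_subset (Finset.filter_subset _ _)) (le_of_eq (sum_load q X)))

theorem load_mono (q : Sq V m) {X Y : Finset (V × V)} (h : X ⊆ Y) (l : Fin 3 × V) :
    load q X l ≤ load q Y l :=
  Finset.card_le_card (Finset.filter_subset_filter _ h)

theorem IsCF.inj {q : Sq V m} {A : Finset V} {f : V → V × V} {g : Fin 3 × V} (h : IsCF q A f g)
    {v v' : V} (hv : v ∈ A) (hv' : v' ∈ A) (he : f v = f v') : v = v' := by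
  have key : ∀ i : Fin 3, i ≠ g.1 → v = v' := by
    intro i hi
    refine h.2 (i, pt q (f v) i) ?_ v hv v' hv' rfl ?_
    · intro hg
      apply hi
      rw [← hg]
    · rw [← he]
  by_cases h0 : (0 : Fin 3) = g.1
  · refine key 1 ?_
    rw [← h0]
    decide
  · exact key 0 h0

theorem IsCF.card_mem {q : Sq V m} {A : Finset V} {f : V → V × V} {g : Fin 3 × V}
    (h : IsCF q A f g) (X : Finset (V × V)) : (A.filter fun v => f v ∈ X).card ≤ load q X g := by
  refine Finset.card_le_card_of_injOn f ?_ ?_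
  · intro v hv
    have hv' := Finset.mem_filter.1 (Finset.mem_coe.1 hv)
    exact Finset.mem_coe.2 (Finset.mem_filter.2 ⟨hv'.2, h.1 v hv'.1⟩)
  · intro v hv v' hv' he
    exact h.inj (Finset.mem_filter.1 (Finset.mem_coe.1 hv)).1 (Finset.mem_filter.1 (Finset.mem_coe.1 hv')).1 he

theorem IsCF.card_eq {q : Sq V m} {A : Finset V} {f f' : V → V × V} {g g' : Fin 3 × V}
    (h : IsCF q A f g) (h' : IsCF q A f' g') (hne : g ≠ g') :
    (A.filter fun v => f v = f' v).card ≤ 1 := by
  refine Finset.card_le_one.2 ?_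
  intro a ha b hb
  obtain ⟨haA, hea⟩ := Finset.mem_filter.1 ha
  obtain ⟨hbA, heb⟩ := Finset.mem_filter.1 hb
  refine h.2 g' hne.symm a haA b hbA ?_ ?_
  · rw [hea]
    exact h'.1 a haA
  · rw [heb]
    exact h'.1 b hbA

theorem IsCF.card_on {q : Sq V m} {A : Finset V} {f : V → V × V} {g : Fin 3 × V}
    (h : IsCF q A f g) (T : Finset (Fin 3 × V)) :
    (A.filter fun v => ∃ l ∈ T, l ≠ g ∧ pt q (f v) l.1 = l.2).card ≤ T.card := by
  have hsub : (A.filter fun v => ∃ l ∈ T, l ≠ g ∧ pt q (f v) l.1 = l.2) ⊆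
      T.biUnion fun l => A.filter fun v => l ≠ g ∧ pt q (f v) l.1 = l.2 := by
    intro v hv
    obtain ⟨hvA, l, hl, hlg, hp⟩ := Finset.mem_filter.1 hv
    exact Finset.mem_biUnion.2 ⟨l, hl, Finset.mem_filter.2 ⟨hvA, hlg, hp⟩⟩
  refine (Finset.card_le_card hsub).trans ?_
  have h1 := Finset.card_biUnion_le_card_mul T (fun l => A.filter fun v => l ≠ g ∧ pt q (f v) l.1 = l.2) 1 ?_
  · rwa [mul_one] at h1
  · intro l _
    refine Finset.card_le_one.2 ?_
    intro a ha b hb
    obtain ⟨haA, hlg, hea⟩ := Finset.mem_filter.1 ha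
    obtain ⟨hbA, _, heb⟩ := Finset.mem_filter.1 hb
    exact h.2 l hlg a haA b hbA hea heb

end Pool.Agent.DQO
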