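import Pool.Agent.DQO.PmB

/-!
# DQO-PmC: a random bijection is good for many relations (second moment): `exists_perm`

`V ≃ W` with `Fintype.card V = Fintype.card W = N ≥ 2`; relations `R k : Finset (W × V)`, `k : Q`, with
at most `Δ` elements `w` for each `v`.  There is `π : V ≃ W` with `#{v | (π v, v) ∈ R k} ≤ Δ + t` for all
`k`.  Proof: the number of `π` with `π v = w` is `N! / N`, the number with `π v = w`, `π v' = w'` is
`N! / (N (N - 1))` (`card_one`, `card_two` in PmA); second moment (`moment` in PmB), Chebyshev and the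
union bound over `k`.
-/

namespace Pool.Agent.DQO

open Finset

variable {V W : Type} [Fintype V] [DecidableEq V] [Fintype W] [DecidableEq W]

theorem exists_perm (h : Fintype.card V = Fintype.card W) (hN : 2 ≤ Fintype.card V)
    {Q : Type} [Fintype Q] (R : Q → Finset (W × V)) (Δ t : ℕ)
    (hR : ∀ k v, ((R k).filter fun e => e.2 = v).card ≤ Δ)
    (hnum : Fintype.card Q * ((Fintype.card V - 1) * Δ + Δ * Δ) <
      (Fintype.card V - 1) * (t * t)) :
    ∃ π : V ≃ W, ∀ k, (univ.filter fun v => (π v, v) ∈ R k).card ≤ Δ + t := by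
  classical
  by_contra hcon
  push Not at hcon
  obtain ⟨N, hNe⟩ : ∃ N : ℤ, N = Fintype.card V := ⟨_, rfl⟩
  have hN2 : 2 ≤ N := by rw [hNe]; exact_mod_cast hN
  obtain ⟨T, hT⟩ : ∃ T : ℤ, T = Fintype.card (V ≃ W) := ⟨_, rfl⟩
  have hTpos : 0 < T := by
    rw [hT]
    have : Nonempty (V ≃ W) := Fintype.card_eq.1 h
    exact_mod_cast Fintype.card_pos
  -- the size of a relation
  have hD : ∀ k, ((R k).card : ℤ) ≤ N * Δ := by
    intro k
    have h1 : (R k).card = ∑ v : V, ((R k).filter fun e => e.2 = v).card :=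
      Finset.card_eq_sum_card_fiberwise (fun e _ => Finset.mem_coe.2 (Finset.mem_univ e.2))
    have h2 : (R k).card ≤ Fintype.card V * Δ := by
      rw [h1]
      refine (Finset.sum_le_sum fun v _ => hR k v).trans ?_
      simp
    rw [hNe]
    exact_mod_cast h2
  -- the bad bijections
  obtain ⟨bad, hbad⟩ : ∃ bad : Q → Finset (V ≃ W), bad = fun k =>
    univ.filter fun π : V ≃ W => Δ + t < (univ.filter fun v => (π v, v) ∈ R k).card := ⟨_, rfl⟩
  have hb : ∀ k, (N - 1) * (t * t) * (bad k).card ≤ T * ((N - 1) * Δ + Δ * Δ) := by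
    intro k
    have hm := moment h hN (R k)
    rw [← hT, ← hNe] at hm
    have h1 : (N * t) ^ 2 * (bad k).card ≤ ∑ π : V ≃ W, (N * ((univ.filter fun v => (π v, v) ∈ R k).card : ℤ) - (R k).card) ^ 2 := by
      calc (N * t) ^ 2 * ((bad k).card : ℤ) = ∑ π ∈ bad k, (N * t) ^ 2 := by
            rw [Finset.sum_const, nsmul_eq_mul]; ring
        _ ≤ ∑ π ∈ bad k, (N * ((univ.filter fun v => (π v, v) ∈ R k).card : ℤ) - (R k).card) ^ 2 := by
            refine Finset.sum_le_sum fun π hπ => ?_
            have h2 : Δ + t < (univ.filter fun v => (π v, v) ∈ R k).card := by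
              rw [hbad] at hπ
              simpa using hπ
            have h3 : (Δ : ℤ) + t + 1 ≤ (univ.filter fun v => (π v, v) ∈ R k).card := by exact_mod_cast h2
            have h4 : N * t ≤ N * ((univ.filter fun v => (π v, v) ∈ R k).card : ℤ) - (R k).card := by
              have h5 := hD k
              nlinarith [h5, h3, hN2]
            have h6 : 0 ≤ N * (t : ℤ) := by positivity
            exact pow_le_pow_left₀ h6 h4 2
        _ ≤ _ := Finset.sum_le_sum_of_subset_of_nonneg (Finset.subset_univ _)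
            fun π _ _ => sq_nonneg _
    have h2 : (N - 1) * ((N * t) ^ 2 * (bad k).card) ≤
        T * (N * (N - 1) * (N * Δ) + (N * Δ) ^ 2) := by
      refine (mul_le_mul_of_nonneg_left h1 (by linarith)).trans (hm.trans ?_)
      refine mul_le_mul_of_nonneg_left ?_ hTpos.le
      have h3 := hD k
      have h4 : (0 : ℤ) ≤ (R k).card := by positivity
      have h5 : ((R k).card : ℤ) ^ 2 ≤ (N * Δ) ^ 2 := pow_le_pow_left₀ h4 h3 2
      have h6 : N * (N - 1) * ((R k).card : ℤ) ≤ N * (N - 1) * (N * Δ) :=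
        mul_le_mul_of_nonneg_left h3 (by nlinarith)
      linarith
    have h3 : N ^ 2 * ((N - 1) * (t * t) * (bad k).card) ≤ N ^ 2 * (T * ((N - 1) * Δ + Δ * Δ)) := by
      nlinarith [h2]
    exact le_of_mul_le_mul_left h3 (by positivity)
  -- every bijection is bad
  have hall : T ≤ ∑ k, ((bad k).card : ℤ) := by
    rw [hT]
    have h1 : (univ : Finset (V ≃ W)) ⊆ univ.biUnion bad := by
      intro π _
      obtain ⟨k, hk⟩ := hcon π
      rw [Finset.mem_biUnion]
      refine ⟨k, Finset.mem_univ _, ?_⟩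
      rw [hbad]
      simp only [Finset.mem_filter, Finset.mem_univ, true_and]
      exact hk
    have h2 := (Finset.card_le_card h1).trans Finset.card_biUnion_le
    rw [Finset.card_univ] at h2
    exact_mod_cast h2
  have hsum : (N - 1) * (t * t) * ∑ k, ((bad k).card : ℤ) ≤
      Fintype.card Q * (T * ((N - 1) * Δ + Δ * Δ)) := by
    rw [Finset.mul_sum]
    refine (Finset.sum_le_sum fun k _ => hb k).trans ?_
    simp
  have hn : (Fintype.card Q : ℤ) * ((N - 1) * Δ + Δ * Δ) < (N - 1) * (t * t) := by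
    have hc : ((Fintype.card V - 1 : ℕ) : ℤ) = N - 1 := by
      rw [hNe]
      have : 1 ≤ Fintype.card V := by linarith
      push_cast [Nat.cast_sub this]
      ring
    have h4 : ((Fintype.card Q * ((Fintype.card V - 1) * Δ + Δ * Δ) : ℕ) : ℤ) <
      (((Fintype.card V - 1) * (t * t) : ℕ) : ℤ) := by exact_mod_cast hnum
    rw [Nat.cast_mul, Nat.cast_add, Nat.cast_mul, Nat.cast_mul, Nat.cast_mul, hc] at h4
    push_cast at h4
    exact h4
  have h8 : (N - 1) * (t * t) * T ≤ (N - 1) * (t * t) * ∑ k, ((bad k).card : ℤ) :=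
    mul_le_mul_of_nonneg_left hall (by nlinarith [mul_self_nonneg (t : ℤ)])
  have h9 : T * ((Fintype.card Q : ℤ) * ((N - 1) * Δ + Δ * Δ)) < T * ((N - 1) * (t * t)) :=
    mul_lt_mul_of_pos_left hn hTpos
  linarith [h8, hsum, h9]

end Pool.Agent.DQO
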