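import Pool.Agent.DQO.Dih
import Pool.Agent.DQO.PmC
import Pool.Agent.DQO.PhA

/-!
# DQO-Gen: a nice square in general position to `H`

`bad q Hrc Hrs Hcs` : the cells whose triangle has an edge in `H`.

Plan.  `q₀ : Sq (ZMod m × Bool) m` (`exists_sq`), any `eC : V ≃ ZMod m × Bool` (cards `2 * m`).
(1) `exists_perm` for the rows, `Q := ZMod m × Bool` (symbols `k` of `q₀`),
`R k := {(w, r) | (r, eC.symm (q₀.col w k)) ∈ Hrc}`: for fixed `r` the map `w ↦ q₀.col w k` is injective,
so at most `Δ`.  Gives `eR`.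
(2) `exists_perm` for the symbols, `Q := V ⊕ V`:
`R (inl r) := {(w, s) | (eC.symm (q₀.col (eR r) w), s) ∈ Hcs}`,
`R (inr c) := {(w, s) | (eR.symm (q₀.row (eC c) w), s) ∈ Hrs}`.  Gives `eS`.
`q := isotope q₀ eR eC eS`.  Loads: row line `r`: the cells `(r, c)` with `(r, c) ∈ Hrc` are at most
`Δ`; with `(r, nu r c) ∈ Hrs` at most `Δ` (`c ↦ nu r c` injective); with `(c, nu r c) ∈ Hcs`: in
bijection (`s = nu r c`, `c = col r s`) with `{s | (col r s, s) ∈ Hcs}`, at most `Δ + t` by (2).
Column line: same with (2).  Symbol line `s`: the cells `(r, col r s)`: `(r, s) ∈ Hrs`, `(col r s, s) ∈ Hcs`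
at most `Δ` each; `(r, col r s) ∈ Hrc` at most `Δ + t` by (1) with `k = eS s`.
-/

namespace Pool.Agent.DQO

open Finset

variable {V : Type} [Fintype V] [DecidableEq V] {m : ℕ}

/-- The cells whose triangle has an edge in `H`. -/
def bad (q : Sq V m) (Hrc Hrs Hcs : Finset (V × V)) : Finset (V × V) :=
  univ.filter fun w => w ∈ Hrc ∨ (w.1, q.nu w.1 w.2) ∈ Hrs ∨ (w.2, q.nu w.1 w.2) ∈ Hcs

/-- All six degrees of `H` are at most `Δ`. -/
structure Deg (Hrc Hrs Hcs : Finset (V × V)) (Δ : ℕ) : Prop where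
  rc1 : ∀ v, (Hrc.filter fun e => e.1 = v).card ≤ Δ
  rc2 : ∀ v, (Hrc.filter fun e => e.2 = v).card ≤ Δ
  rs1 : ∀ v, (Hrs.filter fun e => e.1 = v).card ≤ Δ
  rs2 : ∀ v, (Hrs.filter fun e => e.2 = v).card ≤ Δ
  cs1 : ∀ v, (Hcs.filter fun e => e.1 = v).card ≤ Δ
  cs2 : ∀ v, (Hcs.filter fun e => e.2 = v).card ≤ Δ

private theorem nu_inj_left (q : Sq V m) {r r' c : V} (h : q.nu r c = q.nu r' c) : r = r' := by
  rw [← q.row_nu r c, h, q.row_nu]

private theorem nu_inj_right (q : Sq V m) {r c c' : V} (h : q.nu r c = q.nu r c') : c = c' := by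
  rw [← q.col_nu r c, h, q.col_nu]

private theorem col_inj_left (q : Sq V m) {r r' s : V} (h : q.col r s = q.col r' s) : r = r' := by
  have h1 := q.nu_col r s
  have h2 := q.nu_col r' s
  rw [← h] at h2
  exact nu_inj_left q (h1.trans h2.symm)

private theorem col_inj_right (q : Sq V m) {r s s' : V} (h : q.col r s = q.col r s') : s = s' := by
  rw [← q.nu_col r s, h, q.nu_col]

private theorem row_inj_right (q : Sq V m) {c s s' : V} (h : q.row c s = q.row c s') : s = s' := by
  rw [← q.nu_row c s, h, q.nu_row]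

/-- Loads of the three kinds of bad cells. -/
private theorem gen_load (q : Sq V m) (Hrc Hrs Hcs : Finset (V × V)) (Δ t : ℕ)
    (hD : Deg Hrc Hrs Hcs Δ)
    (h1 : ∀ s, (univ.filter fun r => (r, q.col r s) ∈ Hrc).card ≤ Δ + t)
    (h2 : ∀ r, (univ.filter fun s => (q.col r s, s) ∈ Hcs).card ≤ Δ + t)
    (h3 : ∀ c, (univ.filter fun s => (q.row c s, s) ∈ Hrs).card ≤ Δ + t) (l : Fin 3 × V) :
    load q (bad q Hrc Hrs Hcs) l ≤ 3 * Δ + t := by
  have hsplit : load q (bad q Hrc Hrs Hcs) l ≤
      (univ.filter fun w : V × V => w ∈ Hrc ∧ pt q w l.1 = l.2).card +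
      (univ.filter fun w : V × V => (w.1, q.nu w.1 w.2) ∈ Hrs ∧ pt q w l.1 = l.2).card +
      (univ.filter fun w : V × V => (w.2, q.nu w.1 w.2) ∈ Hcs ∧ pt q w l.1 = l.2).card := by
    refine le_trans (card_le_card ?_) ((card_union_le _ _).trans
      (Nat.add_le_add_right (card_union_le _ _) _))
    intro w hw
    simp only [bad, mem_filter, mem_univ, true_and] at hw
    simp only [mem_union, mem_filter, mem_univ, true_and]
    rcases hw with ⟨h | h | h, h'⟩
    · exact Or.inl (Or.inl ⟨h, h'⟩)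
    · exact Or.inl (Or.inr ⟨h, h'⟩)
    · exact Or.inr ⟨h, h'⟩
  refine hsplit.trans ?_
  obtain ⟨i, v⟩ := l
  have hi : i = 0 ∨ i = 1 ∨ i = 2 := by
    fin_cases i
    · exact Or.inl rfl
    · exact Or.inr (Or.inl rfl)
    · exact Or.inr (Or.inr rfl)
  rcases hi with rfl | rfl | rfl
  · have e : ∀ w : V × V, pt q w (0 : Fin 3) = w.1 := fun w => rfl
    simp only [e]
    have a : (univ.filter fun w : V × V => w ∈ Hrc ∧ w.1 = v).card ≤ Δ := by
      refine le_trans (card_le_card ?_) (hD.rc1 v)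
      intro w hw
      simp only [mem_filter, mem_univ, true_and] at hw ⊢
      exact hw
    have b : (univ.filter fun w : V × V => (w.1, q.nu w.1 w.2) ∈ Hrs ∧ w.1 = v).card ≤ Δ := by
      refine le_trans (card_le_card_of_injOn (fun w => (w.1, q.nu w.1 w.2)) ?_ ?_) (hD.rs1 v)
      · intro w hw
        have hw' := (mem_filter.1 (mem_coe.1 hw)).2
        exact mem_coe.2 (mem_filter.2 ⟨hw'.1, hw'.2⟩)
      · intro w hw w' hw' he
        have x := (mem_filter.1 (mem_coe.1 hw)).2.2
        have x' := (mem_filter.1 (mem_coe.1 hw')).2.2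
        have he2 : q.nu w.1 w.2 = q.nu w'.1 w'.2 := (Prod.mk.inj he).2
        have he1 : w.1 = w'.1 := (Prod.mk.inj he).1
        rw [he1] at he2
        exact Prod.ext he1 (nu_inj_right q he2)
    have c : (univ.filter fun w : V × V => (w.2, q.nu w.1 w.2) ∈ Hcs ∧ w.1 = v).card ≤ Δ + t := by
      refine le_trans (card_le_card_of_injOn (fun w => q.nu w.1 w.2) ?_ ?_) (h2 v)
      · intro w hw
        have hw' := (mem_filter.1 (mem_coe.1 hw)).2
        refine mem_coe.2 (mem_filter.2 ⟨mem_univ _, ?_⟩)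
        rw [← hw'.2, q.col_nu]
        exact hw'.1
      · intro w hw w' hw' he
        have x := (mem_filter.1 (mem_coe.1 hw)).2.2
        have x' := (mem_filter.1 (mem_coe.1 hw')).2.2
        have he1 : w.1 = w'.1 := x.trans x'.symm
        have he2 : q.nu w.1 w.2 = q.nu w'.1 w'.2 := he
        rw [he1] at he2
        exact Prod.ext he1 (nu_inj_right q he2)
    omega
  · have e : ∀ w : V × V, pt q w (1 : Fin 3) = w.2 := fun w => rfl
    simp only [e]
    have a : (univ.filter fun w : V × V => w ∈ Hrc ∧ w.2 = v).card ≤ Δ := by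
      refine le_trans (card_le_card ?_) (hD.rc2 v)
      intro w hw
      simp only [mem_filter, mem_univ, true_and] at hw ⊢
      exact hw
    have b : (univ.filter fun w : V × V => (w.1, q.nu w.1 w.2) ∈ Hrs ∧ w.2 = v).card ≤ Δ + t := by
      refine le_trans (card_le_card_of_injOn (fun w => q.nu w.1 w.2) ?_ ?_) (h3 v)
      · intro w hw
        have hw' := (mem_filter.1 (mem_coe.1 hw)).2
        refine mem_coe.2 (mem_filter.2 ⟨mem_univ _, ?_⟩)
        rw [← hw'.2, q.row_nu]
        exact hw'.1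
      · intro w hw w' hw' he
        have x := (mem_filter.1 (mem_coe.1 hw)).2.2
        have x' := (mem_filter.1 (mem_coe.1 hw')).2.2
        have he1 : w.2 = w'.2 := x.trans x'.symm
        have he2 : q.nu w.1 w.2 = q.nu w'.1 w'.2 := he
        rw [he1] at he2
        exact Prod.ext (nu_inj_left q he2) he1
    have c : (univ.filter fun w : V × V => (w.2, q.nu w.1 w.2) ∈ Hcs ∧ w.2 = v).card ≤ Δ := by
      refine le_trans (card_le_card_of_injOn (fun w => (w.2, q.nu w.1 w.2)) ?_ ?_) (hD.cs1 v)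
      · intro w hw
        have hw' := (mem_filter.1 (mem_coe.1 hw)).2
        exact mem_coe.2 (mem_filter.2 ⟨hw'.1, hw'.2⟩)
      · intro w hw w' hw' he
        have he2 : q.nu w.1 w.2 = q.nu w'.1 w'.2 := (Prod.mk.inj he).2
        have he1 : w.2 = w'.2 := (Prod.mk.inj he).1
        rw [he1] at he2
        exact Prod.ext (nu_inj_left q he2) he1
    omega
  · have e : ∀ w : V × V, pt q w (2 : Fin 3) = q.nu w.1 w.2 := fun w => rfl
    simp only [e]
    have a : (univ.filter fun w : V × V => w ∈ Hrc ∧ q.nu w.1 w.2 = v).card ≤ Δ + t := by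
      refine le_trans (card_le_card_of_injOn (fun w => w.1) ?_ ?_) (h1 v)
      · intro w hw
        have hw' := (mem_filter.1 (mem_coe.1 hw)).2
        refine mem_coe.2 (mem_filter.2 ⟨mem_univ _, ?_⟩)
        rw [← hw'.2, q.col_nu]
        exact hw'.1
      · intro w hw w' hw' he
        have x := (mem_filter.1 (mem_coe.1 hw)).2.2
        have x' := (mem_filter.1 (mem_coe.1 hw')).2.2
        have he1 : w.1 = w'.1 := he
        have he2 : q.nu w.1 w.2 = q.nu w'.1 w'.2 := x.trans x'.symm
        rw [he1] at he2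
        exact Prod.ext he1 (nu_inj_right q he2)
    have b : (univ.filter fun w : V × V =>
        (w.1, q.nu w.1 w.2) ∈ Hrs ∧ q.nu w.1 w.2 = v).card ≤ Δ := by
      refine le_trans (card_le_card_of_injOn (fun w => (w.1, q.nu w.1 w.2)) ?_ ?_) (hD.rs2 v)
      · intro w hw
        have hw' := (mem_filter.1 (mem_coe.1 hw)).2
        exact mem_coe.2 (mem_filter.2 ⟨hw'.1, hw'.2⟩)
      · intro w hw w' hw' he
        have he2 : q.nu w.1 w.2 = q.nu w'.1 w'.2 := (Prod.mk.inj he).2
        have he1 : w.1 = w'.1 := (Prod.mk.inj he).1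
        rw [he1] at he2
        exact Prod.ext he1 (nu_inj_right q he2)
    have c : (univ.filter fun w : V × V =>
        (w.2, q.nu w.1 w.2) ∈ Hcs ∧ q.nu w.1 w.2 = v).card ≤ Δ := by
      refine le_trans (card_le_card_of_injOn (fun w => (w.2, q.nu w.1 w.2)) ?_ ?_) (hD.cs2 v)
      · intro w hw
        have hw' := (mem_filter.1 (mem_coe.1 hw)).2
        exact mem_coe.2 (mem_filter.2 ⟨hw'.1, hw'.2⟩)
      · intro w hw w' hw' he
        have he2 : q.nu w.1 w.2 = q.nu w'.1 w'.2 := (Prod.mk.inj he).2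
        have he1 : w.2 = w'.2 := (Prod.mk.inj he).1
        rw [he1] at he2
        exact Prod.ext (nu_inj_left q he2) he1
    omega

theorem gen (hV : Fintype.card V = 2 * m) (hm : 1 ≤ m) (Hrc Hrs Hcs : Finset (V × V)) (Δ t : ℕ)
    (hD : Deg Hrc Hrs Hcs Δ)
    (hnum : 4 * m * ((2 * m - 1) * Δ + Δ * Δ) < (2 * m - 1) * (t * t)) :
    ∃ q : Sq V m, ∀ l, load q (bad q Hrc Hrs Hcs) l ≤ 3 * Δ + t := by
  have : NeZero m := ⟨by omega⟩
  obtain ⟨q₀⟩ := exists_sq m
  have hW : Fintype.card (ZMod m × Bool) = 2 * m := by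
    rw [Fintype.card_prod, ZMod.card, Fintype.card_bool, mul_comm]
  have hVW : Fintype.card V = Fintype.card (ZMod m × Bool) := hV.trans hW.symm
  have hN : 2 ≤ Fintype.card V := by omega
  have eC : V ≃ ZMod m × Bool := Fintype.equivOfCardEq hVW
  -- rows
  obtain ⟨eR, hR⟩ := exists_perm hVW hN
    (fun k : ZMod m × Bool => univ.filter fun e : (ZMod m × Bool) × V =>
      (e.2, eC.symm (q₀.col e.1 k)) ∈ Hrc) Δ t
    (by
      intro k v
      refine le_trans (card_le_card_of_injOn (fun e => (e.2, eC.symm (q₀.col e.1 k))) ?_ ?_)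
        (hD.rc1 v)
      · intro e he
        have he' := mem_filter.1 (mem_coe.1 he)
        exact mem_coe.2 (mem_filter.2 ⟨(mem_filter.1 he'.1).2, he'.2⟩)
      · intro e _ e' _ hee
        have h1 : e.2 = e'.2 := (Prod.mk.inj hee).1
        have h2 : q₀.col e.1 k = q₀.col e'.1 k := eC.symm.injective (Prod.mk.inj hee).2
        exact Prod.ext (col_inj_left q₀ h2) h1)
    (by
      rw [hW, hV]
      refine lt_of_le_of_lt ?_ hnum
      exact Nat.mul_le_mul_right _ (by omega))
  -- symbols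
  obtain ⟨eS, hS⟩ := exists_perm hVW hN
    (fun k : V ⊕ V => Sum.elim
      (fun r => univ.filter fun e : (ZMod m × Bool) × V =>
        (eC.symm (q₀.col (eR r) e.1), e.2) ∈ Hcs)
      (fun c => univ.filter fun e : (ZMod m × Bool) × V =>
        (eR.symm (q₀.row (eC c) e.1), e.2) ∈ Hrs) k) Δ t
    (by
      intro k v
      rcases k with r | c
      · refine le_trans (card_le_card_of_injOn
          (fun e => (eC.symm (q₀.col (eR r) e.1), e.2)) ?_ ?_) (hD.cs2 v)
        · intro e he
          have he' := mem_filter.1 (mem_coe.1 he)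
          exact mem_coe.2 (mem_filter.2 ⟨(mem_filter.1 he'.1).2, he'.2⟩)
        · intro e _ e' _ hee
          have h1 : e.2 = e'.2 := (Prod.mk.inj hee).2
          have h2 : q₀.col (eR r) e.1 = q₀.col (eR r) e'.1 :=
            eC.symm.injective (Prod.mk.inj hee).1
          exact Prod.ext (col_inj_right q₀ h2) h1
      · refine le_trans (card_le_card_of_injOn
          (fun e => (eR.symm (q₀.row (eC c) e.1), e.2)) ?_ ?_) (hD.rs2 v)
        · intro e he
          have he' := mem_filter.1 (mem_coe.1 he)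
          exact mem_coe.2 (mem_filter.2 ⟨(mem_filter.1 he'.1).2, he'.2⟩)
        · intro e _ e' _ hee
          have h1 : e.2 = e'.2 := (Prod.mk.inj hee).2
          have h2 : q₀.row (eC c) e.1 = q₀.row (eC c) e'.1 :=
            eR.symm.injective (Prod.mk.inj hee).1
          exact Prod.ext (row_inj_right q₀ h2) h1)
    (by
      rw [Fintype.card_sum, hV]
      have h4 : 2 * m + 2 * m = 4 * m := by ring
      rw [h4]
      exact hnum)
  obtain ⟨q, hnu, hcol, hrow⟩ := isotope q₀ eR eC eS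
  refine ⟨q, gen_load q Hrc Hrs Hcs Δ t hD ?_ ?_ ?_⟩
  · intro s
    refine le_trans (card_le_card ?_) (hR (eS s))
    intro r hr
    simp only [mem_filter, mem_univ, true_and] at hr ⊢
    rw [hcol] at hr
    exact hr
  · intro r
    refine le_trans (card_le_card ?_) (hS (Sum.inl r))
    intro s hs
    simp only [mem_filter, mem_univ, true_and, Sum.elim_inl] at hs ⊢
    rw [hcol] at hs
    exact hs
  · intro c
    refine le_trans (card_le_card ?_) (hS (Sum.inr c))
    intro s hs
    simp only [mem_filter, mem_univ, true_and, Sum.elim_inr] at hs ⊢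
    rw [hrow] at hs
    exact hs

end Pool.Agent.DQO
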