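import Pool.Agent.DQO.Core
import Pool.Agent.DQO.Gen

/-!
# DQO-Dec: the decomposition theorem

A square in general position to `H` (`gen`), the destroyed cells `F = bad q Hrc Hrs Hcs`, the edges of the
triangles at the cells of `F` which are not in `H` (a balanced set with small degrees), and `core`.
-/

namespace Pool.Agent.DQO

open Finset

variable {V : Type} [Fintype V] [DecidableEq V] {m : ℕ}

/-- `H` is balanced at every vertex. -/
structure Bal (Hrc Hrs Hcs : Finset (V × V)) : Prop where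
  row : ∀ v, (Hrc.filter fun e => e.1 = v).card = (Hrs.filter fun e => e.1 = v).card
  col : ∀ v, (Hrc.filter fun e => e.2 = v).card = (Hcs.filter fun e => e.1 = v).card
  sym : ∀ v, (Hrs.filter fun e => e.2 = v).card = (Hcs.filter fun e => e.2 = v).card

private theorem Dec_ind (F : Finset (V × V)) : (∑ w ∈ F, sg w.1 w.2) = ind F := by
  funext x y
  rw [Finset.sum_apply, Finset.sum_apply]
  simp only [sg, ind]
  by_cases h : (x, y) ∈ F
  · rw [if_pos h, Finset.sum_eq_single (x, y)]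
    · simp
    · rintro ⟨a, b⟩ _ hne
      rw [if_neg]
      rintro ⟨h1, h2⟩
      exact hne (by rw [h1, h2])
    · intro h1
      exact absurd h h1
  · rw [if_neg h]
    refine Finset.sum_eq_zero fun w hw => ?_
    rw [if_neg]
    rintro ⟨h1, h2⟩
    exact h (by rw [h1, h2]; exact hw)

private theorem Dec_card {F : Finset (V × V)} {f : V × V → V × V} (hf : Function.Injective f)
    (P : V × V → Prop) [DecidablePred P] :
    ((F.image f).filter P).card = (F.filter fun w => P (f w)).card := by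
  rw [Finset.filter_image, Finset.card_image_of_injective _ hf]

private theorem Dec_sdiff {F H : Finset (V × V)} (hHF : H ⊆ F) (P : V × V → Prop) [DecidablePred P] :
    ((F \ H).filter P).card + (H.filter P).card = (F.filter P).card := by
  have h1 : (F \ H).filter P = F.filter P \ H.filter P := by
    ext w
    simp only [Finset.mem_filter, Finset.mem_sdiff]
    tauto
  rw [h1, Finset.card_sdiff_add_card_eq_card (Finset.filter_subset_filter P hHF)]

private theorem Dec_indsub {F H : Finset (V × V)} (hHF : H ⊆ F) : ind F = ind H + ind (F \ H) := by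
  funext x y
  simp only [ind, Pi.add_apply, Finset.mem_sdiff]
  by_cases h : (x, y) ∈ H
  · simp [h, hHF h]
  · by_cases h2 : (x, y) ∈ F <;> simp [h, h2]

private theorem Dec_mg (q : Sq V m) (F : Finset (V × V)) :
    ∑ w ∈ F, mg (dN q w) = ((∑ w ∈ F, sg w.1 w.2, ∑ w ∈ F, sg w.1 (q.nu w.1 w.2),
      ∑ w ∈ F, sg w.2 (q.nu w.1 w.2)) : Mm V) := by
  have h1 : ∀ w : V × V, mg (dN q w) =
      ((sg w.1 w.2, sg w.1 (q.nu w.1 w.2), sg w.2 (q.nu w.1 w.2)) : Mm V) := by
    rintro ⟨r, c⟩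
    rw [mg_dN]
    simp [rc, rs, cs]
  rw [Finset.sum_congr rfl fun w _ => h1 w]
  refine Prod.ext ?_ (Prod.ext ?_ ?_)
  · rw [Prod.fst_sum]
  · rw [Prod.snd_sum, Prod.fst_sum]
  · rw [Prod.snd_sum, Prod.snd_sum]

private theorem Dec_num {m Δ : ℕ} (hm : 10 ^ 40 * (Δ + 1) ≤ m) :
    1 ≤ m ∧ 1 ≤ m / 10 ^ 17 ∧ 100000000000000000 * (m / 10 ^ 17) ≤ m ∧
      3 * Δ + m / 10 ^ 17 / 2 ≤ m / 10 ^ 17 ∧
      4 * m * ((2 * m - 1) * Δ + Δ * Δ) <
        (2 * m - 1) * ((m / 10 ^ 17 / 2) * (m / 10 ^ 17 / 2)) := by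
  norm_num at hm ⊢
  have hm' : 10000000000000000000000000000000000000000 * Δ +
      10000000000000000000000000000000000000000 ≤ m := by linarith
  obtain ⟨a, ha⟩ : ∃ a, a = m / 100000000000000000 := ⟨_, rfl⟩
  obtain ⟨t, ht⟩ : ∃ t, t = a / 2 := ⟨_, rfl⟩
  rw [← ha, ← ht]
  have h1 : 100000000000000000 * a ≤ m := by omega
  have h2 : m < 100000000000000000 * a + 100000000000000000 := by omega
  have h3 : 100000000000000000000000 * Δ + 100000000000000000000000 ≤ a := by omega
  have h4 : 2 * t ≤ a := by omega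
  have h5 : a ≤ 2 * t + 1 := by omega
  have h6 : 10000000000000000000000 * Δ + 10000000000000000000000 ≤ t := by omega
  have h7 : m ≤ 400000000000000000 * t := by omega
  refine ⟨by omega, by omega, h1, by omega, ?_⟩
  have hpos : 0 < 2 * m - 1 := by omega
  have hΔ : Δ ≤ 2 * m - 1 := by omega
  have h8 : 8 * (m * Δ) < t * t := by
    have e1 : m * Δ ≤ 400000000000000000 * t * Δ := Nat.mul_le_mul_right _ h7
    have e2 : 3200000000000000000 * Δ < t := by omega
    have e3 : 3200000000000000000 * Δ * t < t * t := Nat.mul_lt_mul_of_pos_right e2 (by omega)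
    have e4 : 8 * (400000000000000000 * t * Δ) = 3200000000000000000 * Δ * t := by ring
    omega
  calc 4 * m * ((2 * m - 1) * Δ + Δ * Δ)
      ≤ 4 * m * ((2 * m - 1) * Δ + (2 * m - 1) * Δ) :=
        Nat.mul_le_mul_left _ (Nat.add_le_add_left (Nat.mul_le_mul_right _ hΔ) _)
    _ = (2 * m - 1) * (8 * (m * Δ)) := by ring
    _ < (2 * m - 1) * (t * t) := Nat.mul_lt_mul_of_pos_left h8 hpos

theorem decomp (hV : Fintype.card V = 2 * m) (Hrc Hrs Hcs : Finset (V × V)) (Δ : ℕ)
    (hB : Bal Hrc Hrs Hcs) (hD : Deg Hrc Hrs Hcs Δ) (hm : 10 ^ 40 * (Δ + 1) ≤ m) :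
    ∃ D : V → V → V → ℤ, (∀ x y z, 0 ≤ D x y z) ∧
      mg D = (fun a b => 1 - ind Hrc a b, fun a b => 1 - ind Hrs a b,
        fun a b => 1 - ind Hcs a b) := by
  obtain ⟨n1, n2, n3, n4, n5⟩ := Dec_num hm
  obtain ⟨q, hq⟩ := gen hV n1 Hrc Hrs Hcs Δ (m / 10 ^ 17 / 2) hD n5
  set a := m / 10 ^ 17
  set F := bad q Hrc Hrs Hcs with hF
  have hL : ∀ l, load q F l ≤ a := fun l => (hq l).trans n4
  -- the two maps from cells to the other pairs
  have i1 : Function.Injective fun w : V × V => (w.1, q.nu w.1 w.2) := by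
    rintro ⟨r, c⟩ ⟨r', c'⟩ h
    simp only [Prod.mk.injEq] at h
    obtain ⟨rfl, h2⟩ := h
    have h3 := congrArg (q.col r) h2
    rw [q.col_nu, q.col_nu] at h3
    rw [h3]
  have i2 : Function.Injective fun w : V × V => (w.2, q.nu w.1 w.2) := by
    rintro ⟨r, c⟩ ⟨r', c'⟩ h
    simp only [Prod.mk.injEq] at h
    obtain ⟨rfl, h2⟩ := h
    have h3 := congrArg (q.row c) h2
    rw [q.row_nu, q.row_nu] at h3
    rw [h3]
  set Frs := F.image fun w : V × V => (w.1, q.nu w.1 w.2) with hFrs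
  set Fcs := F.image fun w : V × V => (w.2, q.nu w.1 w.2) with hFcs
  have s1 : Hrc ⊆ F := by
    intro w hw
    rw [hF, bad, Finset.mem_filter]
    exact ⟨Finset.mem_univ _, Or.inl hw⟩
  have s2 : Hrs ⊆ Frs := by
    rintro ⟨r, s⟩ hw
    rw [hFrs, Finset.mem_image]
    refine ⟨(r, q.col r s), ?_, by simp only [q.nu_col]⟩
    rw [hF, bad, Finset.mem_filter]
    refine ⟨Finset.mem_univ _, Or.inr (Or.inl ?_)⟩
    simp only [q.nu_col]
    exact hw
  have s3 : Hcs ⊆ Fcs := by
    rintro ⟨c, s⟩ hw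
    rw [hFcs, Finset.mem_image]
    refine ⟨(q.row c s, c), ?_, by simp only [q.nu_row]⟩
    rw [hF, bad, Finset.mem_filter]
    refine ⟨Finset.mem_univ _, Or.inr (Or.inr ?_)⟩
    simp only [q.nu_row]
    exact hw
  -- degrees of the three sets
  have c1 : ∀ v, (Frs.filter fun e => e.1 = v).card = (F.filter fun e => e.1 = v).card :=
    fun v => Dec_card i1 _
  have c2 : ∀ v, (Fcs.filter fun e => e.1 = v).card = (F.filter fun e => e.2 = v).card :=
    fun v => Dec_card i2 _
  have c3 : ∀ v, (Frs.filter fun e => e.2 = v).card = (F.filter fun e => q.nu e.1 e.2 = v).card :=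
    fun v => Dec_card i1 _
  have c4 : ∀ v, (Fcs.filter fun e => e.2 = v).card = (F.filter fun e => q.nu e.1 e.2 = v).card :=
    fun v => Dec_card i2 _
  have l0 : ∀ v, (F.filter fun e => e.1 = v).card ≤ a := fun v => hL (0, v)
  have l1 : ∀ v, (F.filter fun e => e.2 = v).card ≤ a := fun v => hL (1, v)
  have l2 : ∀ v, (F.filter fun e => q.nu e.1 e.2 = v).card ≤ a := fun v => hL (2, v)
  obtain ⟨p, W, hp, hWF, hmg⟩ := core q hV a n2 n3 F hL (F \ Hrc) (Frs \ Hrs) (Fcs \ Hcs)
    (fun v => by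
      have e1 := Dec_sdiff s1 (fun e => e.1 = v)
      have e2 := Dec_sdiff s2 (fun e => e.1 = v)
      have e3 := hB.row v
      have e4 := c1 v
      omega)
    (fun v => by
      have e1 := Dec_sdiff s1 (fun e => e.2 = v)
      have e2 := Dec_sdiff s3 (fun e => e.1 = v)
      have e3 := hB.col v
      have e4 := c2 v
      omega)
    (fun v => by
      have e1 := Dec_sdiff s2 (fun e => e.2 = v)
      have e2 := Dec_sdiff s3 (fun e => e.2 = v)
      have e3 := hB.sym v
      have e4 := c3 v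
      have e5 := c4 v
      omega)
    (fun v => by
      have e1 := Dec_sdiff s1 (fun e => e.1 = v)
      have e2 := l0 v
      omega)
    (fun v => by
      have e1 := Dec_sdiff s1 (fun e => e.2 = v)
      have e2 := l1 v
      omega)
    (fun v => by
      have e1 := Dec_sdiff s2 (fun e => e.2 = v)
      have e2 := c3 v
      have e3 := l2 v
      omega)
  refine ⟨∑ w ∈ univ \ (F ∪ W), dN q w + p, ?_, ?_⟩
  · intro x y z
    rw [Pi.add_apply, Pi.add_apply, Pi.add_apply, Finset.sum_apply, Finset.sum_apply, Finset.sum_apply]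
    exact add_nonneg (Finset.sum_nonneg fun w _ => dl_nonneg _ _ _ _ _ _) (hp x y z)
  · have hall := mg_all q
    rw [mg_sum] at hall
    have hFW : ∑ w ∈ univ \ (F ∪ W), mg (dN q w) + (∑ w ∈ F, mg (dN q w) + ∑ w ∈ W, mg (dN q w)) =
        ∑ w : V × V, mg (dN q w) := by
      rw [← Finset.sum_union hWF.symm]
      exact Finset.sum_sdiff (Finset.subset_univ _)
    have hFm : ∑ w ∈ F, mg (dN q w) = ((ind Hrc, ind Hrs, ind Hcs) : Mm V) +
        (ind (F \ Hrc), ind (Frs \ Hrs), ind (Fcs \ Hcs)) := by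
      rw [Dec_mg]
      have e1 : (∑ w ∈ F, sg w.1 w.2) = ind F := Dec_ind F
      have e2 : (∑ w ∈ F, sg w.1 (q.nu w.1 w.2)) = ind Frs := by
        rw [← Dec_ind Frs, hFrs, Finset.sum_image fun x _ y _ h => i1 h]
      have e3 : (∑ w ∈ F, sg w.2 (q.nu w.1 w.2)) = ind Fcs := by
        rw [← Dec_ind Fcs, hFcs, Finset.sum_image fun x _ y _ h => i2 h]
      rw [e1, e2, e3, Dec_indsub s1, Dec_indsub s2, Dec_indsub s3]
      rfl
    rw [mg_add, mg_sum, hmg]
    have key : ∑ w ∈ univ \ (F ∪ W), mg (dN q w) +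
        (((ind (F \ Hrc), ind (Frs \ Hrs), ind (Fcs \ Hcs)) : Mm V) + ∑ w ∈ W, mg (dN q w)) =
        ((fun _ _ => 1, fun _ _ => 1, fun _ _ => 1) : Mm V) - (ind Hrc, ind Hrs, ind Hcs) := by
      rw [← hall, ← hFW, hFm]
      abel
    rw [key]
    rfl

end Pool.Agent.DQO
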