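import Pool.Agent.DQO.App1
import Pool.Agent.DQO.Dec

/-!
# DQO-App2: the complement graph `H` of the free triangles

`eR, eC : Fin (2 * m) → Fin n`, `eK : Fin (2 * m) → Fin k` injective (the unfrozen lines).  A cell
`(i, j)` is free iff `(eR i, eC j) ∉ S` and `F (eR i) (eC j)` is an unfrozen colour.
`fr` = the set of the free triples `(i, j, x)`: `F (eR i) (eC j) = eK x` and not in `S`.
`Hrc` = pairs `(i, j)` without free triple, `Hrs` = pairs `(i, x)` without free triple, `Hcs`.

Free triples form a partial matching at every row, column and symbol (balance). Degrees: a row in `Hrc`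
meets `S` at most `h` times and frozen colours at most `k - 2 * m` times; a symbol is missing in at most `h`
rows, lies in a frozen column at most `n - 2 * m` times and in a cell of `S` at most `h` times.
-/

namespace Pool.Agent.DQO

open Finset Pool.Agent.Helper33.DefNum

variable {n k m : ℕ}

/-- The free triples. -/
def Free (F : Fin n → Fin n → Fin k) (S : Finset (Fin n × Fin n)) (eR eC : Fin (2 * m) → Fin n)
    (eK : Fin (2 * m) → Fin k) (i j x : Fin (2 * m)) : Prop :=
  F (eR i) (eC j) = eK x ∧ (eR i, eC j) ∉ S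

private theorem app2_bal {α : Type} [Fintype α] (R : α → α → Prop)
    {i1 : DecidablePred fun a => ¬ ∃ b, R a b} {i2 : DecidablePred fun b => ¬ ∃ a, R a b}
    (h1 : ∀ a b b', R a b → R a b' → b = b') (h2 : ∀ a a' b, R a b → R a' b → a = a') :
    (univ.filter fun a => ¬ ∃ b, R a b).card = (univ.filter fun b => ¬ ∃ a, R a b).card := by
  classical
  have e : (univ.filter fun a => ∃ b, R a b).card = (univ.filter fun b => ∃ a, R a b).card := by
    refine Finset.card_bij (fun a ha => Classical.choose (mem_filter.1 ha).2) ?_ ?_ ?_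
    · intro a ha
      exact mem_filter.2 ⟨mem_univ _, a, Classical.choose_spec (mem_filter.1 ha).2⟩
    · intro a ha a' ha' he
      have e1 := Classical.choose_spec (mem_filter.1 ha).2
      have e2 := Classical.choose_spec (mem_filter.1 ha').2
      rw [← he] at e2
      exact h2 _ _ _ e1 e2
    · intro b hb
      obtain ⟨a, ha⟩ := (mem_filter.1 hb).2
      have hm : a ∈ univ.filter fun a => ∃ b, R a b := mem_filter.2 ⟨mem_univ _, b, ha⟩
      exact ⟨a, hm, h1 _ _ _ (Classical.choose_spec (mem_filter.1 hm).2) ha⟩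
  have e1 := Finset.card_compl (univ.filter fun a => ∃ b, R a b)
  have e2 := Finset.card_compl (univ.filter fun b => ∃ a, R a b)
  have c1 : (univ.filter fun a => ¬ ∃ b, R a b) = (univ.filter fun a => ∃ b, R a b)ᶜ := by
    ext a
    simp
  have c2 : (univ.filter fun b => ¬ ∃ a, R a b) = (univ.filter fun b => ∃ a, R a b)ᶜ := by
    ext a
    simp
  rw [c1, c2, e1, e2, e]

private theorem app2_fst {α β : Type} [Fintype α] [Fintype β] (P : α → β → Prop) (a : α)
    {i1 : DecidablePred fun p : α × β => P p.1 p.2} {i2 : DecidablePred fun e : α × β => e.1 = a}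
    {i3 : DecidablePred fun b => P a b} :
    ((univ.filter fun p : α × β => P p.1 p.2).filter fun e => e.1 = a).card =
      (univ.filter fun b => P a b).card := by
  symm
  refine Finset.card_bij (fun b _ => (a, b)) ?_ ?_ ?_
  · intro b hb
    simpa using hb
  · intro b _ b' _ h
    exact (Prod.mk.inj h).2
  · rintro ⟨a', b⟩ hp
    simp only [mem_filter, mem_univ, true_and] at hp
    obtain ⟨h1, rfl⟩ := hp
    exact ⟨b, by simpa using h1, rfl⟩

private theorem app2_snd {α β : Type} [Fintype α] [Fintype β] (P : α → β → Prop) (b : β)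
    {i1 : DecidablePred fun p : α × β => P p.1 p.2} {i2 : DecidablePred fun e : α × β => e.2 = b}
    {i3 : DecidablePred fun a => P a b} :
    ((univ.filter fun p : α × β => P p.1 p.2).filter fun e => e.2 = b).card =
      (univ.filter fun a => P a b).card := by
  symm
  refine Finset.card_bij (fun a _ => (a, b)) ?_ ?_ ?_
  · intro a ha
    simpa using ha
  · intro a _ a' _ h
    exact (Prod.mk.inj h).1
  · rintro ⟨a, b'⟩ hp
    simp only [mem_filter, mem_univ, true_and] at hp
    obtain ⟨h1, rfl⟩ := hp
    exact ⟨a, by simpa using h1, rfl⟩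

open Classical in
private theorem app2_range {q : ℕ} (e : Fin (2 * m) → Fin q) (he : Function.Injective e) :
    (univ.filter fun x => x ∉ Set.range e).card = q - 2 * m := by
  have h1 : (univ.filter fun x => x ∉ Set.range e) = (univ.image e)ᶜ := by
    ext x
    simp
  rw [h1, Finset.card_compl, Finset.card_image_of_injective _ he]
  simp

open Classical in
theorem app2 {h : ℕ} (hnk : n ≤ k) (F : Fin n → Fin n → Fin k) (hF : Proper F)
    (S : Finset (Fin n × Fin n)) (eR eC : Fin (2 * m) → Fin n) (eK : Fin (2 * m) → Fin k)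
    (hR : Function.Injective eR) (hC : Function.Injective eC) (hK : Function.Injective eK)
    (h1 : ∀ i, (univ.filter fun j => (eR i, j) ∈ S).card ≤ h)
    (h2 : ∀ j, (univ.filter fun i => (i, eC j) ∈ S).card ≤ h)
    (h3 : ∀ x, (S.filter fun e => F e.1 e.2 = eK x).card ≤ h)
    (h4 : ∀ x, (univ.filter fun i => ∀ j, F i j ≠ eK x).card ≤ h)
    (h5 : ∀ x, (univ.filter fun j => ∀ i, F i j ≠ eK x).card ≤ h) :
    ∃ Hrc Hrs Hcs : Finset (Fin (2 * m) × Fin (2 * m)),
      Bal Hrc Hrs Hcs ∧ Deg Hrc Hrs Hcs (2 * h + (k - 2 * m)) ∧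
      (∀ i j, (i, j) ∉ Hrc ↔ ∃ x, Free F S eR eC eK i j x) ∧
      (∀ i x, (i, x) ∉ Hrs ↔ ∃ j, Free F S eR eC eK i j x) ∧
      (∀ j x, (j, x) ∉ Hcs ↔ ∃ i, Free F S eR eC eK i j x) := by
  have d1 : ∀ i j x x', Free F S eR eC eK i j x → Free F S eR eC eK i j x' → x = x' := by
    intro i j x x' a b
    exact hK (a.1.symm.trans b.1)
  have d2 : ∀ i j j' x, Free F S eR eC eK i j x → Free F S eR eC eK i j' x → j = j' := by
    intro i j j' x a b
    exact hC (hF.1 (eR i) (a.1.trans b.1.symm))
  have d3 : ∀ i i' j x, Free F S eR eC eK i j x → Free F S eR eC eK i' j x → i = i' := by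
    intro i i' j x a b
    exact hR (hF.2 (eC j) (a.1.trans b.1.symm))
  have b1 : ∀ i, (univ.filter fun j => ¬ ∃ x, Free F S eR eC eK i j x).card =
      (univ.filter fun x => ¬ ∃ j, Free F S eR eC eK i j x).card := fun i =>
    app2_bal (fun j x => Free F S eR eC eK i j x) (fun j x x' => d1 i j x x')
      (fun j j' x => d2 i j j' x)
  have b2 : ∀ j, (univ.filter fun i => ¬ ∃ x, Free F S eR eC eK i j x).card =
      (univ.filter fun x => ¬ ∃ i, Free F S eR eC eK i j x).card := fun j =>
    app2_bal (fun i x => Free F S eR eC eK i j x) (fun i x x' => d1 i j x x')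
      (fun i i' x => d3 i i' j x)
  have b3 : ∀ x, (univ.filter fun i => ¬ ∃ j, Free F S eR eC eK i j x).card =
      (univ.filter fun j => ¬ ∃ i, Free F S eR eC eK i j x).card := fun x =>
    app2_bal (fun i j => Free F S eR eC eK i j x) (fun i j j' => d2 i j j' x)
      (fun i i' j => d3 i i' j x)
  -- degrees of the rows and columns
  have g1 : ∀ i, (univ.filter fun j => ¬ ∃ x, Free F S eR eC eK i j x).card ≤ 2 * h + (k - 2 * m) := by
    intro i
    have s1 : (univ.filter fun j => ¬ ∃ x, Free F S eR eC eK i j x) ⊆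
        (univ.filter fun j => (eR i, eC j) ∈ S) ∪
          (univ.filter fun j => F (eR i) (eC j) ∉ Set.range eK) := by
      intro j hj
      simp only [mem_filter, mem_univ, true_and, mem_union] at hj ⊢
      by_contra hc
      rw [not_or, not_not] at hc
      obtain ⟨x, hx⟩ := hc.2
      exact hj ⟨x, hx.symm, hc.1⟩
    have s2 : (univ.filter fun j => (eR i, eC j) ∈ S).card ≤ h := by
      refine le_trans ?_ (h1 i)
      refine Finset.card_le_card_of_injOn eC ?_ (hC.injOn)
      intro j hj
      simpa using hj
    have s3 : (univ.filter fun j => F (eR i) (eC j) ∉ Set.range eK).card ≤ k - 2 * m := by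
      rw [← app2_range eK hK]
      refine Finset.card_le_card_of_injOn (fun j => F (eR i) (eC j)) ?_ ?_
      · intro j hj
        simpa using hj
      · intro j _ j' _ he
        exact hC (hF.1 (eR i) he)
    have s4 := (Finset.card_le_card s1).trans (Finset.card_union_le _ _)
    omega
  have g2 : ∀ j, (univ.filter fun i => ¬ ∃ x, Free F S eR eC eK i j x).card ≤ 2 * h + (k - 2 * m) := by
    intro j
    have s1 : (univ.filter fun i => ¬ ∃ x, Free F S eR eC eK i j x) ⊆
        (univ.filter fun i => (eR i, eC j) ∈ S) ∪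
          (univ.filter fun i => F (eR i) (eC j) ∉ Set.range eK) := by
      intro i hi
      simp only [mem_filter, mem_univ, true_and, mem_union] at hi ⊢
      by_contra hc
      rw [not_or, not_not] at hc
      obtain ⟨x, hx⟩ := hc.2
      exact hi ⟨x, hx.symm, hc.1⟩
    have s2 : (univ.filter fun i => (eR i, eC j) ∈ S).card ≤ h := by
      refine le_trans ?_ (h2 j)
      refine Finset.card_le_card_of_injOn eR ?_ (hR.injOn)
      intro i hi
      simpa using hi
    have s3 : (univ.filter fun i => F (eR i) (eC j) ∉ Set.range eK).card ≤ k - 2 * m := by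
      rw [← app2_range eK hK]
      refine Finset.card_le_card_of_injOn (fun i => F (eR i) (eC j)) ?_ ?_
      · intro i hi
        simpa using hi
      · intro i _ i' _ he
        exact hR (hF.2 (eC j) he)
    have s4 := (Finset.card_le_card s1).trans (Finset.card_union_le _ _)
    omega
  have g3 : ∀ x, (univ.filter fun i => ¬ ∃ j, Free F S eR eC eK i j x).card ≤ 2 * h + (k - 2 * m) := by
    intro x
    have s1 : (univ.filter fun i => ¬ ∃ j, Free F S eR eC eK i j x) ⊆
        ((univ.filter fun i => ∀ j, F (eR i) j ≠ eK x) ∪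
          (univ.filter fun i => ∃ j, F (eR i) j = eK x ∧ j ∉ Set.range eC)) ∪
          (univ.filter fun i => ∃ j, F (eR i) j = eK x ∧ (eR i, j) ∈ S) := by
      intro i hi
      simp only [mem_filter, mem_univ, true_and, mem_union] at hi ⊢
      by_cases c1 : ∀ j, F (eR i) j ≠ eK x
      · exact Or.inl (Or.inl c1)
      · push Not at c1
        obtain ⟨j, hj⟩ := c1
        by_cases c2 : j ∈ Set.range eC
        · obtain ⟨j', rfl⟩ := c2
          by_cases c3 : (eR i, eC j') ∈ S
          · exact Or.inr ⟨eC j', hj, c3⟩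
          · exact absurd ⟨j', hj, c3⟩ hi
        · exact Or.inl (Or.inr ⟨j, hj, c2⟩)
    have s2 : (univ.filter fun i => ∀ j, F (eR i) j ≠ eK x).card ≤ h := by
      refine le_trans ?_ (h4 x)
      refine Finset.card_le_card_of_injOn eR ?_ (hR.injOn)
      intro i hi
      simpa using hi
    have s3 : (univ.filter fun i => ∃ j, F (eR i) j = eK x ∧ j ∉ Set.range eC).card ≤ n - 2 * m := by
      rw [← app2_range eC hC]
      refine Finset.card_le_card_of_injOn
        (fun i => if hi : ∃ j, F (eR i) j = eK x ∧ j ∉ Set.range eC then Classical.choose hi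
          else eC i) ?_ ?_
      · intro i hi
        have hi' : ∃ j, F (eR i) j = eK x ∧ j ∉ Set.range eC := by simpa using hi
        have e1 := (Classical.choose_spec hi').2
        simp only [dif_pos hi']
        simpa using e1
      · intro i hi i' hi' he
        have k1 : ∃ j, F (eR i) j = eK x ∧ j ∉ Set.range eC := by simpa using hi
        have k2 : ∃ j, F (eR i') j = eK x ∧ j ∉ Set.range eC := by simpa using hi'
        have e1 := (Classical.choose_spec k1).1
        have e2 := (Classical.choose_spec k2).1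
        simp only [dif_pos k1, dif_pos k2] at he
        rw [← he] at e2
        exact hR (hF.2 _ (e1.trans e2.symm))
    have s4 : (univ.filter fun i => ∃ j, F (eR i) j = eK x ∧ (eR i, j) ∈ S).card ≤ h := by
      refine le_trans ?_ (h3 x)
      refine Finset.card_le_card_of_injOn
        (fun i => if hi : ∃ j, F (eR i) j = eK x ∧ (eR i, j) ∈ S then (eR i, Classical.choose hi)
          else (eR i, eC i)) ?_ ?_
      · intro i hi
        have hi' : ∃ j, F (eR i) j = eK x ∧ (eR i, j) ∈ S := by simpa using hi
        have e1 := Classical.choose_spec hi'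
        simp only [dif_pos hi']
        simp only [coe_filter, Set.mem_ofPred_eq]
        exact ⟨e1.2, e1.1⟩
      · intro i hi i' hi' he
        have k1 : ∃ j, F (eR i) j = eK x ∧ (eR i, j) ∈ S := by simpa using hi
        have k2 : ∃ j, F (eR i') j = eK x ∧ (eR i', j) ∈ S := by simpa using hi'
        simp only [dif_pos k1, dif_pos k2] at he
        exact hR (Prod.mk.inj he).1
    have s5 := (Finset.card_le_card s1).trans (Finset.card_union_le _ _)
    have s6 := Finset.card_union_le (univ.filter fun i => ∀ j, F (eR i) j ≠ eK x)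
      (univ.filter fun i => ∃ j, F (eR i) j = eK x ∧ j ∉ Set.range eC)
    omega
  refine ⟨univ.filter fun p => ¬ ∃ x, Free F S eR eC eK p.1 p.2 x,
    univ.filter fun p => ¬ ∃ j, Free F S eR eC eK p.1 j p.2,
    univ.filter fun p => ¬ ∃ i, Free F S eR eC eK i p.1 p.2, ⟨?_, ?_, ?_⟩, ⟨?_, ?_, ?_, ?_, ?_, ?_⟩,
    ?_, ?_, ?_⟩
  · intro v
    rw [app2_fst (fun i j => ¬ ∃ x, Free F S eR eC eK i j x),
      app2_fst (fun i x => ¬ ∃ j, Free F S eR eC eK i j x)]
    exact b1 v
  · intro v
    rw [app2_snd (fun i j => ¬ ∃ x, Free F S eR eC eK i j x),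
      app2_fst (fun j x => ¬ ∃ i, Free F S eR eC eK i j x)]
    exact b2 v
  · intro v
    rw [app2_snd (fun i x => ¬ ∃ j, Free F S eR eC eK i j x),
      app2_snd (fun j x => ¬ ∃ i, Free F S eR eC eK i j x)]
    exact b3 v
  · intro v
    rw [app2_fst (fun i j => ¬ ∃ x, Free F S eR eC eK i j x)]
    exact g1 v
  · intro v
    rw [app2_snd (fun i j => ¬ ∃ x, Free F S eR eC eK i j x)]
    exact g2 v
  · intro v
    rw [app2_fst (fun i x => ¬ ∃ j, Free F S eR eC eK i j x), ← b1 v]
    exact g1 v
  · intro v
    rw [app2_snd (fun i x => ¬ ∃ j, Free F S eR eC eK i j x)]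
    exact g3 v
  · intro v
    rw [app2_fst (fun j x => ¬ ∃ i, Free F S eR eC eK i j x), ← b2 v]
    exact g2 v
  · intro v
    rw [app2_snd (fun j x => ¬ ∃ i, Free F S eR eC eK i j x), ← b3 v]
    exact g3 v
  · intro i j
    simp
  · intro i x
    simp
  · intro j x
    simp

end Pool.Agent.DQO
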