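import Pool.Agent.DQO.App2

/-!
# DQO-App3: a second decomposition

A triangle `(i, j, x)` which avoids `Hrc`, `Hrs`, `Hcs` and has `x ≠ x₀ i j` is added to the three
sets; the decomposition of the rest together with the triangle is the second decomposition.
-/

namespace Pool.Agent.DQO

open Finset

variable {m : ℕ}

private theorem app3_ins {e : Fin (2 * m) × Fin (2 * m)} {H : Finset (Fin (2 * m) × Fin (2 * m))}
    (he : e ∉ H) (p : Fin (2 * m) × Fin (2 * m) → Prop) [DecidablePred p] :
    ((insert e H).filter p).card = (H.filter p).card + if p e then 1 else 0 := by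
  rw [filter_insert]
  split_ifs with h
  · rw [card_insert_of_notMem]
    intro h1
    exact he (mem_filter.1 h1).1
  · rfl

private theorem app3_ind {e : Fin (2 * m) × Fin (2 * m)} {H : Finset (Fin (2 * m) × Fin (2 * m))}
    (he : e ∉ H) (a b : Fin (2 * m)) : ind (insert e H) a b = ind H a b + sg e.1 e.2 a b := by
  unfold ind sg
  by_cases h : (a, b) = e
  · subst h
    simp [he]
  · have h1 : ¬ (a = e.1 ∧ b = e.2) := fun h2 => h (Prod.ext h2.1 h2.2)
    rw [if_neg h1, add_zero]
    simp only [mem_insert, h, false_or]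

/-- the vertices joined to `v` by no edge of `H`: their number -/
private theorem app3_out (H : Finset (Fin (2 * m) × Fin (2 * m))) (v : Fin (2 * m)) :
    (univ.filter fun y => (v, y) ∈ H).card = (H.filter fun e => e.1 = v).card := by
  refine card_bij (fun y _ => (v, y)) ?_ ?_ ?_
  · intro y hy
    exact mem_filter.2 ⟨(mem_filter.1 hy).2, rfl⟩
  · intro y _ y' _ h
    exact (Prod.ext_iff.1 h).2
  · rintro ⟨a, b⟩ h
    obtain ⟨h1, h2⟩ := mem_filter.1 h
    have h3 : a = v := h2
    subst h3
    exact ⟨b, mem_filter.2 ⟨mem_univ _, h1⟩, rfl⟩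

theorem app3 (Hrc Hrs Hcs : Finset (Fin (2 * m) × Fin (2 * m))) (Δ : ℕ)
    (hB : Bal Hrc Hrs Hcs) (hD : Deg Hrc Hrs Hcs Δ) (hm : 10 ^ 40 * (Δ + 2) ≤ m)
    (x₀ : Fin (2 * m) → Fin (2 * m) → Fin (2 * m)) :
    ∃ (D : Fin (2 * m) → Fin (2 * m) → Fin (2 * m) → ℤ) (i j x : Fin (2 * m)),
      (∀ a b c, 0 ≤ D a b c) ∧
      mg D = (fun a b => 1 - ind Hrc a b, fun a b => 1 - ind Hrs a b,
        fun a b => 1 - ind Hcs a b) ∧
      (i, j) ∉ Hrc ∧ x ≠ x₀ i j ∧ D i j x = 1 := by
  classical
  have hmΔ : Δ + 2 ≤ m := by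
    have h2 : 1 * (Δ + 2) ≤ 10 ^ 40 * (Δ + 2) := Nat.mul_le_mul_right _ (by norm_num)
    rw [one_mul] at h2
    exact h2.trans hm
  have hm' : 10 ^ 40 * (Δ + 1 + 1) ≤ m := by
    rw [show Δ + 1 + 1 = Δ + 2 from rfl]
    exact hm
  have i : Fin (2 * m) := ⟨0, by omega⟩
  obtain ⟨j, hj⟩ : ∃ j, (i, j) ∉ Hrc := by
    by_contra hc
    push Not at hc
    have h1 : (univ.filter fun y => (i, y) ∈ Hrc).card = 2 * m := by
      rw [filter_true_of_mem fun y _ => hc y, card_univ, Fintype.card_fin]
    rw [app3_out] at h1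
    have h2 := hD.rc1 i
    omega
  obtain ⟨x, hx1, hx2, hx3⟩ : ∃ x, x ≠ x₀ i j ∧ (i, x) ∉ Hrs ∧ (j, x) ∉ Hcs := by
    by_contra hc
    push Not at hc
    have h1 : (univ : Finset (Fin (2 * m))) ⊆ insert (x₀ i j)
        ((univ.filter fun y => (i, y) ∈ Hrs) ∪ (univ.filter fun y => (j, y) ∈ Hcs)) := by
      intro y _
      rw [mem_insert, mem_union, mem_filter, mem_filter]
      by_cases h2 : y = x₀ i j
      · exact Or.inl h2
      · by_cases h3 : (i, y) ∈ Hrs
        · exact Or.inr (Or.inl ⟨mem_univ _, h3⟩)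
        · exact Or.inr (Or.inr ⟨mem_univ _, hc y h2 h3⟩)
    have h2 := card_le_card h1
    have h3 := (card_insert_le (x₀ i j)
      ((univ.filter fun y => (i, y) ∈ Hrs) ∪ (univ.filter fun y => (j, y) ∈ Hcs)))
    have h4 := card_union_le (univ.filter fun y => (i, y) ∈ Hrs) (univ.filter fun y => (j, y) ∈ Hcs)
    rw [app3_out, app3_out] at h4
    rw [card_univ, Fintype.card_fin] at h2
    have h5 := hD.rs1 i
    have h6 := hD.cs1 j
    omega
  have hB' : Bal (insert (i, j) Hrc) (insert (i, x) Hrs) (insert (j, x) Hcs) := by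
    constructor
    · intro v
      rw [app3_ins hj, app3_ins hx2, hB.row v]
    · intro v
      rw [app3_ins hj, app3_ins hx3, hB.col v]
    · intro v
      rw [app3_ins hx2, app3_ins hx3, hB.sym v]
  have hD' : Deg (insert (i, j) Hrc) (insert (i, x) Hrs) (insert (j, x) Hcs) (Δ + 1) := by
    constructor
    · intro v
      rw [app3_ins hj]
      have := hD.rc1 v
      split_ifs <;> omega
    · intro v
      rw [app3_ins hj]
      have := hD.rc2 v
      split_ifs <;> omega
    · intro v
      rw [app3_ins hx2]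
      have := hD.rs1 v
      split_ifs <;> omega
    · intro v
      rw [app3_ins hx2]
      have := hD.rs2 v
      split_ifs <;> omega
    · intro v
      rw [app3_ins hx3]
      have := hD.cs1 v
      split_ifs <;> omega
    · intro v
      rw [app3_ins hx3]
      have := hD.cs2 v
      split_ifs <;> omega
  obtain ⟨D', hD0, hDm⟩ := decomp (by rw [Fintype.card_fin]) _ _ _ (Δ + 1) hB' hD' hm'
  refine ⟨fun a b c => D' a b c + dl i j x a b c, i, j, x, ?_, ?_, hj, hx1, ?_⟩
  · intro a b c
    have h1 := hD0 a b c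
    have h2 : 0 ≤ dl i j x a b c := by
      unfold dl
      split_ifs <;> norm_num
    exact add_nonneg h1 h2
  · have e1 := congrArg Prod.fst hDm
    have e2 := congrArg (fun p => p.2.1) hDm
    have e3 := congrArg (fun p => p.2.2) hDm
    refine Prod.ext ?_ (Prod.ext ?_ ?_)
    · funext a b
      have h1 : ∑ s, D' a b s = 1 - ind (insert (i, j) Hrc) a b := congrFun (congrFun e1 a) b
      rw [app3_ind hj] at h1
      have h2 : ∑ s, dl i j x a b s = sg i j a b := by
        unfold dl sg
        by_cases h3 : a = i ∧ b = j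
        · simp [h3.1, h3.2]
        · rw [if_neg h3]
          refine sum_eq_zero fun s _ => if_neg fun h4 => h3 ⟨h4.1, h4.2.1⟩
      show ∑ s, (D' a b s + dl i j x a b s) = 1 - ind Hrc a b
      rw [sum_add_distrib, h2]
      have h5 : ∑ s, D' a b s = 1 - (ind Hrc a b + sg (i, j).1 (i, j).2 a b) := h1
      rw [h5]
      ring
    · funext a b
      have h1 : ∑ s, D' a s b = 1 - ind (insert (i, x) Hrs) a b := congrFun (congrFun e2 a) b
      rw [app3_ind hx2] at h1
      have h2 : ∑ s, dl i j x a s b = sg i x a b := by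
        unfold dl sg
        by_cases h3 : a = i ∧ b = x
        · simp [h3.1, h3.2]
        · rw [if_neg h3]
          refine sum_eq_zero fun s _ => if_neg fun h4 => h3 ⟨h4.1, h4.2.2⟩
      show ∑ s, (D' a s b + dl i j x a s b) = 1 - ind Hrs a b
      rw [sum_add_distrib, h2]
      have h5 : ∑ s, D' a s b = 1 - (ind Hrs a b + sg (i, x).1 (i, x).2 a b) := h1
      rw [h5]
      ring
    · funext a b
      have h1 : ∑ s, D' s a b = 1 - ind (insert (j, x) Hcs) a b := congrFun (congrFun e3 a) b
      rw [app3_ind hx3] at h1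
      have h2 : ∑ s, dl i j x s a b = sg j x a b := by
        unfold dl sg
        by_cases h3 : a = j ∧ b = x
        · simp [h3.1, h3.2]
        · rw [if_neg h3]
          refine sum_eq_zero fun s _ => if_neg fun h4 => h3 ⟨h4.2.1, h4.2.2⟩
      show ∑ s, (D' s a b + dl i j x s a b) = 1 - ind Hcs a b
      rw [sum_add_distrib, h2]
      have h5 : ∑ s, D' s a b = 1 - (ind Hcs a b + sg (j, x).1 (j, x).2 a b) := h1
      rw [h5]
      ring
  · have h1 : D' i j x = 0 := by
      have e1 := congrArg Prod.fst hDm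
      have h1 : ∑ s, D' i j s = 1 - ind (insert (i, j) Hrc) i j := congrFun (congrFun e1 i) j
      rw [app3_ind hj] at h1
      have h5 : ∑ s, D' i j s = 1 - (ind Hrc i j + sg (i, j).1 (i, j).2 i j) := h1
      have h6 : ind Hrc i j = 0 := if_neg hj
      have h7 : sg (i, j).1 (i, j).2 i j = 1 := if_pos ⟨rfl, rfl⟩
      rw [h6, h7] at h5
      have h8 := single_le_sum (f := fun s => D' i j s) (fun s _ => hD0 i j s) (mem_univ x)
      have h9 := hD0 i j x
      omega
    show D' i j x + dl i j x i j x = 1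
    have h2 : dl i j x i j x = 1 := if_pos ⟨rfl, rfl, rfl⟩
    rw [h1, h2]
    norm_num

end Pool.Agent.DQO
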