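import Pool.Agent.DQO.App3

/-!
# DQO-App4: the second colouring

The second decomposition of the free triangles (`app3`) gives a colour for every free cell; all other cells keep
their colours.  Rows and columns stay injective because a colour which is used for a new cell of a line was the colour
of a free cell of this line before, and the colouring changes at the cell given by `app3`.
-/

namespace Pool.Agent.DQO

open Finset Pool.Agent.Helper33.DefNum

variable {n k m : ℕ}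

private theorem App4_uniq {N : ℕ} (g : Fin N → ℤ) (h0 : ∀ x, 0 ≤ g x) (h1 : ∑ x, g x ≤ 1) {a b : Fin N}
    (ha : g a = 1) (hb : g b = 1) : a = b := by
  by_contra hne
  have h2 : ∑ x ∈ {a, b}, g x ≤ ∑ x, g x :=
    Finset.sum_le_sum_of_subset_of_nonneg (subset_univ _) (fun x _ _ => h0 x)
  rw [Finset.sum_pair hne, ha, hb] at h2
  omega

private theorem App4_ex {N : ℕ} (g : Fin N → ℤ) (h0 : ∀ x, 0 ≤ g x) (h1 : ∑ x, g x = 1) : ∃ x, g x = 1 := by
  by_contra hcon
  have h3 : ∀ x, g x = 0 := fun x => by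
    have h4 := h0 x
    have h5 : g x ≤ ∑ x, g x := Finset.single_le_sum (fun y _ => h0 y) (mem_univ x)
    have h6 : g x ≠ 1 := fun h => hcon ⟨x, h⟩
    omega
  rw [Finset.sum_eq_zero (fun x _ => h3 x)] at h1
  omega

private theorem App4_le {N : ℕ} (g : Fin N → ℤ) (h0 : ∀ x, 0 ≤ g x) {a : Fin N} (ha : g a = 1) :
    1 ≤ ∑ x, g x := by
  rw [← ha]
  exact Finset.single_le_sum (fun y _ => h0 y) (mem_univ a)

private theorem App4_ind {V : Type} [Fintype V] [DecidableEq V] (H : Finset (V × V)) (a b : V) :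
    1 - ind H a b ≤ 1 ∧ (1 ≤ 1 - ind H a b → (a, b) ∉ H) ∧ ((a, b) ∉ H → 1 - ind H a b = 1) := by
  unfold ind
  by_cases h : (a, b) ∈ H
  · rw [if_pos h]
    refine ⟨by omega, fun h1 => by omega, fun h1 => absurd h h1⟩
  · rw [if_neg h]
    exact ⟨by omega, fun _ => h, fun _ => by omega⟩

theorem app4 {h : ℕ} (hnk : n ≤ k) (F : Fin n → Fin n → Fin k) (hF : Proper F)
    (S : Finset (Fin n × Fin n)) (eR eC : Fin (2 * m) → Fin n) (eK : Fin (2 * m) → Fin k)
    (hR : Function.Injective eR) (hC : Function.Injective eC) (hK : Function.Injective eK)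
    (h1 : ∀ i, (univ.filter fun j => (eR i, j) ∈ S).card ≤ h)
    (h2 : ∀ j, (univ.filter fun i => (i, eC j) ∈ S).card ≤ h)
    (h3 : ∀ x, (S.filter fun e => F e.1 e.2 = eK x).card ≤ h)
    (h4 : ∀ x, (univ.filter fun i => ∀ j, F i j ≠ eK x).card ≤ h)
    (h5 : ∀ x, (univ.filter fun j => ∀ i, F i j ≠ eK x).card ≤ h)
    (hm : 10 ^ 40 * (2 * h + (k - 2 * m) + 2) ≤ m) :
    ∃ G : Fin n → Fin n → Fin k, Proper G ∧ (∀ e ∈ S, G e.1 e.2 = F e.1 e.2) ∧ G ≠ F := by
  classical
  obtain ⟨Hrc, Hrs, Hcs, hB, hD, frc, frs, fcs⟩ := app2 hnk F hF S eR eC eK hR hC hK h1 h2 h3 h4 h5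
  obtain ⟨D, i0, j0, x1, hD0, hmg, hij0, hx1, hDx⟩ := app3 Hrc Hrs Hcs (2 * h + (k - 2 * m)) hB hD hm
    (fun i j => if hx : ∃ x, F (eR i) (eC j) = eK x then hx.choose else i)
  have hA : ∀ i j, ∑ x, D i j x = 1 - ind Hrc i j := fun i j =>
    congrFun (congrFun (congrArg (fun M : Mm (Fin (2 * m)) => M.1) hmg) i) j
  have hBs : ∀ i x, ∑ j, D i j x = 1 - ind Hrs i x := fun i x =>
    congrFun (congrFun (congrArg (fun M : Mm (Fin (2 * m)) => M.2.1) hmg) i) x
  have hCs : ∀ j x, ∑ i, D i j x = 1 - ind Hcs j x := fun j x =>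
    congrFun (congrFun (congrArg (fun M : Mm (Fin (2 * m)) => M.2.2) hmg) j) x
  -- a new cell is a free cell
  have hnew : ∀ i j x, D i j x = 1 → (i, j) ∉ Hrc := by
    intro i j x hx
    have h6 := App4_le (fun x => D i j x) (hD0 i j) hx
    rw [hA] at h6
    exact (App4_ind Hrc i j).2.1 h6
  have hfree : ∀ i j, (i, j) ∉ Hrc → ∃ x, D i j x = 1 := by
    intro i j hij
    refine App4_ex (fun x => D i j x) (hD0 i j) ?_
    rw [hA]
    exact (App4_ind Hrc i j).2.2 hij
  have key : ∀ a b, ∃ c : Fin k, (∀ i j x, eR i = a → eC j = b → D i j x = 1 → c = eK x) ∧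
      ((∀ i j x, eR i = a → eC j = b → D i j x ≠ 1) → c = F a b) := by
    intro a b
    by_cases hn : ∃ i j x, eR i = a ∧ eC j = b ∧ D i j x = 1
    · obtain ⟨i, j, x, rfl, rfl, hx⟩ := hn
      refine ⟨eK x, ?_, fun h6 => absurd hx (h6 i j x rfl rfl)⟩
      intro i' j' x' hi hj hx'
      rw [hR hi, hC hj] at hx'
      have h6 : ∑ y, D i j y ≤ 1 := by
        rw [hA]
        exact (App4_ind Hrc i j).1
      rw [App4_uniq (fun y => D i j y) (hD0 i j) h6 hx hx']
    · refine ⟨F a b, fun i j x hi hj hx => absurd ⟨i, j, x, hi, hj, hx⟩ hn, fun _ => rfl⟩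
  choose G hG1 hG2 using key
  have hcase : ∀ a b, (∃ i j x, eR i = a ∧ eC j = b ∧ D i j x = 1 ∧ G a b = eK x) ∨
      ((∀ i j x, eR i = a → eC j = b → D i j x ≠ 1) ∧ G a b = F a b) := by
    intro a b
    by_cases hn : ∃ i j x, eR i = a ∧ eC j = b ∧ D i j x = 1
    · obtain ⟨i, j, x, hi, hj, hx⟩ := hn
      exact Or.inl ⟨i, j, x, hi, hj, hx, hG1 a b i j x hi hj hx⟩
    · have h6 : ∀ i j x, eR i = a → eC j = b → D i j x ≠ 1 := fun i j x hi hj hx => hn ⟨i, j, x, hi, hj, hx⟩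
      exact Or.inr ⟨h6, hG2 a b h6⟩
  refine ⟨G, ⟨?_, ?_⟩, ?_, ?_⟩
  · -- rows
    have hmix : ∀ a b b', (∃ i j x, eR i = a ∧ eC j = b ∧ D i j x = 1 ∧ G a b = eK x) →
        (∀ i j x, eR i = a → eC j = b' → D i j x ≠ 1) → F a b' = G a b → False := by
      rintro a b b' ⟨i, j, x, rfl, rfl, hx, hGx⟩ hold hF'
      have h6 := App4_le (fun j => D i j x) (fun j => hD0 i j x) hx
      rw [hBs] at h6
      obtain ⟨j1, hj1⟩ := (frs i x).1 ((App4_ind Hrs i x).2.1 h6)
      have h7 : b' = eC j1 := hF.1 (eR i) (by rw [hF', hGx, hj1.1])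
      obtain ⟨x', hx'⟩ := hfree i j1 ((frc i j1).2 ⟨x, hj1⟩)
      exact hold i j1 x' rfl h7.symm hx'
    intro a b b' hbb
    rcases hcase a b with h6 | h6 <;> rcases hcase a b' with h7 | h7
    · obtain ⟨i, j, x, rfl, rfl, hx, hGx⟩ := h6
      obtain ⟨i', j', x', hi', rfl, hx', hGx'⟩ := h7
      have e1 := hR hi'
      subst e1
      have e2 : x = x' := hK (by rw [← hGx, ← hGx']; exact hbb)
      subst e2
      have h8 : ∑ y, D i' y x ≤ 1 := by
        rw [hBs]
        exact (App4_ind Hrs i' x).1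
      rw [App4_uniq (fun y => D i' y x) (fun y => hD0 i' y x) h8 hx hx']
    · exact (hmix a b b' h6 h7.1 (by rw [← h7.2]; exact hbb.symm)).elim
    · exact (hmix a b' b h7 h6.1 (by rw [← h6.2]; exact hbb)).elim
    · exact hF.1 a (by rw [← h6.2, ← h7.2]; exact hbb)
  · -- columns
    have hmix : ∀ b a a', (∃ i j x, eR i = a ∧ eC j = b ∧ D i j x = 1 ∧ G a b = eK x) →
        (∀ i j x, eR i = a' → eC j = b → D i j x ≠ 1) → F a' b = G a b → False := by
      rintro b a a' ⟨i, j, x, rfl, rfl, hx, hGx⟩ hold hF'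
      have h6 := App4_le (fun i => D i j x) (fun i => hD0 i j x) hx
      rw [hCs] at h6
      obtain ⟨i1, hi1⟩ := (fcs j x).1 ((App4_ind Hcs j x).2.1 h6)
      have h7 : a' = eR i1 := hF.2 (eC j) (by
        show F a' (eC j) = F (eR i1) (eC j)
        rw [hF', hGx, hi1.1])
      obtain ⟨x', hx'⟩ := hfree i1 j ((frc i1 j).2 ⟨x, hi1⟩)
      exact hold i1 j x' h7.symm rfl hx'
    intro b a a' haa
    have haa' : G a b = G a' b := haa
    rcases hcase a b with h6 | h6 <;> rcases hcase a' b with h7 | h7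
    · obtain ⟨i, j, x, rfl, rfl, hx, hGx⟩ := h6
      obtain ⟨i', j', x', rfl, hj', hx', hGx'⟩ := h7
      have e1 := hC hj'
      subst e1
      have e2 : x = x' := hK (by rw [← hGx, ← hGx']; exact haa')
      subst e2
      have h8 : ∑ y, D y j' x ≤ 1 := by
        rw [hCs]
        exact (App4_ind Hcs j' x).1
      rw [App4_uniq (fun y => D y j' x) (fun y => hD0 y j' x) h8 hx hx']
    · exact (hmix b a a' h6 h7.1 (by rw [← h7.2]; exact haa'.symm)).elim
    · exact (hmix b a' a h7 h6.1 (by rw [← h6.2]; exact haa')).elim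
    · exact hF.2 b (by
        show F a b = F a' b
        rw [← h6.2, ← h7.2]
        exact haa')
  · intro e he
    rcases hcase e.1 e.2 with ⟨i, j, x, hi, hj, hx, -⟩ | h6
    · exfalso
      obtain ⟨x', hx'⟩ := (frc i j).1 (hnew i j x hx)
      apply hx'.2
      rw [hi, hj]
      exact he
    · exact h6.2
  · intro hGF
    have h6 : F (eR i0) (eC j0) = eK x1 := by
      rw [← hGF]
      exact hG1 _ _ i0 j0 x1 rfl rfl hDx
    apply hx1
    have h7 : ∃ x, F (eR i0) (eC j0) = eK x := ⟨x1, h6⟩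
    rw [dif_pos h7]
    exact hK (by rw [← h7.choose_spec, h6])

end Pool.Agent.DQO
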