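import Pool.Agent.DQO.Alg

/-!
# DQO-CFs: the nine cell functions

Each is `IsCF q A f g`: the guard clause is immediate, and on every line of another sort the value determines the argument.
-/

namespace Pool.Agent.DQO

open Finset

variable {V : Type} [Fintype V] [DecidableEq V] {m : ℕ}

private theorem CFs_mk (q : Sq V m) {A : Finset V} {f : V → V × V} {i₀ : Fin 3} {w₀ : V}
    (h1 : ∀ v ∈ A, pt q (f v) i₀ = w₀)
    (h2 : ∀ i, i ≠ i₀ → ∀ v ∈ A, ∀ v' ∈ A, pt q (f v) i = pt q (f v') i → v = v') :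
    IsCF q A f (i₀, w₀) := by
  refine ⟨h1, ?_⟩
  rintro ⟨i, w⟩ hl v hv v' hv' e e'
  have e1 : pt q (f v) i = w := e
  have e2 : pt q (f v') i = w := e'
  by_cases hi : i = i₀
  · subst hi
    refine absurd ?_ hl
    rw [← e1, h1 v hv]
  · exact h2 i hi v hv v' hv' (e1.trans e2.symm)

private theorem CFs_0 (q : Sq V m) (w : V × V) : pt q w 0 = w.1 := rfl

private theorem CFs_1 (q : Sq V m) (w : V × V) : pt q w 1 = w.2 := rfl

private theorem CFs_2 (q : Sq V m) (w : V × V) : pt q w 2 = q.nu w.1 w.2 := rfl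

private theorem CFs_nu_r (q : Sq V m) {r v v' : V} (h : q.nu r v = q.nu r v') : v = v' := by
  rw [← q.col_nu r v, h, q.col_nu]

private theorem CFs_nu_c (q : Sq V m) {c v v' : V} (h : q.nu v c = q.nu v' c) : v = v' := by
  rw [← q.row_nu v c, h, q.row_nu]

private theorem CFs_col (q : Sq V m) {r v v' : V} (h : q.col r v = q.col r v') : v = v' := by
  rw [← q.nu_col r v, h, q.nu_col]

private theorem CFs_row (q : Sq V m) {c v v' : V} (h : q.row c v = q.row c v') : v = v' := by
  rw [← q.nu_row c v, h, q.nu_row]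

private theorem CFs_col' (q : Sq V m) {s v v' : V} (h : q.col v s = q.col v' s) : v = v' := by
  have h1 := q.row_nu v (q.col v s)
  have h2 := q.row_nu v' (q.col v' s)
  rw [q.nu_col] at h1 h2
  rw [← h1, h, h2]

private theorem CFs_row' (q : Sq V m) {s v v' : V} (h : q.row v s = q.row v' s) : v = v' := by
  have h1 := q.col_nu (q.row v s) v
  have h2 := q.col_nu (q.row v' s) v'
  rw [q.nu_row] at h1 h2
  rw [← h1, h, h2]

private theorem CFs_cases {P : Fin 3 → Prop} (h0 : P 0) (h1 : P 1) (h2 : P 2) (i : Fin 3) : P i := by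
  fin_cases i
  · exact h0
  · exact h1
  · exact h2

/-- choose the column `v`, partner row `r` -/
theorem cf_r_col (q : Sq V m) (A : Finset V) (r : V) : IsCF q A (fun v => (r, v)) (0, r) :=
  CFs_mk q (fun _ _ => rfl) (CFs_cases (fun h => absurd rfl h) (fun _ _ _ _ _ h => h)
    (fun _ _ _ _ _ h => CFs_nu_r q h))

/-- choose the symbol `v`, partner row `r` -/
theorem cf_r_sym (q : Sq V m) (A : Finset V) (r : V) :
    IsCF q A (fun v => (r, q.col r v)) (0, r) :=
  CFs_mk q (fun _ _ => rfl) (CFs_cases (fun h => absurd rfl h) (fun _ _ _ _ _ h => CFs_col q h)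
    (fun _ _ _ _ _ h => CFs_col q (CFs_nu_r q h)))

/-- choose the row `v`, partner column `c` -/
theorem cf_c_row (q : Sq V m) (A : Finset V) (c : V) : IsCF q A (fun v => (v, c)) (1, c) :=
  CFs_mk q (fun _ _ => rfl) (CFs_cases (fun _ _ _ _ _ h => h) (fun h => absurd rfl h)
    (fun _ _ _ _ _ h => CFs_nu_c q h))

/-- choose the symbol `v`, partner column `c` -/
theorem cf_c_sym (q : Sq V m) (A : Finset V) (c : V) :
    IsCF q A (fun v => (q.row c v, c)) (1, c) :=
  CFs_mk q (fun _ _ => rfl) (CFs_cases (fun _ _ _ _ _ h => CFs_row q h) (fun h => absurd rfl h)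
    (fun _ _ _ _ _ h => CFs_row q (CFs_nu_c q h)))

/-- choose the row `v`, partner symbol `s` -/
theorem cf_s_row (q : Sq V m) (A : Finset V) (s : V) :
    IsCF q A (fun v => (v, q.col v s)) (2, s) :=
  CFs_mk q (fun v _ => q.nu_col v s) (CFs_cases (fun _ _ _ _ _ h => h) (fun _ _ _ _ _ h => CFs_col' q h)
    (fun h => absurd rfl h))

/-- choose the column `v`, partner symbol `s` -/
theorem cf_s_col (q : Sq V m) (A : Finset V) (s : V) :
    IsCF q A (fun v => (q.row v s, v)) (2, s) :=
  CFs_mk q (fun v _ => q.nu_row v s) (CFs_cases (fun _ _ _ _ _ h => CFs_row' q h) (fun _ _ _ _ _ h => h)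
    (fun h => absurd rfl h))

/-- the fourth cell of the intercalate, the symbol `v` is chosen -/
theorem cf_b1 (q : Sq V m) (A : Finset V) (r c : V)
    (hA : ∀ v ∈ A, q.clS v ≠ xor (q.clR r) (q.clC c)) :
    IsCF q A (fun v => (q.row c v, q.col r v)) (2, q.nu r c) :=
  CFs_mk q (fun v hv => q.inter r c v (hA v hv)) (CFs_cases (fun _ _ _ _ _ h => CFs_row q h)
    (fun _ _ _ _ _ h => CFs_col q h) (fun h => absurd rfl h))

/-- the fourth cell of the intercalate, the column `v` is chosen -/
theorem cf_b2 (q : Sq V m) (A : Finset V) (r s : V)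
    (hA : ∀ v ∈ A, q.clS s ≠ xor (q.clR r) (q.clC v)) :
    IsCF q A (fun v => (q.row v s, q.col r s)) (1, q.col r s) :=
  CFs_mk q (fun _ _ => rfl) (CFs_cases (fun _ _ _ _ _ h => CFs_row' q h) (fun h => absurd rfl h)
    (fun _ v hv v' hv' h => by
      have h1 : q.nu (q.row v s) (q.col r s) = q.nu (q.row v' s) (q.col r s) := h
      rw [q.inter r v s (hA v hv), q.inter r v' s (hA v' hv')] at h1
      exact CFs_nu_r q h1))

/-- the fourth cell of the intercalate, the row `v` is chosen -/
theorem cf_b3 (q : Sq V m) (A : Finset V) (c s : V)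
    (hA : ∀ v ∈ A, q.clS s ≠ xor (q.clR v) (q.clC c)) :
    IsCF q A (fun v => (q.row c s, q.col v s)) (0, q.row c s) :=
  CFs_mk q (fun _ _ => rfl) (CFs_cases (fun h => absurd rfl h) (fun _ _ _ _ _ h => CFs_col' q h)
    (fun _ v hv v' hv' h => by
      have h1 : q.nu (q.row c s) (q.col v s) = q.nu (q.row c s) (q.col v' s) := h
      rw [q.inter v c s (hA v hv), q.inter v' c s (hA v' hv')] at h1
      exact CFs_nu_c q h1))

end Pool.Agent.DQO
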