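import Pool.Agent.DQO.Alg

/-!
# DQO-Enc: encoding of a balanced edge set by a permutation

The edges are given by finsets of pairs `Λrc`, `Λrs`, `Λcs` (row-column, row-symbol, column-symbol) such that at every row, column and
symbol the two degrees agree.  Bijections `Λrc ≃ Λrs` over the rows, `Λrc ≃ Λcs` over the columns and `Λcs ≃ Λrs` over the symbols give a
permutation `τ` of `Λrc` and write the weight of the edge set as a sum over `Λrc`.
-/

namespace Pool.Agent.DQO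

open Finset

variable {V : Type} [Fintype V] [DecidableEq V]

private theorem Enc_card (E : Finset (V × V)) (P : V × V → Prop) [DecidablePred P] :
    (univ.filter fun x : {e // e ∈ E} => P x.1).card = (E.filter P).card := by
  refine Finset.card_bij (fun x _ => x.1) ?_ ?_ ?_
  · intro x hx
    exact mem_filter.2 ⟨x.2, (mem_filter.1 hx).2⟩
  · intro x _ y _ h
    exact Subtype.ext h
  · intro y hy
    exact ⟨⟨y, (mem_filter.1 hy).1⟩, mem_filter.2 ⟨mem_univ _, (mem_filter.1 hy).2⟩, rfl⟩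

private theorem Enc_eqv (E₁ E₂ : Finset (V × V)) (p₁ p₂ : V × V → V)
    (h : ∀ v, (E₁.filter fun e => p₁ e = v).card = (E₂.filter fun e => p₂ e = v).card) :
    ∃ e : {e // e ∈ E₁} ≃ {e // e ∈ E₂}, ∀ x, p₂ (e x).1 = p₁ x.1 := by
  have hc : ∀ v, Fintype.card {x : {e // e ∈ E₁} // p₁ x.1 = v} =
      Fintype.card {x : {e // e ∈ E₂} // p₂ x.1 = v} := by
    intro v
    rw [Fintype.card_subtype, Fintype.card_subtype, Enc_card E₁ fun e => p₁ e = v,
      Enc_card E₂ fun e => p₂ e = v, h v]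
  let g : ∀ v, {x : {e // e ∈ E₁} // p₁ x.1 = v} ≃ {x : {e // e ∈ E₂} // p₂ x.1 = v} :=
    fun v => Fintype.equivOfCardEq (hc v)
  refine ⟨(Equiv.sigmaFiberEquiv fun x : {e // e ∈ E₁} => p₁ x.1).symm.trans
    ((Equiv.sigmaCongrRight g).trans (Equiv.sigmaFiberEquiv fun x : {e // e ∈ E₂} => p₂ x.1)), ?_⟩
  intro x
  exact (g (p₁ x.1) ⟨x, rfl⟩).2

private theorem Enc_cardb {E₁ E₂ : Finset (V × V)} (e : {e // e ∈ E₁} ≃ {e // e ∈ E₂})
    (P : V × V → Prop) [DecidablePred P] :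
    (univ.filter fun x : {e // e ∈ E₁} => P (e x).1).card = (E₂.filter P).card := by
  refine Finset.card_bij (fun x _ => (e x).1) ?_ ?_ ?_
  · intro x hx
    exact mem_filter.2 ⟨(e x).2, (mem_filter.1 hx).2⟩
  · intro x _ y _ h
    exact e.injective (Subtype.ext h)
  · intro y hy
    refine ⟨e.symm ⟨y, (mem_filter.1 hy).1⟩, mem_filter.2 ⟨mem_univ _, ?_⟩, ?_⟩
    · rw [Equiv.apply_symm_apply]
      exact (mem_filter.1 hy).2
    · rw [Equiv.apply_symm_apply]

private theorem Enc_ind (E : Finset (V × V)) : ind E = ∑ x : {e // e ∈ E}, sg x.1.1 x.1.2 := by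
  rw [Finset.sum_coe_sort E fun e => sg e.1 e.2]
  funext a b
  rw [Finset.sum_apply, Finset.sum_apply]
  unfold ind sg
  have h : ∀ e ∈ E, (if a = e.1 ∧ b = e.2 then (1 : ℤ) else 0) = if (a, b) = e then 1 else 0 := by
    intro e _
    by_cases h : a = e.1 ∧ b = e.2
    · rw [if_pos h, if_pos (Prod.ext h.1 h.2)]
    · rw [if_neg h, if_neg]
      intro h'
      exact h ⟨congrArg Prod.fst h', congrArg Prod.snd h'⟩
  rw [Finset.sum_congr rfl h, Finset.sum_ite_eq]

private theorem Enc_rc (E : Finset (V × V)) : ((ind E, 0, 0) : Mm V) = ∑ x : {e // e ∈ E}, rc x.1.1 x.1.2 := by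
  rw [Enc_ind]
  refine Prod.ext ?_ (Prod.ext ?_ ?_)
  · rw [Prod.fst_sum]
    rfl
  · rw [Prod.snd_sum, Prod.fst_sum]
    simp [rc]
  · rw [Prod.snd_sum, Prod.snd_sum]
    simp [rc]

private theorem Enc_rs (E : Finset (V × V)) : ((0, ind E, 0) : Mm V) = ∑ x : {e // e ∈ E}, rs x.1.1 x.1.2 := by
  rw [Enc_ind]
  refine Prod.ext ?_ (Prod.ext ?_ ?_)
  · rw [Prod.fst_sum]
    simp [rs]
  · rw [Prod.snd_sum, Prod.fst_sum]
    rfl
  · rw [Prod.snd_sum, Prod.snd_sum]
    simp [rs]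

private theorem Enc_cs (E : Finset (V × V)) : ((0, 0, ind E) : Mm V) = ∑ x : {e // e ∈ E}, cs x.1.1 x.1.2 := by
  rw [Enc_ind]
  refine Prod.ext ?_ (Prod.ext ?_ ?_)
  · rw [Prod.fst_sum]
    simp [cs]
  · rw [Prod.snd_sum, Prod.fst_sum]
    simp [cs]
  · rw [Prod.snd_sum, Prod.snd_sum]
    rfl

theorem encode (Λrc Λrs Λcs : Finset (V × V)) (a : ℕ)
    (hrow : ∀ v, (Λrc.filter fun e => e.1 = v).card = (Λrs.filter fun e => e.1 = v).card)
    (hcol : ∀ v, (Λrc.filter fun e => e.2 = v).card = (Λcs.filter fun e => e.1 = v).card)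
    (hsym : ∀ v, (Λrs.filter fun e => e.2 = v).card = (Λcs.filter fun e => e.2 = v).card)
    (har : ∀ v, (Λrc.filter fun e => e.1 = v).card ≤ a)
    (hac : ∀ v, (Λrc.filter fun e => e.2 = v).card ≤ a)
    (has : ∀ v, (Λrs.filter fun e => e.2 = v).card ≤ a) :
    ∃ (I : Type) (_ : Fintype I) (_ : DecidableEq I) (r c s : I → V) (τ : Equiv.Perm I),
      Fintype.card I ≤ Fintype.card V * a ∧
      (∀ v, (univ.filter fun i => r i = v).card ≤ a) ∧
      (∀ v, (univ.filter fun i => c i = v).card ≤ a) ∧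
      (∀ v, (univ.filter fun i => s i = v).card ≤ a) ∧
      ((ind Λrc, ind Λrs, ind Λcs) : Mm V) =
        ∑ i, (rc (r i) (c i) + rs (r i) (s i) + cs (c i) (s (τ i))) := by
  obtain ⟨e₁, h₁⟩ := Enc_eqv Λrc Λrs (fun e => e.1) (fun e => e.1) hrow
  obtain ⟨e₂, h₂⟩ := Enc_eqv Λrc Λcs (fun e => e.2) (fun e => e.1) hcol
  obtain ⟨e₃, h₃⟩ := Enc_eqv Λcs Λrs (fun e => e.2) (fun e => e.2) fun v => (hsym v).symm
  refine ⟨{e // e ∈ Λrc}, inferInstance, inferInstance, fun i => i.1.1, fun i => i.1.2, fun i => (e₁ i).1.2,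
    e₂.trans (e₃.trans e₁.symm), ?_, ?_, ?_, ?_, ?_⟩
  · rw [Fintype.card_coe, Finset.card_eq_sum_card_fiberwise (f := fun e : V × V => e.1) (t := univ)
      fun x _ => by simp]
    calc ∑ v : V, (Λrc.filter fun e => e.1 = v).card ≤ ∑ _v : V, a := Finset.sum_le_sum fun v _ => har v
      _ = Fintype.card V * a := by rw [Finset.sum_const, Finset.card_univ, smul_eq_mul]
  · intro v
    rw [Enc_card Λrc fun e => e.1 = v]
    exact har v
  · intro v
    rw [Enc_card Λrc fun e => e.2 = v]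
    exact hac v
  · intro v
    rw [Enc_cardb e₁ fun e => e.2 = v]
    exact has v
  · rw [Finset.sum_add_distrib, Finset.sum_add_distrib]
    have k₁ : ∑ i : {e // e ∈ Λrc}, rs i.1.1 (e₁ i).1.2 = ((0, ind Λrs, 0) : Mm V) := by
      rw [Enc_rs, ← Equiv.sum_comp e₁]
      exact Finset.sum_congr rfl fun i _ => by rw [← h₁ i]
    have k₂ : ∑ i : {e // e ∈ Λrc}, cs i.1.2 (e₁ ((e₂.trans (e₃.trans e₁.symm)) i)).1.2 =
        ((0, 0, ind Λcs) : Mm V) := by
      rw [Enc_cs, ← Equiv.sum_comp e₂]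
      refine Finset.sum_congr rfl fun i _ => ?_
      have h4 : e₁ ((e₂.trans (e₃.trans e₁.symm)) i) = e₃ (e₂ i) := by
        simp only [Equiv.trans_apply, Equiv.apply_symm_apply]
      rw [h4, h₃ (e₂ i), ← h₂ i]
    rw [k₁, k₂, ← Enc_rc]
    simp

/-- Removal of the fixed points: they are triangles of the edge set. -/
theorem encode' (Λrc Λrs Λcs : Finset (V × V)) (a : ℕ)
    (hrow : ∀ v, (Λrc.filter fun e => e.1 = v).card = (Λrs.filter fun e => e.1 = v).card)
    (hcol : ∀ v, (Λrc.filter fun e => e.2 = v).card = (Λcs.filter fun e => e.1 = v).card)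
    (hsym : ∀ v, (Λrs.filter fun e => e.2 = v).card = (Λcs.filter fun e => e.2 = v).card)
    (har : ∀ v, (Λrc.filter fun e => e.1 = v).card ≤ a)
    (hac : ∀ v, (Λrc.filter fun e => e.2 = v).card ≤ a)
    (has : ∀ v, (Λrs.filter fun e => e.2 = v).card ≤ a) :
    ∃ (p : V → V → V → ℤ) (I : Type) (_ : Fintype I) (_ : DecidableEq I) (r c s : I → V)
      (τ : Equiv.Perm I), (∀ x y z, 0 ≤ p x y z) ∧ (∀ i, τ i ≠ i) ∧
      Fintype.card I ≤ Fintype.card V * a ∧
      (∀ v, (univ.filter fun i => r i = v).card ≤ a) ∧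
      (∀ v, (univ.filter fun i => c i = v).card ≤ a) ∧
      (∀ v, (univ.filter fun i => s i = v).card ≤ a) ∧
      ((ind Λrc, ind Λrs, ind Λcs) : Mm V) =
        mg p + ∑ i, (rc (r i) (c i) + rs (r i) (s i) + cs (c i) (s (τ i))) := by
  obtain ⟨I, hI1, hI2, r, c, s, τ, h1, h2, h3, h4, h5⟩ := encode Λrc Λrs Λcs a hrow hcol hsym har hac has
  have hcard : ∀ (f : I → V) (v : V), (univ.filter fun i : {i // τ i ≠ i} => f i.1 = v).card ≤
      (univ.filter fun i => f i = v).card := by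
    intro f v
    refine Finset.card_le_card_of_injOn (fun i => i.1) ?_ ?_
    · intro i hi
      have h6 := (mem_filter.1 (mem_coe.1 hi)).2
      exact mem_coe.2 (mem_filter.2 ⟨mem_univ _, h6⟩)
    · intro i _ j _ h
      exact Subtype.ext h
  have hτ : ∀ i, (τ (τ i) ≠ τ i) ↔ (τ i ≠ i) := fun i => not_congr τ.injective.eq_iff
  refine ⟨∑ i ∈ univ.filter fun i => τ i = i, dl (r i) (c i) (s i), {i // τ i ≠ i}, inferInstance, inferInstance,
    fun i => r i.1, fun i => c i.1, fun i => s i.1, τ.subtypePerm hτ, ?_, ?_, ?_, ?_, ?_, ?_, ?_⟩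
  · intro x y z
    rw [Finset.sum_apply, Finset.sum_apply, Finset.sum_apply]
    exact Finset.sum_nonneg fun i _ => dl_nonneg _ _ _ _ _ _
  · intro i hi
    exact i.2 (congrArg Subtype.val hi)
  · exact (Fintype.card_subtype_le _).trans h1
  · exact fun v => (hcard r v).trans (h2 v)
  · exact fun v => (hcard c v).trans (h3 v)
  · exact fun v => (hcard s v).trans (h4 v)
  · rw [h5, mg_sum, ← Finset.sum_filter_add_sum_filter_not univ fun i => τ i = i]
    congr 1
    · refine Finset.sum_congr rfl fun i hi => ?_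
      rw [mg_dl, (mem_filter.1 hi).2]
    · exact Finset.sum_subtype (univ.filter fun i => ¬ τ i = i) (p := fun i => τ i ≠ i) (fun i => by simp)
        fun i => rc (r i) (c i) + rs (r i) (s i) + cs (c i) (s (τ i))

end Pool.Agent.DQO
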