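import Pool.Agent.DQO.Stage

/-!
# DQO-R2: resolve phase: the columns c'_j
-/

namespace Pool.Agent.DQO

open Finset

variable {V : Type} [Fintype V] [DecidableEq V] {m : ℕ} {J : Type} [Fintype J] [DecidableEq J]

private theorem r2_col (q : Sq V m) (c s : V) : q.col (q.row c s) s = c := by
  have h := q.col_nu (q.row c s) c
  rwa [q.nu_row] at h

private theorem r2_one (j : J) : (univ.filter fun j' : J => j' = j).card = 1 := by
  rw [Finset.filter_eq' univ j]
  simp

/-- the owner -/
private def r2o : (J ⊕ J) ⊕ (J ⊕ J) → J := Sum.elim (Sum.elim id id) (Sum.elim id id)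

private theorem r2_hd (j : J) : (univ.filter fun e : (J ⊕ J) ⊕ (J ⊕ J) => r2o e = j).card ≤ 4 := by
  rw [card_filter_sum, card_filter_sum, card_filter_sum]
  simp only [r2o, Sum.elim_inl, Sum.elim_inr, id]
  rw [r2_one]

private theorem r2_card {n : ℕ} (hJ : Fintype.card J ≤ 14 * n) :
    Fintype.card ((J ⊕ J) ⊕ (J ⊕ J)) ≤ 56 * n := by
  rw [Fintype.card_sum, Fintype.card_sum]
  omega

theorem R2 (q : Sq V m) (R C S s' : J → V) (a : ℕ) (ha : 1 ≤ a)
    (hm : 100000000000000000 * a ≤ m) (hJ : Fintype.card J ≤ 14 * (m * a))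
    (X : Finset (V × V)) (hX : X.card ≤ 86 * (m * a))
    (hL : ∀ l, load q X l ≤ 6438528000000 * a)
    (h2 : ∀ l, cnt q (fun j => (R j, q.col (R j) (S j))) l ≤ 1959552000000 * a)
    (hSs : ∀ j, S j ≠ s' j) (hms : ∀ v, mult s' v ≤ 6438528000000 * a) :
    ∃ (c' : J → V) (X1 : Finset (V × V)),
      (∀ j, q.clS (S j) ≠ xor (q.clR (R j)) (q.clC (c' j))) ∧ (∀ j, C j ≠ c' j) ∧
      (∀ j, q.row (C j) (S j) ≠ q.row (c' j) (s' j)) ∧
      (∀ v, mult c' v ≤ 193155840000000 * a) ∧
      (∀ v, mult (fun j => q.row (c' j) (s' j)) v ≤ 193155840000000 * a) ∧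
      Ext q X X1 (Sum.elim
        (Sum.elim (fun j => (R j, c' j)) (fun j => (q.row (c' j) (S j), c' j)))
        (Sum.elim (fun j => (q.row (c' j) (S j), q.col (R j) (S j)))
          (fun j => (q.row (c' j) (s' j), c' j)))) (193155840000000 * a) := by
  have hmR : ∀ v, mult R v ≤ 1959552000000 * a := fun v => h2 (0, v)
  have hmC : ∀ v, mult (fun j => q.col (R j) (S j)) v ≤ 1959552000000 * a := fun v => h2 (1, v)
  have hmS : ∀ v, mult S v ≤ 1959552000000 * a := by
    intro v
    have h := h2 (2, v)
    rw [cnt_eq_mult] at h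
    have e : (fun j => pt q (R j, q.col (R j) (S j)) 2) = S := by
      funext j
      show q.nu (R j) (q.col (R j) (S j)) = S j
      exact q.nu_col _ _
    rwa [e] at h
  obtain ⟨c', X1, hA, hB, -, hE⟩ := phase' q (J := J) (E := (J ⊕ J) ⊕ (J ⊕ J)) r2o
    (fun j => univ.filter fun v => q.clC v = !(xor (q.clR (R j)) (q.clS (S j))))
    (fun j => {C j, q.col (q.row (C j) (S j)) (s' j)}) (fun _ => ∅)
    (Sum.elim (Sum.elim (fun j v => (R j, v)) (fun j v => (q.row v (S j), v)))
      (Sum.elim (fun j v => (q.row v (S j), q.col (R j) (S j))) (fun j v => (q.row v (s' j), v))))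
    (Sum.elim (Sum.elim (fun j => (0, R j)) (fun j => (2, S j)))
      (Sum.elim (fun j => (1, q.col (R j) (S j))) (fun j => (2, s' j))))
    X 4 2 (6438528000000 * a) (3 * (1959552000000 * a) + 6438528000000 * a) (100000 * a) (m / 100)
    (193155840000000 * a)
    (fun j => (q.cardC _).ge)
    (by
      rintro ((j | j) | (j | j))
      · exact cf_r_col q _ (R j)
      · exact cf_s_col q _ (S j)
      · refine cf_b2 q _ (R j) (S j) ?_
        intro v hv
        have hv' := (Finset.mem_filter.1 hv).2
        show q.clS (S j) ≠ xor (q.clR (R j)) (q.clC v)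
        rw [hv']
        show q.clS (S j) ≠ xor (q.clR (R j)) (!(xor (q.clR (R j)) (q.clS (S j))))
        cases q.clR (R j) <;> cases q.clS (S j) <;> decide
      · exact cf_s_col q _ (s' j))
    (by
      rintro ((j | j) | (j | j)) ((j' | j') | (j' | j')) h h'
      all_goals
        have hj : j = j' := h
        subst hj
        first
          | rfl
          | (simp only [Sum.elim_inl, Sum.elim_inr, Prod.mk.injEq] at h'
             first
               | exact absurd h'.2 (hSs j)
               | exact absurd h'.2.symm (hSs j)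
               | exact absurd h'.1 (by decide)))
    r2_hd
    (fun j => Finset.card_le_two)
    (fun j => by simp)
    (fun i j h => by simp at h)
    hL
    (by
      intro l
      rw [card_filter_sum, card_filter_sum, card_filter_sum]
      have e1 := guard_le R 0 _ hmR l
      have e2 := guard_le S 2 _ hmS l
      have e3 := guard_le _ 1 _ hmC l
      have e4 := guard_le s' 2 _ hms l
      simp only [Sum.elim_inl, Sum.elim_inr]
      omega)
    (num_S ha (by
      have := r2_card (J := J) hJ
      omega))
    (by omega) (by omega)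
  have hc0 : ∀ j, q.clS (S j) ≠ xor (q.clR (R j)) (q.clC (c' j)) := by
    intro j
    have hv' := (Finset.mem_filter.1 (hA j)).2
    rw [hv']
    cases q.clR (R j) <;> cases q.clS (S j) <;> decide
  have hfun : (fun e => (Sum.elim (Sum.elim (fun j v => (R j, v)) (fun j v => (q.row v (S j), v)))
      (Sum.elim (fun j v => (q.row v (S j), q.col (R j) (S j)))
        (fun j v => (q.row v (s' j), v))) : (J ⊕ J) ⊕ (J ⊕ J) → V → V × V) e (c' (r2o e))) =
      Sum.elim
        (Sum.elim (fun j => (R j, c' j)) (fun j => (q.row (c' j) (S j), c' j)))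
        (Sum.elim (fun j => (q.row (c' j) (S j), q.col (R j) (S j)))
          (fun j => (q.row (c' j) (s' j), c' j))) := by
    funext e
    rcases e with ((j | j) | (j | j)) <;> rfl
  rw [hfun] at hE
  refine ⟨c', X1, hc0, ?_, ?_, ?_, ?_, hE⟩
  · intro j h
    exact hB j (by simp [← h])
  · intro j h
    apply hB j
    have h1 := r2_col q (c' j) (s' j)
    rw [← h] at h1
    rw [← h1]
    simp
  · intro v
    exact hE.cnt J (fun j => Sum.inl (Sum.inl j)) (fun x y h => by simpa using h) (1, v)
  · intro v
    exact hE.cnt J (fun j => Sum.inr (Sum.inr j)) (fun x y h => by simpa using h) (0, v)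

end Pool.Agent.DQO
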