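import Pool.Agent.DQO.Stage

/-!
# DQO-R3: resolve phase: the rows r'_j

Application of the phase lemma `phase'` to six families of cells with owner `j` (guard sorts
1, 2, 0, 1, 2, 0); the candidates for the row `r' j` form one class of rows.
-/

namespace Pool.Agent.DQO

open Finset

variable {V : Type} [Fintype V] [DecidableEq V] {m : ℕ} {J : Type} [Fintype J] [DecidableEq J]

theorem R3 (q : Sq V m) (R C S s' c' : J → V) (a : ℕ) (ha : 1 ≤ a)
    (hm : 100000000000000000 * a ≤ m) (hJ : Fintype.card J ≤ 14 * (m * a))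
    (X : Finset (V × V)) (hX : X.card ≤ 142 * (m * a))
    (hL : ∀ l, load q X l ≤ 193155840000000 * a)
    (h3 : ∀ l, cnt q (fun j => (q.row (C j) (S j), C j)) l ≤ 1959552000000 * a)
    (hs' : ∀ j, q.clS (s' j) ≠ xor (q.clR (R j)) (q.clC (C j)))
    (hc' : ∀ j, q.clS (S j) ≠ xor (q.clR (R j)) (q.clC (c' j)))
    (hSs : ∀ j, S j ≠ s' j) (hCc : ∀ j, C j ≠ c' j)
    (hrow : ∀ j, q.row (C j) (S j) ≠ q.row (c' j) (s' j))
    (hms : ∀ v, mult s' v ≤ 6438528000000 * a)
    (hmc : ∀ v, mult c' v ≤ 193155840000000 * a)
    (hmr : ∀ v, mult (fun j => q.row (c' j) (s' j)) v ≤ 193155840000000 * a) :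
    ∃ (r' : J → V) (X1 : Finset (V × V)),
      (∀ j, q.clS (S j) ≠ xor (q.clR (r' j)) (q.clC (C j))) ∧
      (∀ j, q.clS (s' j) ≠ xor (q.clR (r' j)) (q.clC (c' j))) ∧
      Ext q X X1 (Sum.elim (Sum.elim
        (Sum.elim (fun j => (r' j, C j)) (fun j => (r' j, q.col (r' j) (S j))))
        (Sum.elim (fun j => (q.row (C j) (S j), q.col (r' j) (S j))) (fun j => (r' j, c' j))))
        (Sum.elim (fun j => (r' j, q.col (r' j) (s' j)))
          (fun j => (q.row (c' j) (s' j), q.col (r' j) (s' j))))) (8498856960000000 * a) := by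
  classical
  set A : J → Finset V := fun j =>
    univ.filter fun v => q.clR v = !(xor (q.clC (C j)) (q.clS (S j))) with hAdef
  have hAmem : ∀ j v, v ∈ A j → q.clR v = !(xor (q.clC (C j)) (q.clS (S j))) := by
    intro j v hv
    simpa [hAdef] using hv
  have hA1 : ∀ j, ∀ v ∈ A j, q.clS (S j) ≠ xor (q.clR v) (q.clC (C j)) := by
    intro j v hv
    have h := hAmem j v hv
    rw [h]
    cases q.clC (C j) <;> cases q.clS (S j) <;> decide
  have hA2 : ∀ j, ∀ v ∈ A j, q.clS (s' j) ≠ xor (q.clR v) (q.clC (c' j)) := by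
    intro j v hv
    have h := hAmem j v hv
    have h1 := hs' j
    have h2 := hc' j
    rw [h]
    revert h1 h2
    cases q.clC (C j) <;> cases q.clS (S j) <;> cases q.clC (c' j) <;> cases q.clS (s' j) <;>
      cases q.clR (R j) <;> decide
  let E := ((J ⊕ J) ⊕ (J ⊕ J)) ⊕ (J ⊕ J)
  let o : E → J := Sum.elim (Sum.elim (Sum.elim id id) (Sum.elim id id)) (Sum.elim id id)
  let f : E → V → V × V := Sum.elim
    (Sum.elim
      (Sum.elim (fun j v => (v, C j)) (fun j v => (v, q.col v (S j))))
      (Sum.elim (fun j v => (q.row (C j) (S j), q.col v (S j))) (fun j v => (v, c' j))))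
    (Sum.elim (fun j v => (v, q.col v (s' j)))
      (fun j v => (q.row (c' j) (s' j), q.col v (s' j))))
  let g : E → Fin 3 × V := Sum.elim
    (Sum.elim
      (Sum.elim (fun j => (1, C j)) (fun j => (2, S j)))
      (Sum.elim (fun j => (0, q.row (C j) (S j))) (fun j => (1, c' j))))
    (Sum.elim (fun j => (2, s' j)) (fun j => (0, q.row (c' j) (s' j))))
  have hcE : Fintype.card E ≤ 84 * (m * a) := by
    have : Fintype.card E = 6 * Fintype.card J := by
      simp only [E, Fintype.card_sum]
      ring
    omega
  have hC : ∀ v, mult C v ≤ 1959552000000 * a := fun v => h3 (1, v)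
  have hS' : ∀ v, mult S v ≤ 1959552000000 * a := by
    intro v
    have h := h3 (2, v)
    have e : cnt q (fun j => (q.row (C j) (S j), C j)) (2, v) = mult S v := by
      unfold cnt mult pt
      congr 1
      ext j
      simp [q.nu_row]
    rw [e] at h
    exact h
  have hRw : ∀ v, mult (fun j => q.row (C j) (S j)) v ≤ 1959552000000 * a := fun v => h3 (0, v)
  obtain ⟨v, X1, hv, -, -, hX1⟩ := phase' q (J := J) (E := E) o A (fun _ => ∅) (fun _ => ∅) f g X
    6 0 (193155840000000 * a)
    (3 * (1959552000000 * a) + 2 * (193155840000000 * a) + 6438528000000 * a)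
    (100000 * a) (m / 100) (8498856960000000 * a)
    (fun j => le_of_eq (q.cardR _).symm)
    (by
      rintro (((j | j) | (j | j)) | (j | j))
      · exact cf_c_row q _ (C j)
      · exact cf_s_row q _ (S j)
      · exact cf_b3 q _ (C j) (S j) (hA1 j)
      · exact cf_c_row q _ (c' j)
      · exact cf_s_row q _ (s' j)
      · exact cf_b3 q _ (c' j) (s' j) (hA2 j))
    (by
      rintro (((j | j) | (j | j)) | (j | j)) (((i | i) | (i | i)) | (i | i)) hji hgg <;>
        simp only [o, g, Sum.elim_inl, Sum.elim_inr, id_eq, Prod.mk.injEq] at hji hgg <;>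
        subst hji <;> first
        | rfl
        | (exfalso; exact absurd hgg.1 (by decide))
        | (exfalso; exact hCc _ hgg.2)
        | (exfalso; exact hCc _ hgg.2.symm)
        | (exfalso; exact hSs _ hgg.2)
        | (exfalso; exact hSs _ hgg.2.symm)
        | (exfalso; exact hrow _ hgg.2)
        | (exfalso; exact hrow _ hgg.2.symm))
    (by
      intro j
      have : (univ.filter fun e : E => o e = j).card = 6 := by
        simp only [E, card_filter_sum]
        simp [o, Finset.filter_eq']
      omega)
    (by simp) (by simp) (by simp)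
    hL
    (by
      intro l
      have e0 := guard_le C 1 _ hC l
      have e1 := guard_le S 2 _ hS' l
      have e2 := guard_le (fun j => q.row (C j) (S j)) 0 _ hRw l
      have e3 := guard_le c' 1 _ hmc l
      have e4 := guard_le s' 2 _ hms l
      have e5 := guard_le (fun j => q.row (c' j) (s' j)) 0 _ hmr l
      have : (univ.filter fun e : E => g e = l).card =
          (((univ.filter fun j => ((1, C j) : Fin 3 × V) = l).card +
            (univ.filter fun j => ((2, S j) : Fin 3 × V) = l).card) +
          ((univ.filter fun j => ((0, q.row (C j) (S j)) : Fin 3 × V) = l).card +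
            (univ.filter fun j => ((1, c' j) : Fin 3 × V) = l).card)) +
          ((univ.filter fun j => ((2, s' j) : Fin 3 × V) = l).card +
            (univ.filter fun j => ((0, q.row (c' j) (s' j)) : Fin 3 × V) = l).card) := by
        simp only [E, card_filter_sum]
        rfl
      rw [this]
      omega)
    (num_S ha (by omega))
    (by omega)
    (by omega)
  refine ⟨v, X1, fun j => hA1 j _ (hv j), fun j => hA2 j _ (hv j), ?_⟩
  have hfe : (fun e => f e (v (o e))) = Sum.elim (Sum.elim
        (Sum.elim (fun j => (v j, C j)) (fun j => (v j, q.col (v j) (S j))))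
        (Sum.elim (fun j => (q.row (C j) (S j), q.col (v j) (S j))) (fun j => (v j, c' j))))
        (Sum.elim (fun j => (v j, q.col (v j) (s' j)))
          (fun j => (q.row (c' j) (s' j), q.col (v j) (s' j)))) := by
    funext e
    rcases e with ((j | j) | (j | j)) | (j | j) <;> rfl
  rw [hfe] at hX1
  exact hX1

end Pool.Agent.DQO
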