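import Pool.Agent.DQO.Alg

/-!
# DQO-ResAlg: the identity which resolves one negative triangle

The octahedron identity `mg_octa r c s r' c' s'` and `mg_good` for the four good triangles `(r, c, s')`, `(r, c', s)`, `(r', c, s)`,
`(r', c', s')`; `p` is the sum of the 3 + 12 positive triangles.
-/

namespace Pool.Agent.DQO

open Finset

variable {V : Type} [Fintype V] [DecidableEq V] {m : ℕ}

private theorem ResAlg_dl (r c s : V) : ∀ x y z, 0 ≤ dl r c s x y z := dl_nonneg r c s

omit [Fintype V] [DecidableEq V] in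
private theorem ResAlg_add {f g : V → V → V → ℤ} (hf : ∀ x y z, 0 ≤ f x y z) (hg : ∀ x y z, 0 ≤ g x y z) :
    ∀ x y z, 0 ≤ (f + g) x y z := fun x y z => add_nonneg (hf x y z) (hg x y z)

/-- three positive triangles -/
private def ResAlg_t (a b c d e f g h i : V) : V → V → V → ℤ := dl a b c + dl d e f + dl g h i

private theorem ResAlg_tn (a b c d e f g h i : V) : ∀ x y z, 0 ≤ ResAlg_t a b c d e f g h i x y z :=
  ResAlg_add (ResAlg_add (ResAlg_dl _ _ _) (ResAlg_dl _ _ _)) (ResAlg_dl _ _ _)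

private theorem ResAlg_tm (a b c d e f g h i : V) :
    mg (ResAlg_t a b c d e f g h i) = mg (dl a b c) + mg (dl d e f) + mg (dl g h i) := by
  unfold ResAlg_t
  rw [mg_add, mg_add]

theorem res_one (q : Sq V m) (r c s r' c' s' : V)
    (h1 : q.clS s' ≠ xor (q.clR r) (q.clC c)) (h2 : q.clS s ≠ xor (q.clR r) (q.clC c'))
    (h3 : q.clS s ≠ xor (q.clR r') (q.clC c)) (h4 : q.clS s' ≠ xor (q.clR r') (q.clC c')) :
    ∃ p : V → V → V → ℤ, (∀ x y z, 0 ≤ p x y z) ∧
      mg p + mg (dl r c s) =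
        (mg (dN q (r, c)) + mg (dN q (r, q.col r s)) + mg (dN q (q.row c s, c)))
        + (mg (dN q (r, q.col r s')) + mg (dN q (q.row c s', c))
          + mg (dN q (q.row c s', q.col r s')))
        + (mg (dN q (r, c')) + mg (dN q (q.row c' s, c')) + mg (dN q (q.row c' s, q.col r s))
          + mg (dN q (q.row c' s', c')))
        + (mg (dN q (r', c)) + mg (dN q (r', q.col r' s)) + mg (dN q (q.row c s, q.col r' s))
          + mg (dN q (r', c')) + mg (dN q (r', q.col r' s'))
          + mg (dN q (q.row c' s', q.col r' s'))) := by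
  refine ⟨ResAlg_t r c' s' r' c s' r' c' s +
      ResAlg_t r (q.col r s') (q.nu r c) (q.row c s') c (q.nu r c) (q.row c s') (q.col r s') s' +
      ResAlg_t r (q.col r s) (q.nu r c') (q.row c' s) c' (q.nu r c') (q.row c' s) (q.col r s) s +
      ResAlg_t r' (q.col r' s) (q.nu r' c) (q.row c s) c (q.nu r' c) (q.row c s) (q.col r' s) s +
      ResAlg_t r' (q.col r' s') (q.nu r' c') (q.row c' s') c' (q.nu r' c') (q.row c' s') (q.col r' s') s',
    ResAlg_add (ResAlg_add (ResAlg_add (ResAlg_add (ResAlg_tn _ _ _ _ _ _ _ _ _)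
      (ResAlg_tn _ _ _ _ _ _ _ _ _)) (ResAlg_tn _ _ _ _ _ _ _ _ _)) (ResAlg_tn _ _ _ _ _ _ _ _ _))
      (ResAlg_tn _ _ _ _ _ _ _ _ _), ?_⟩
  rw [mg_add, mg_add, mg_add, mg_add, ResAlg_tm, ResAlg_tm, ResAlg_tm, ResAlg_tm, ResAlg_tm]
  have g1 := mg_good q h1
  have g2 := mg_good q h2
  have g3 := mg_good q h3
  have g4 := mg_good q h4
  have g5 := mg_octa (V := V) r c s r' c' s'
  linear_combination g1 + g2 + g3 + g4 + g5

end Pool.Agent.DQO
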