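import Pool.Agent.DQO.R1
import Pool.Agent.DQO.R2
import Pool.Agent.DQO.R3
import Pool.Agent.DQO.ResAlg

/-!
# DQO-Res: all negative triangles are resolved

The three resolve phases `R1`, `R2`, `R3` choose the symbols, columns and rows, `res_one` resolves
the triangle with index `j`, and the three `Ext.sum` identities are added up.
-/

namespace Pool.Agent.DQO

open Finset

variable {V : Type} [Fintype V] [DecidableEq V] {m : ℕ} {J : Type} [Fintype J] [DecidableEq J]

theorem resolve (q : Sq V m) (R C S : J → V) (a : ℕ) (ha : 1 ≤ a)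
    (hm : 100000000000000000 * a ≤ m) (hJ : Fintype.card J ≤ 14 * (m * a))
    (X : Finset (V × V)) (hX : X.card ≤ 44 * (m * a))
    (hL : ∀ l, load q X l ≤ 279936000000 * a)
    (h1 : ∀ l, cnt q (fun j => (R j, C j)) l ≤ 1959552000000 * a)
    (h2 : ∀ l, cnt q (fun j => (R j, q.col (R j) (S j))) l ≤ 1959552000000 * a)
    (h3 : ∀ l, cnt q (fun j => (q.row (C j) (S j), C j)) l ≤ 1959552000000 * a) :
    ∃ (p : V → V → V → ℤ) (Y : Finset (V × V)), (∀ x y z, 0 ≤ p x y z) ∧ X ⊆ Y ∧
      ∑ w ∈ Y, mg (dN q w)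
          + ∑ j, (mg (dN q (R j, C j)) + mg (dN q (R j, q.col (R j) (S j)))
            + mg (dN q (q.row (C j) (S j), C j))) =
        ∑ w ∈ X, mg (dN q w) + mg p + ∑ j, mg (dl (R j) (C j) (S j)) := by
  obtain ⟨s', X1, hs', hSs, hms, E1⟩ := R1 q R C S a ha hm hJ X hX hL h1
  have hX1 : X1.card ≤ 86 * (m * a) := by
    have h := E1.card
    rw [Fintype.card_sum, Fintype.card_sum] at h
    omega
  obtain ⟨c', X2, hc', hCc, hrow, hmc, hmr, E2⟩ := R2 q R C S s' a ha hm hJ X1 hX1 E1.load h2 hSs hms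
  have hX2 : X2.card ≤ 142 * (m * a) := by
    have h := E2.card
    rw [Fintype.card_sum, Fintype.card_sum] at h
    omega
  obtain ⟨r', X3, hr1, hr2, E3⟩ := R3 q R C S s' c' a ha hm hJ X2 hX2 E2.load h3 hs' hc' hSs hCc
    hrow hms hmc hmr
  choose p hp0 hp using fun j =>
    res_one q (R j) (C j) (S j) (r' j) (c' j) (s' j) (hs' j) (hc' j) (hr1 j) (hr2 j)
  refine ⟨∑ j, p j, X3, ?_, (E1.sub.trans E2.sub).trans E3.sub, ?_⟩
  · intro x y z
    rw [Finset.sum_apply, Finset.sum_apply, Finset.sum_apply]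
    exact Finset.sum_nonneg fun j _ => hp0 j x y z
  · have e1 := E1.sum fun w => mg (dN q w)
    have e2 := E2.sum fun w => mg (dN q w)
    have e3 := E3.sum fun w => mg (dN q w)
    have e4 := Finset.sum_congr (rfl : (univ : Finset J) = univ) fun j _ => hp j
    simp only [Fintype.sum_sum_type, Sum.elim_inl, Sum.elim_inr] at e1 e2 e3
    simp only [Finset.sum_add_distrib] at e4 ⊢
    rw [mg_sum, e3, e2, e1]
    linear_combination -e4

end Pool.Agent.DQO
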