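import Pool.Agent.DQO.Tok
import Pool.Agent.DQO.Res
import Pool.Agent.DQO.Enc

/-!
# DQO-Core: the core theorem (blueprint Section 4)

The combination of `encode'`, `tokens` (started at the destroyed cells `F`) and `resolve`: the edges of a balanced edge set and the
triangles of the square at a set `W` of cells outside `F` are together a nonnegative combination of triangles.
-/

namespace Pool.Agent.DQO

open Finset

variable {V : Type} [Fintype V] [DecidableEq V] {m : ℕ}

private theorem Core_card (q : Sq V m) (F : Finset (V × V)) (a : ℕ) (hL : ∀ l, load q F l ≤ a) :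
    F.card ≤ Fintype.card V * a := by
  have h1 : F.card = ∑ v : V, (F.filter fun w => w.1 = v).card :=
    Finset.card_eq_sum_card_fiberwise (f := fun w : V × V => w.1) (fun _ _ => Finset.mem_coe.2 (Finset.mem_univ _))
  have h2 : ∀ v, (F.filter fun w => w.1 = v).card ≤ a := fun v => hL (0, v)
  rw [h1]
  refine (Finset.sum_le_sum fun v _ => h2 v).trans ?_
  rw [Finset.sum_const, Finset.card_univ, smul_eq_mul]

private theorem Core_alg {G : Type} [AddCommGroup G] {p0 p1 p2 L L' D B X Y F W : G} (e0 : L = p0 + L')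
    (e1 : p1 = L' + D) (e2 : X = F + B) (e3 : Y + B = X + p2 + D) (e4 : W + F = Y) : p0 + p1 + p2 = L + W := by
  have h1 : Y = X + p2 + D - B := eq_sub_of_add_eq e3
  have h2 : W = Y - F := eq_sub_of_add_eq e4
  rw [h2, h1, e2, e0, e1]
  abel

theorem core (q : Sq V m) (hV : Fintype.card V = 2 * m) (a : ℕ) (ha : 1 ≤ a)
    (hm : 100000000000000000 * a ≤ m) (F : Finset (V × V)) (hL : ∀ l, load q F l ≤ a)
    (Λrc Λrs Λcs : Finset (V × V))
    (hrow : ∀ v, (Λrc.filter fun e => e.1 = v).card = (Λrs.filter fun e => e.1 = v).card)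
    (hcol : ∀ v, (Λrc.filter fun e => e.2 = v).card = (Λcs.filter fun e => e.1 = v).card)
    (hsym : ∀ v, (Λrs.filter fun e => e.2 = v).card = (Λcs.filter fun e => e.2 = v).card)
    (har : ∀ v, (Λrc.filter fun e => e.1 = v).card ≤ a)
    (hac : ∀ v, (Λrc.filter fun e => e.2 = v).card ≤ a)
    (has : ∀ v, (Λrs.filter fun e => e.2 = v).card ≤ a) :
    ∃ (p : V → V → V → ℤ) (W : Finset (V × V)), (∀ x y z, 0 ≤ p x y z) ∧ Disjoint W F ∧
      mg p = ((ind Λrc, ind Λrs, ind Λcs) : Mm V) + ∑ w ∈ W, mg (dN q w) := by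
  obtain ⟨p₀, I, _, _, r, c, s, τ, hp₀, hfix, hI, hr, hc, hs, e0⟩ :=
    encode' Λrc Λrs Λcs a hrow hcol hsym har hac has
  have hVa : Fintype.card V * a = 2 * (m * a) := by rw [hV]; ring
  rw [hVa] at hI
  have hF := Core_card q F a hL
  rw [hVa] at hF
  obtain ⟨J, _, _, R, C, S, p₁, X, hJ, hFX, hXc, hXl, hp₁, e1, e2, h1, h2, h3⟩ :=
    tokens q r c s τ a ha hm hfix hI hr hc hs F hF hL
  obtain ⟨p₂, Y, hp₂, hXY, e3⟩ := resolve q R C S a ha hm hJ X hXc hXl h1 h2 h3
  refine ⟨p₀ + p₁ + p₂, Y \ F, ?_, Finset.sdiff_disjoint, ?_⟩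
  · intro x y z
    exact add_nonneg (add_nonneg (hp₀ x y z) (hp₁ x y z)) (hp₂ x y z)
  · rw [mg_add, mg_add]
    exact Core_alg e0 e1 e2 e3 (Finset.sum_sdiff (hFX.trans hXY))

end Pool.Agent.DQO
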