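import Mathlib

/-!
# DQO: definitions

Problem MP_0e4c8c_co.  Everything takes place in the complete tripartite graph on three copies
(rows, columns, symbols) of a finite set `V` with `2 * m` elements.

* `Sq V m` : a Latin square `nu` on `V` with its two conjugates `col`, `row`, classes of rows,
  columns and symbols (each class has `m` elements) such that every cell lies in `m` intercalates
  (`inter`).
* cells are pairs `(row, column) : V × V`; a line is a pair `l : Fin 3 × V` (`l.1 = 0` row line,
  `1` column line, `2` symbol line); the cell `w` is on the line `l` iff `pt q w l.1 = l.2`.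
* `Mm V` : the group of integer weights on the edges (row-column, row-symbol, column-symbol);
  `rc`, `rs`, `cs` single edges; `mg` the marginals of an integer function of triples;
  `dl r c s` a single triangle, `dN q w` the triangle of the square at the cell `w`.
-/

namespace Pool.Agent.DQO

open Finset

/-- A nice Latin square of order `2 * m` on `V`. -/
structure Sq (V : Type) [Fintype V] [DecidableEq V] (m : ℕ) where
  nu : V → V → V
  col : V → V → V
  row : V → V → V
  nu_col : ∀ r s, nu r (col r s) = s
  col_nu : ∀ r c, col r (nu r c) = c
  nu_row : ∀ c s, nu (row c s) c = s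
  row_nu : ∀ r c, row c (nu r c) = r
  clR : V → Bool
  clC : V → Bool
  clS : V → Bool
  cl_nu : ∀ r c, clS (nu r c) = xor (clR r) (clC c)
  cardR : ∀ b, (univ.filter fun v => clR v = b).card = m
  cardC : ∀ b, (univ.filter fun v => clC v = b).card = m
  cardS : ∀ b, (univ.filter fun v => clS v = b).card = m
  inter : ∀ r c s, clS s ≠ xor (clR r) (clC c) → nu (row c s) (col r s) = nu r c

variable {V : Type} [Fintype V] [DecidableEq V] {m : ℕ}

/-- The three vertices (row, column, symbol) of the triangle of the square at the cell `w`. -/
def pt (q : Sq V m) (w : V × V) (i : Fin 3) : V :=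
  if i = 0 then w.1 else if i = 1 then w.2 else q.nu w.1 w.2

/-- The number of cells of `X` on the line `l`. -/
def load (q : Sq V m) (X : Finset (V × V)) (l : Fin 3 × V) : ℕ :=
  (X.filter fun w => pt q w l.1 = l.2).card

/-- The number of indices whose cell is on the line `l`. -/
def cnt (q : Sq V m) {J : Type} [Fintype J] (h : J → V × V) (l : Fin 3 × V) : ℕ :=
  (univ.filter fun j => pt q (h j) l.1 = l.2).card

/-- `f` is a cell function on `A` with guard line `g`: all values on `A` are on the line `g`, and
every other line contains the value of at most one element of `A`. -/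
def IsCF (q : Sq V m) (A : Finset V) (f : V → V × V) (g : Fin 3 × V) : Prop :=
  (∀ v ∈ A, pt q (f v) g.1 = g.2) ∧
    ∀ l : Fin 3 × V, l ≠ g → ∀ v ∈ A, ∀ v' ∈ A,
      pt q (f v) l.1 = l.2 → pt q (f v') l.1 = l.2 → v = v'

/-- Integer weights on the edges: row-column, row-symbol, column-symbol. -/
abbrev Mm (V : Type) : Type := (V → V → ℤ) × (V → V → ℤ) × (V → V → ℤ)

/-- A single pair as an integer weight. -/
def sg (a b : V) : V → V → ℤ := fun x y => if x = a ∧ y = b then 1 else 0

/-- The row-column edge. -/
def rc (r c : V) : Mm V := (sg r c, 0, 0)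

/-- The row-symbol edge. -/
def rs (r s : V) : Mm V := (0, sg r s, 0)

/-- The column-symbol edge. -/
def cs (c s : V) : Mm V := (0, 0, sg c s)

/-- The marginals of an integer function of triples. -/
def mg (f : V → V → V → ℤ) : Mm V :=
  (fun r c => ∑ s, f r c s, fun r s => ∑ c, f r c s, fun c s => ∑ r, f r c s)

/-- A single triangle. -/
def dl (r c s : V) : V → V → V → ℤ := fun x y z => if x = r ∧ y = c ∧ z = s then 1 else 0

/-- The triangle of the square at the cell `w`. -/
def dN (q : Sq V m) (w : V × V) : V → V → V → ℤ := dl w.1 w.2 (q.nu w.1 w.2)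

/-- The edges of a finset of pairs, as a weight. -/
def ind (H : Finset (V × V)) : V → V → ℤ := fun a b => if (a, b) ∈ H then 1 else 0

/-- `X'` is `X` together with the new cells `h e` (all distinct and not in `X`); all loads of
`X'` are at most `L`. -/
structure Ext (q : Sq V m) (X X' : Finset (V × V)) {E : Type} [Fintype E] (h : E → V × V)
    (L : ℕ) : Prop where
  sub : X ⊆ X'
  sum : ∀ φ : V × V → Mm V, ∑ w ∈ X', φ w = ∑ w ∈ X, φ w + ∑ e, φ (h e)
  card : X'.card ≤ X.card + Fintype.card E
  load : ∀ l, load q X' l ≤ L
  cnt : ∀ (K : Type) [Fintype K] (k : K → E), Function.Injective k →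
    ∀ l, cnt q (fun x => h (k x)) l ≤ L

/-- The number of indices with a given value. -/
def mult {J : Type} [Fintype J] (f : J → V) (v : V) : ℕ := (univ.filter fun j => f j = v).card

end Pool.Agent.DQO
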