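import Pool.Agent.DQO.Alg

/-!
# DQO-Dih: the dihedral Latin square and its isotopes

`nu ((i,a),(j,b)) = (i + j, false)` if `a = b`, `(j - i, true)` if `a ≠ b` on `ZMod m × Bool`; the
classes are the second components.
-/

namespace Pool.Agent.DQO

open Finset

private theorem dih_card (m : ℕ) [NeZero m] (b : Bool) :
    ((univ : Finset (ZMod m × Bool)).filter fun v => v.2 = b).card = m := by
  have h : ((univ : Finset (ZMod m × Bool)).filter fun v => v.2 = b) =
      (univ : Finset (ZMod m)).image fun i => (i, b) := by
    ext ⟨i, a⟩
    simp only [mem_filter, mem_univ, true_and, mem_image, Prod.mk.injEq, exists_eq_left]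
    exact ⟨fun h => h.symm, fun h => h.symm⟩
  rw [h, card_image_of_injective _ (fun i j hij => (Prod.mk.inj hij).1), card_univ, ZMod.card]

theorem exists_sq (m : ℕ) [NeZero m] : Nonempty (Sq (ZMod m × Bool) m) := by
  refine ⟨{ nu := fun r c => (if r.2 = c.2 then r.1 + c.1 else c.1 - r.1, xor r.2 c.2)
            col := fun r s => (if s.2 then s.1 + r.1 else s.1 - r.1, xor r.2 s.2)
            row := fun c s => (if s.2 then c.1 - s.1 else s.1 - c.1, xor c.2 s.2)
            nu_col := ?_
            col_nu := ?_
            nu_row := ?_
            row_nu := ?_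
            clR := fun v => v.2
            clC := fun v => v.2
            clS := fun v => v.2
            cl_nu := fun r c => rfl
            cardR := dih_card m
            cardC := dih_card m
            cardS := dih_card m
            inter := ?_ }⟩
  · rintro ⟨i, a⟩ ⟨k, e⟩
    cases a <;> cases e <;> simp
  · rintro ⟨i, a⟩ ⟨j, b⟩
    cases a <;> cases b <;> simp
  · rintro ⟨j, b⟩ ⟨k, e⟩
    cases b <;> cases e <;> simp
  · rintro ⟨i, a⟩ ⟨j, b⟩
    cases a <;> cases b <;> simp
  · rintro ⟨i, a⟩ ⟨j, b⟩ ⟨k, e⟩ h
    cases a <;> cases b <;> cases e <;> simp at h ⊢ <;> ring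

private theorem iso_card {V W : Type} [Fintype V] [DecidableEq V] [Fintype W] [DecidableEq W] {m : ℕ}
    (e : V ≃ W) (cl : W → Bool) (h : ∀ b, (univ.filter fun v => cl v = b).card = m) (b : Bool) :
    (univ.filter fun v => cl (e v) = b).card = m := by
  rw [← h b]
  apply card_bijective e e.bijective
  intro i
  simp

/-- An isotope of a nice square. -/
theorem isotope {V W : Type} [Fintype V] [DecidableEq V] [Fintype W] [DecidableEq W] {m : ℕ}
    (q : Sq W m) (eR eC eS : V ≃ W) :
    ∃ q' : Sq V m, (∀ r c, q'.nu r c = eS.symm (q.nu (eR r) (eC c))) ∧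
      (∀ r s, q'.col r s = eC.symm (q.col (eR r) (eS s))) ∧
      (∀ c s, q'.row c s = eR.symm (q.row (eC c) (eS s))) := by
  refine ⟨{ nu := fun r c => eS.symm (q.nu (eR r) (eC c))
            col := fun r s => eC.symm (q.col (eR r) (eS s))
            row := fun c s => eR.symm (q.row (eC c) (eS s))
            nu_col := ?_
            col_nu := ?_
            nu_row := ?_
            row_nu := ?_
            clR := fun v => q.clR (eR v)
            clC := fun v => q.clC (eC v)
            clS := fun v => q.clS (eS v)
            cl_nu := ?_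
            cardR := iso_card eR q.clR q.cardR
            cardC := iso_card eC q.clC q.cardC
            cardS := iso_card eS q.clS q.cardS
            inter := ?_ }, fun r c => rfl, fun r s => rfl, fun c s => rfl⟩
  · intro r s
    simp [q.nu_col]
  · intro r c
    simp [q.col_nu]
  · intro c s
    simp [q.nu_row]
  · intro r c
    simp [q.row_nu]
  · intro r c
    simp [q.cl_nu]
  · intro r c s h
    simp only [Equiv.apply_symm_apply]
    rw [q.inter _ _ _ h]

end Pool.Agent.DQO
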