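import Pool.Agent.DQO.InvA

/-!
# DQO-Inv: representatives of the orbits of an involution, facts on `τ = ι κ`
-/

namespace Pool.Agent.DQO

theorem exists_rep {I : Type} [Fintype I] [DecidableEq I] (ι : Equiv.Perm I) (h : ι * ι = 1) :
    ∃ rep : I → I, (∀ i, rep (ι i) = rep i) ∧ (∀ i, rep i = i ∨ rep i = ι i) ∧
      (∀ i, rep (rep i) = rep i) ∧ (∀ i j, rep i = rep j → j = i ∨ j = ι i) := by
  have hh : ∀ i, ι (ι i) = i := by
    intro i
    have h1 : (ι * ι) i = (1 : Equiv.Perm I) i := by rw [h]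
    exact h1
  let e := Fintype.equivFin I
  let rep : I → I := fun i => if e i ≤ e (ι i) then i else ι i
  have h1 : ∀ i, rep (ι i) = rep i := by
    intro i
    show (if e (ι i) ≤ e (ι (ι i)) then ι i else ι (ι i)) = if e i ≤ e (ι i) then i else ι i
    rw [hh]
    rcases lt_trichotomy (e i) (e (ι i)) with hlt | heq | hgt
    · rw [if_neg (not_le.2 hlt), if_pos hlt.le]
    · have h2 : i = ι i := e.injective heq
      rw [if_pos heq.ge, if_pos heq.le]
      exact h2.symm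
    · rw [if_pos hgt.le, if_neg (not_le.2 hgt)]
  have h2 : ∀ i, rep i = i ∨ rep i = ι i := by
    intro i
    show (if e i ≤ e (ι i) then i else ι i) = i ∨ (if e i ≤ e (ι i) then i else ι i) = ι i
    by_cases hc : e i ≤ e (ι i)
    · left; rw [if_pos hc]
    · right; rw [if_neg hc]
  refine ⟨rep, h1, h2, ?_, ?_⟩
  · intro i
    rcases h2 i with h3 | h3
    · rw [h3, h3]
    · rw [h3, h1, h3]
  · intro i j hij
    rcases h2 i with h3 | h3 <;> rcases h2 j with h4 | h4
    · left; rw [← h4, ← hij, h3]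
    · right
      have h5 : i = ι j := by rw [← h3, hij, h4]
      rw [h5, hh]
    · right; rw [← h4, ← hij, h3]
    · left
      have h5 : ι i = ι j := by rw [← h3, hij, h4]
      exact (ι.injective h5).symm

/-- Consequences for a fixed-point-free `τ = ι κ`. -/
theorem inv_facts {I : Type} [DecidableEq I] (τ ι κ : Equiv.Perm I) (hι : ι * ι = 1)
    (hκ : κ * κ = 1) (h : τ = ι * κ) (hτ : ∀ i, τ i ≠ i) :
    (∀ i, ι (ι i) = i) ∧ (∀ i, κ (κ i) = i) ∧ (∀ i, τ i = ι (κ i)) ∧ (∀ i, τ.symm i = κ (ι i)) ∧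
      (∀ i, ι i ≠ κ i) ∧ (∀ i, ι (τ i) = κ i) ∧ (∀ i, κ (τ.symm i) = ι i) ∧
      (∀ i, κ i = i → ι i ≠ i) := by
  have h1 : ∀ i, ι (ι i) = i := by
    intro i
    have h1 : (ι * ι) i = (1 : Equiv.Perm I) i := by rw [hι]
    exact h1
  have h2 : ∀ i, κ (κ i) = i := by
    intro i
    have h1 : (κ * κ) i = (1 : Equiv.Perm I) i := by rw [hκ]
    exact h1
  have h3 : ∀ i, τ i = ι (κ i) := by
    intro i
    rw [h]
    rfl
  have h4 : ∀ i, τ.symm i = κ (ι i) := by
    intro i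
    rw [Equiv.symm_apply_eq, h3, h2, h1]
  refine ⟨h1, h2, h3, h4, ?_, ?_, ?_, ?_⟩
  · intro i he
    apply hτ (κ i)
    rw [h3, h2, he]
  · intro i
    rw [h3, h1]
  · intro i
    rw [h4, h2]
  · intro i hk he
    apply hτ i
    rw [h3, hk, he]

end Pool.Agent.DQO
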