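import Mathlib

namespace Pool.Agent.DQO

private lemma InvA_choose {I : Type} (σ : Equiv.Perm I) (x : I) (i j : ℤ)
    (h : (σ ^ j) x = (σ ^ i) x) : (σ ^ (-j)) x = (σ ^ (-i)) x := by
  have h1 : (σ ^ (-i - j)) ((σ ^ j) x) = (σ ^ (-i - j)) ((σ ^ i) x) := by rw [h]
  rw [← Equiv.Perm.mul_apply, ← Equiv.Perm.mul_apply, ← zpow_add, ← zpow_add] at h1
  have e1 : -i - j + j = -i := by ring
  have e2 : -i - j + i = -j := by ring
  rw [e1, e2] at h1
  exact h1.symm

open Classical in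
private noncomputable def InvA_f {I : Type} (σ : Equiv.Perm I) (x : I) (z : I) : I :=
  if h : ∃ i : ℤ, (σ ^ i) x = z then (σ ^ (-(h.choose))) x else z

private lemma InvA_on {I : Type} (σ : Equiv.Perm I) (x : I) (i : ℤ) :
    InvA_f σ x ((σ ^ i) x) = (σ ^ (-i)) x := by
  have h : ∃ j : ℤ, (σ ^ j) x = (σ ^ i) x := ⟨i, rfl⟩
  unfold InvA_f
  rw [dif_pos h]
  exact InvA_choose σ x i _ h.choose_spec

private lemma InvA_off {I : Type} (σ : Equiv.Perm I) (x z : I) (h : ¬ ∃ i : ℤ, (σ ^ i) x = z) :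
    InvA_f σ x z = z := by
  unfold InvA_f
  rw [dif_neg h]

private lemma InvA_inv {I : Type} (σ : Equiv.Perm I) (x : I) : Function.Involutive (InvA_f σ x) := by
  intro z
  by_cases h : ∃ i : ℤ, (σ ^ i) x = z
  · obtain ⟨i, rfl⟩ := h
    rw [InvA_on, InvA_on, neg_neg]
  · rw [InvA_off σ x z h, InvA_off σ x z h]

private lemma InvA_cyc {I : Type} [Fintype I] [DecidableEq I] (σ : Equiv.Perm I) (hσ : σ.IsCycle) :
    ∃ ι κ : Equiv.Perm I, ι * ι = 1 ∧ κ * κ = 1 ∧ σ = ι * κ ∧ ι.support ⊆ σ.support ∧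
      κ.support ⊆ σ.support := by
  obtain ⟨x, hx, hc⟩ := hσ
  set ι : Equiv.Perm I := (InvA_inv σ x).toPerm with hι
  have hap : ∀ z, ι z = InvA_f σ x z := fun z => rfl
  have hfix : ∀ z, σ z = z → ι z = z := by
    intro z hz
    rw [hap]
    refine InvA_off σ x z ?_
    rintro ⟨i, rfl⟩
    have h1 : (σ ^ i) x ∈ σ.support ↔ x ∈ σ.support := Equiv.Perm.zpow_apply_mem_support
    have h2 : (σ ^ i) x ∈ σ.support := h1.2 (Equiv.Perm.mem_support.2 hx)
    exact (Equiv.Perm.mem_support.1 h2) hz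
  have h1 : ι * ι = 1 := by
    ext z
    exact InvA_inv σ x z
  refine ⟨ι, ι * σ, h1, ?_, ?_, ?_, ?_⟩
  · ext z
    rw [Equiv.Perm.mul_apply, Equiv.Perm.mul_apply, Equiv.Perm.mul_apply, Equiv.Perm.one_apply]
    by_cases h : ∃ i : ℤ, (σ ^ i) x = z
    · obtain ⟨i, rfl⟩ := h
      have e1 : σ ((σ ^ i) x) = (σ ^ (1 + i)) x := by
        rw [zpow_add, zpow_one, Equiv.Perm.mul_apply]
      have e2 : σ ((σ ^ (-(1 + i))) x) = (σ ^ (-i)) x := by
        have : -i = 1 + -(1 + i) := by ring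
        rw [this, zpow_add, zpow_one, Equiv.Perm.mul_apply]
      rw [e1, hap ((σ ^ (1 + i)) x), InvA_on, e2, hap, InvA_on, neg_neg]
    · have hz : σ z = z := by
        by_contra hne
        obtain ⟨i, hi⟩ := hc hne
        exact h ⟨i, hi⟩
      rw [hz, hfix z hz, hz, hfix z hz]
  · rw [← mul_assoc, h1, one_mul]
  · intro z hz
    rw [Equiv.Perm.mem_support] at hz ⊢
    exact fun h => hz (hfix z h)
  · intro z hz
    rw [Equiv.Perm.mem_support] at hz ⊢
    intro h
    apply hz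
    rw [Equiv.Perm.mul_apply, h, hfix z h]

private lemma InvA_all {I : Type} [Fintype I] [DecidableEq I] (τ : Equiv.Perm I) :
    ∃ ι κ : Equiv.Perm I, ι * ι = 1 ∧ κ * κ = 1 ∧ τ = ι * κ ∧ ι.support ⊆ τ.support ∧
      κ.support ⊆ τ.support := by
  induction τ using Equiv.Perm.cycle_induction_on with
  | base_one => exact ⟨1, 1, by simp, by simp, by simp, by simp, by simp⟩
  | base_cycles σ hσ => exact InvA_cyc σ hσ
  | induction_disjoint σ τ hd hσ h1 h2 =>
    obtain ⟨a, b, ha, hb, hab, sa, sb⟩ := h1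
    obtain ⟨c, d, hc, hd', hcd, sc, sd⟩ := h2
    have hdis : Disjoint σ.support τ.support := Equiv.Perm.disjoint_iff_disjoint_support.1 hd
    have comm : ∀ u v : Equiv.Perm I, u.support ⊆ σ.support → v.support ⊆ τ.support →
        u * v = v * u := by
      intro u v hu hv
      have : Equiv.Perm.Disjoint u v :=
        Equiv.Perm.disjoint_iff_disjoint_support.2 (Finset.disjoint_of_subset_left hu
          (Finset.disjoint_of_subset_right hv hdis))
      exact this.commute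
    refine ⟨a * c, b * d, ?_, ?_, ?_, ?_, ?_⟩
    · rw [mul_assoc, ← mul_assoc c a c, ← comm a c sa sc, mul_assoc, hc, mul_one, ha]
    · rw [mul_assoc, ← mul_assoc d b d, ← comm b d sb sd, mul_assoc, hd', mul_one, hb]
    · rw [hab, hcd, mul_assoc, mul_assoc, ← mul_assoc b c d, ← mul_assoc c b d, comm b c sb sc]
    · rw [hd.support_mul]
      exact (Equiv.Perm.support_mul_le a c).trans (sup_le (sa.trans Finset.subset_union_left)
        (sc.trans Finset.subset_union_right))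
    · rw [hd.support_mul]
      exact (Equiv.Perm.support_mul_le b d).trans (sup_le (sb.trans Finset.subset_union_left)
        (sd.trans Finset.subset_union_right))

theorem perm_eq_mul_inv {I : Type} [Fintype I] [DecidableEq I] (τ : Equiv.Perm I) :
    ∃ ι κ : Equiv.Perm I, ι * ι = 1 ∧ κ * κ = 1 ∧ τ = ι * κ := by
  obtain ⟨ι, κ, h1, h2, h3, -, -⟩ := InvA_all τ
  exact ⟨ι, κ, h1, h2, h3⟩

end Pool.Agent.DQO
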