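import Pool.Agent.DQO.App4
import Pool.Agent.Helper33.DefNum.Main

/-!
# DQO-Main: the theorem

`d(K_n x K_n, k) ≥ n^2 / 10^86` for all `n ≥ 2`, `n ≤ k ≤ 2 n`.  Let `S`, `F` be such that `S` has
`d` elements and forces `F` (`exists_forces`).
* `n < 10^43`: `S` is not empty (swap two colours of `F`).
* `n ≥ 10^43` and `n ≤ (k - n) * 10^85`: `general_lower`.
* otherwise, if `d * 10^86 < n^2`, then `app1` (with `h = g = n / 10^42`) and `app4` give a second
  proper array which agrees with `F` on `S`.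
-/

namespace Pool.Agent.DQO

open Finset Pool.Agent.Helper33.DefNum

private theorem one_le_card {n k : ℕ} (hn : 2 ≤ n) (S : Finset (Fin n × Fin n))
    (F : Fin n → Fin n → Fin k) (h : Forces S F) : 1 ≤ S.card := by
  by_contra hc
  have hS : S = ∅ := by
    rw [← Finset.card_eq_zero]
    omega
  subst hS
  obtain ⟨hP, hu⟩ := h
  set i0 : Fin n := ⟨0, by omega⟩
  set i1 : Fin n := ⟨1, by omega⟩
  have hne : i0 ≠ i1 := by
    intro hh
    have := congrArg Fin.val hh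
    simp [i0, i1] at this
  have hcol : F i0 i0 ≠ F i0 i1 := fun hh => hne (hP.1 i0 hh)
  have key := hu (fun i j => Equiv.swap (F i0 i0) (F i0 i1) (F i j)) (by
    constructor
    · intro i j j' hj
      exact hP.1 i ((Equiv.swap (F i0 i0) (F i0 i1)).injective hj)
    · intro j i i' hi
      exact hP.2 j ((Equiv.swap (F i0 i0) (F i0 i1)).injective hi)) (by
    intro x hx
    simp at hx)
  have h2 := congrFun (congrFun key i0) i0
  simp only [Equiv.swap_apply_left] at h2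
  exact hcol h2.symm

private theorem exists_emb {N t : ℕ} (A : Finset (Fin N)) (hA : A.card = t) :
    ∃ e : Fin t → Fin N, Function.Injective e ∧ ∀ i, e i ∈ A :=
  ⟨A.orderEmbOfFin hA, (A.orderEmbOfFin hA).injective, fun i => A.orderEmbOfFin_mem hA i⟩

private theorem numbers {n e d : ℕ} (hn : 10 ^ 43 ≤ n) (he : e * 10 ^ 85 < n)
    (hd : 10 ^ 86 * d < n ^ 2) :
    d ≤ (n / 10 ^ 42) * (n / 10 ^ 42) ∧ e * n ≤ (n / 10 ^ 42) * (n / 10 ^ 42) ∧
      10 ≤ n / 10 ^ 42 := by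
  obtain ⟨g, hg⟩ : ∃ g, g = n / 10 ^ 42 := ⟨_, rfl⟩
  rw [← hg]
  have h10 : 10 ≤ g := by
    rw [hg, Nat.le_div_iff_mul_le (by norm_num)]
    calc 10 * 10 ^ 42 = 10 ^ 43 := by norm_num
      _ ≤ n := hn
  have hlt : n < (g + 1) * 10 ^ 42 := by
    rw [hg]
    have := Nat.lt_div_mul_add (a := n) (b := 10 ^ 42) (by norm_num)
    calc n < n / 10 ^ 42 * 10 ^ 42 + 10 ^ 42 := this
      _ = _ := by ring
  -- `n < 1.1 * g * 10 ^ 42`
  have h11 : 10 * n ≤ 11 * (g * 10 ^ 42) := by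
    nlinarith
  have hsq : 100 * n ^ 2 ≤ 121 * (g * g * 10 ^ 84) := by
    have := Nat.mul_le_mul h11 h11
    calc 100 * n ^ 2 = 10 * n * (10 * n) := by ring
      _ ≤ _ := this
      _ = _ := by ring
  refine ⟨?_, ?_, h10⟩
  · by_contra hc
    push Not at hc
    have h3 : 10 ^ 86 * (g * g) ≤ 10 ^ 86 * d := Nat.mul_le_mul_left _ hc.le
    have h4 : 10 ^ 86 * (g * g) < n ^ 2 := lt_of_le_of_lt h3 hd
    have h5 : 100 * (10 ^ 86 * (g * g)) < 121 * (g * g * 10 ^ 84) := by omega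
    have h6 : 100 * (10 ^ 86 * (g * g)) = 10000 * (g * g * 10 ^ 84) := by ring
    rw [h6] at h5
    omega
  · by_contra hc
    push Not at hc
    have h3 : e * n * 10 ^ 85 ≤ n ^ 2 := by
      calc e * n * 10 ^ 85 = (e * 10 ^ 85) * n := by ring
        _ ≤ n * n := Nat.mul_le_mul_right _ he.le
        _ = n ^ 2 := by ring
    have h4 : g * g * 10 ^ 85 < n ^ 2 := lt_of_lt_of_le
      (Nat.mul_lt_mul_of_pos_right hc (by norm_num)) h3
    have h5 : 100 * (g * g * 10 ^ 85) < 121 * (g * g * 10 ^ 84) := by omega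
    have h6 : 100 * (g * g * 10 ^ 85) = 1000 * (g * g * 10 ^ 84) := by ring
    rw [h6] at h5
    omega

theorem quad_order {n k : ℕ} (hn : 2 ≤ n) (h1 : n ≤ k) (h2 : k ≤ 2 * n) :
    n ^ 2 ≤ 10 ^ 86 * definingNumber (grid n) k := by
  obtain ⟨S, F, hF, hS⟩ := exists_forces h1
  rw [← hS]
  by_cases hbig : 10 ^ 43 ≤ n
  swap
  · have h3 := one_le_card hn S F hF
    have h4 : n ≤ 10 ^ 43 := by omega
    calc n ^ 2 ≤ (10 ^ 43) ^ 2 := Nat.pow_le_pow_left h4 2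
      _ = 10 ^ 86 * 1 := by norm_num
      _ ≤ 10 ^ 86 * S.card := Nat.mul_le_mul_left _ h3
  have hgl := general_lower h1 h2
  rw [← hS] at hgl
  by_cases hk : n ≤ (k - n) * 10 ^ 85
  · calc n ^ 2 = n * n := by ring
      _ ≤ n * ((k - n) * 10 ^ 85) := Nat.mul_le_mul_left _ hk
      _ = 10 ^ 85 * (n * (k - n)) := by ring
      _ ≤ 10 ^ 85 * S.card := Nat.mul_le_mul_left _ hgl
      _ ≤ 10 ^ 86 * S.card := Nat.mul_le_mul_right _ (by norm_num)
  push Not at hk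
  by_contra hd
  push Not at hd
  obtain ⟨ha, hb, h10⟩ := numbers hbig hk hd
  obtain ⟨g, hg⟩ : ∃ g, g = n / 10 ^ 42 := ⟨_, rfl⟩
  rw [← hg] at ha hb h10
  have hgn : g * 10 ^ 42 ≤ n := by
    rw [hg]
    exact Nat.div_mul_le_self n _
  obtain ⟨m, hm⟩ : ∃ m, m = (n - 2 * g) / 2 := ⟨_, rfl⟩
  have hm1 : 2 * m + 2 * g ≤ n := by omega
  have hm2 : n ≤ 2 * m + 2 * g + 1 := by omega
  obtain ⟨Ru, Cu, Ku, c1, c2, c3, d1, d2, d3, d4, d5⟩ := app1 h1 F hF.1 S ha hb hm1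
  obtain ⟨eR, iR, mR⟩ := exists_emb Ru c1
  obtain ⟨eC, iC, mC⟩ := exists_emb Cu c2
  obtain ⟨eK, iK, mK⟩ := exists_emb Ku c3
  obtain ⟨G, hG, hGS, hGF⟩ := app4 h1 F hF.1 S eR eC eK iR iC iK
    (fun i => d1 _ (mR i)) (fun j => d2 _ (mC j)) (fun x => d3 _ (mK x))
    (fun x => d4 _ (mK x)) (fun x => d5 _ (mK x)) (by omega)
  exact hGF (hF.2 G hG (fun x hx => hGS x hx))

end Pool.Agent.DQO
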