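import Pool.Agent.DQO.Stage

/-!
# DQO-P1: token phase the symbols y_i

The symbols `y i` are chosen by the phase lemma `phase'` with the cell functions `cf_r_sym` (partner row `r i`) and `cf_c_sym` (partner column
`c i`); the multiplicity of a symbol is the number of cells of the first family on its line.
-/

namespace Pool.Agent.DQO

open Finset

variable {V : Type} [Fintype V] [DecidableEq V] {m : ℕ} {I : Type} [Fintype I] [DecidableEq I]

omit [Fintype I] in
private theorem P1_nb {ι κ τ : Equiv.Perm I} (hι : ι * ι = 1) (hκ : κ * κ = 1) (i j : I)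
    (h : i ∈ ({ι j, κ j, τ j, τ.symm j, κ (ι (κ j))} : Finset I)) :
    j ∈ ({ι i, κ i, τ i, τ.symm i, κ (ι (κ i))} : Finset I) := by
  have e1 : ∀ x, ι (ι x) = x := fun x => by rw [← Equiv.Perm.mul_apply, hι, Equiv.Perm.one_apply]
  have e2 : ∀ x, κ (κ x) = x := fun x => by rw [← Equiv.Perm.mul_apply, hκ, Equiv.Perm.one_apply]
  simp only [mem_insert, mem_singleton] at h ⊢
  rcases h with h | h | h | h | h
  · left; rw [h, e1]
  · right; left; rw [h, e2]
  · right; right; right; left; rw [h, Equiv.symm_apply_apply]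
  · right; right; left; rw [h, Equiv.apply_symm_apply]
  · right; right; right; right; rw [h, e2, e1, e2]

theorem P1 (q : Sq V m) {r c s : I → V} {τ ι κ : Equiv.Perm I} {a : ℕ}
    (h : Ctx m r c s τ ι κ a) (X0 : Finset (V × V)) (hX : X0.card ≤ 2 * (m * a))
    (hL : ∀ l, load q X0 l ≤ a) :
    ∃ (y : I → V) (X1 : Finset (V × V)), (∀ i, y i ≠ s i) ∧ (∀ i, y i ≠ s (τ i)) ∧
      (∀ i, ∀ j ∈ ({ι i, κ i, τ i, τ.symm i, κ (ι (κ i))} : Finset I), j ≠ i → y j ≠ y i) ∧
      (∀ v, mult y v ≤ 6000000 * a) ∧
      Ext q X0 X1 (Sum.elim (fun i => (r i, q.col (r i) (y i)))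
        (fun i => (q.row (c i) (y i), c i))) (6000000 * a) := by
  have ha := h.ha
  have hm := h.hm
  have hI := h.hI
  have hA : m ≤ (univ : Finset V).card := by
    rw [← q.cardR true]
    exact card_le_card (filter_subset _ _)
  have hG1 := guard_le r (0 : Fin 3) a h.hr
  have hG2 := guard_le c (1 : Fin 3) a h.hc
  obtain ⟨y, X1, -, hB, hnb, hE⟩ := phase' q (J := I) (E := I ⊕ I) (Sum.elim id id) (fun _ => univ)
    (fun i => {s i, s (τ i)}) (fun i => {ι i, κ i, τ i, τ.symm i, κ (ι (κ i))})
    (Sum.elim (fun i v => (r i, q.col (r i) v)) (fun i v => (q.row (c i) v, c i)))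
    (Sum.elim (fun i => (0, r i)) (fun i => (1, c i))) X0 2 5 a (2 * a) (100000 * a) (m / 100) (6000000 * a)
    (fun _ => hA)
    (by
      rintro (i | i)
      · exact cf_r_sym q _ (r i)
      · exact cf_c_sym q _ (c i))
    (by
      rintro (i | i) (j | j) h1 h2
      · have h3 : i = j := h1
        rw [h3]
      · exact absurd (congrArg Prod.fst h2) (by simp)
      · exact absurd (congrArg Prod.fst h2) (by simp)
      · have h3 : i = j := h1
        rw [h3])
    (by
      intro j
      rw [card_filter_sum]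
      simp only [Sum.elim_inl, Sum.elim_inr, id]
      rw [filter_eq' univ j, if_pos (mem_univ j), card_singleton])
    (fun i => (card_le_two).trans (by norm_num))
    (fun i => card_le_five)
    (fun i j => P1_nb h.hι h.hκ i j)
    hL
    (by
      intro l
      rw [card_filter_sum]
      simp only [Sum.elim_inl, Sum.elim_inr]
      have h1 := hG1 l
      have h2 := hG2 l
      omega)
    (by
      apply num_S ha
      rw [Fintype.card_sum]
      omega)
    (by omega)
    (by omega)
  have hfun : (fun e : I ⊕ I => (Sum.elim (fun i v => (r i, q.col (r i) v)) (fun i v => (q.row (c i) v, c i)) :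
      I ⊕ I → V → V × V) e (y ((Sum.elim id id : I ⊕ I → I) e))) =
      Sum.elim (fun i => (r i, q.col (r i) (y i))) (fun i => (q.row (c i) (y i), c i)) := by
    funext e
    cases e <;> rfl
  rw [hfun] at hE
  refine ⟨y, X1, ?_, ?_, hnb, ?_, hE⟩
  · intro i hi
    exact hB i (by rw [hi]; exact mem_insert_self _ _)
  · intro i hi
    exact hB i (by rw [hi]; exact mem_insert_of_mem (mem_singleton_self _))
  · intro v
    have h1 := hE.cnt I Sum.inl Sum.inl_injective (2, v)
    rw [cnt_eq_mult] at h1
    have h2 : (fun j : I => pt q ((Sum.elim (fun i => (r i, q.col (r i) (y i)))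
        (fun i => (q.row (c i) (y i), c i)) : I ⊕ I → V × V) (Sum.inl j)) 2) = y := by
      funext j
      simp [pt, q.nu_col]
    rw [h2] at h1
    exact h1

end Pool.Agent.DQO
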