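import Pool.Agent.DQO.Stage

/-!
# DQO-P2: token phase the columns x_i

The phase lemma `phase'` is applied with the owners `I` and four families of new cells, whose guards have the sorts row, symbol,
symbol, symbol.
-/

namespace Pool.Agent.DQO

open Finset

variable {V : Type} [Fintype V] [DecidableEq V] {m : ℕ} {I : Type} [Fintype I] [DecidableEq I]

private theorem P2_one {J : Type} [Fintype J] [DecidableEq J] (j : J) :
    (univ.filter fun i : J => i = j).card = 1 := by
  rw [Finset.filter_eq' univ j]
  simp

private theorem P2_le {a b : ℕ} {J : Type} [Fintype J] (f : J → V) (i : Fin 3)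
    (h : ∀ v, mult f v ≤ a) (hab : a ≤ b) (l : Fin 3 × V) :
    (univ.filter fun j => ((i, f j) : Fin 3 × V) = l).card ≤ b :=
  (guard_le f i a h l).trans hab

theorem P2 (q : Sq V m) {r c s : I → V} {τ ι κ : Equiv.Perm I} {a : ℕ}
    (h : Ctx m r c s τ ι κ a) (y : I → V) (hys : ∀ i, y i ≠ s i)
    (hys' : ∀ i, s i ≠ y (τ.symm i)) (hyy : ∀ i, y i ≠ y (τ.symm i))
    (hmy : ∀ v, mult y v ≤ 6000000 * a) (X1 : Finset (V × V))
    (hX : X1.card ≤ 2 * (m * a) + 2 * Fintype.card I) (hL : ∀ l, load q X1 l ≤ 6000000 * a) :
    ∃ (x : I → V) (X2 : Finset (V × V)), (∀ i, x i ≠ c (τ.symm i)) ∧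
      (∀ v, mult x v ≤ 36000000 * a) ∧
      Ext q X1 X2 (Sum.elim
        (Sum.elim (fun i => (r i, x i)) (fun i => (q.row (x i) (y i), x i)))
        (Sum.elim (fun i => (q.row (x i) (s i), x i))
          (fun i => (q.row (x i) (y (τ.symm i)), x i)))) (36000000 * a) := by
  have ha := h.ha
  have hm0 := h.hm
  have hI := h.hI
  have hA : m ≤ (univ : Finset V).card := by
    rw [← q.cardR true]
    exact Finset.card_le_card (Finset.filter_subset _ _)
  have key := phase' q (J := I) (E := (I ⊕ I) ⊕ (I ⊕ I))
    (Sum.elim (Sum.elim (fun i => i) (fun i => i)) (Sum.elim (fun i => i) (fun i => i)))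
    (fun _ => univ) (fun i => {c (τ.symm i)}) (fun _ => ∅)
    (Sum.elim (Sum.elim (fun i v => (r i, v)) (fun i v => (q.row v (y i), v)))
      (Sum.elim (fun i v => (q.row v (s i), v)) (fun i v => (q.row v (y (τ.symm i)), v))))
    (Sum.elim (Sum.elim (fun i => (0, r i)) (fun i => (2, y i)))
      (Sum.elim (fun i => (2, s i)) (fun i => (2, y (τ.symm i)))))
    X1 4 1 (6000000 * a) (24000000 * a) (100000 * a) (m / 100) (36000000 * a)
    (fun _ => hA) ?_ ?_ ?_ ?_ ?_ ?_ hL ?_ ?_ ?_ ?_
  · obtain ⟨x, X2, _, hB, _, hE⟩ := key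
    have e : (fun e : (I ⊕ I) ⊕ (I ⊕ I) =>
        (Sum.elim (Sum.elim (fun i v => (r i, v)) (fun i v => (q.row v (y i), v)))
          (Sum.elim (fun i v => (q.row v (s i), v)) (fun i v => (q.row v (y (τ.symm i)), v))) :
          (I ⊕ I) ⊕ (I ⊕ I) → V → V × V) e
        (x ((Sum.elim (Sum.elim (fun i => i) (fun i => i)) (Sum.elim (fun i => i) (fun i => i)) :
          (I ⊕ I) ⊕ (I ⊕ I) → I) e))) = (Sum.elim
        (Sum.elim (fun i => (r i, x i)) (fun i => (q.row (x i) (y i), x i)))
        (Sum.elim (fun i => (q.row (x i) (s i), x i))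
          (fun i => (q.row (x i) (y (τ.symm i)), x i)))) := by
      funext e
      rcases e with (i | i) | (i | i) <;> rfl
    rw [e] at hE
    refine ⟨x, X2, ?_, ?_, hE⟩
    · intro i hi
      exact hB i (Finset.mem_singleton.2 hi)
    · intro v
      have h1 := hE.cnt I (fun i => Sum.inl (Sum.inl i)) (fun i j hij => by
        exact Sum.inl_injective (Sum.inl_injective hij)) (1, v)
      have h2 : cnt q (fun i : I => (Sum.elim
          (Sum.elim (fun i => (r i, x i)) (fun i => (q.row (x i) (y i), x i)))
          (Sum.elim (fun i => (q.row (x i) (s i), x i))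
          (fun i => (q.row (x i) (y (τ.symm i)), x i))) : (I ⊕ I) ⊕ (I ⊕ I) → V × V)
          (Sum.inl (Sum.inl i))) (1, v) = mult x v := by
        unfold cnt mult pt
        simp
      rw [h2] at h1
      exact h1
  · rintro ((i | i) | (i | i))
    · exact cf_r_col q _ (r i)
    · exact cf_s_col q _ (y i)
    · exact cf_s_col q _ (s i)
    · exact cf_s_col q _ (y (τ.symm i))
  · have h02 : ((0 : Fin 3)) ≠ 2 := by decide
    rintro ((i | i) | (i | i)) ((j | j) | (j | j)) hij hgg
    all_goals
      change i = j at hij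
      subst hij
      first
        | rfl
        | (exfalso
           simp only [Sum.elim_inl, Sum.elim_inr, Prod.mk.injEq] at hgg
           first
             | exact h02 hgg.1
             | exact h02 hgg.1.symm
             | exact hys i hgg.2
             | exact hys i hgg.2.symm
             | exact hys' i hgg.2
             | exact hys' i hgg.2.symm
             | exact hyy i hgg.2
             | exact hyy i hgg.2.symm)
  · intro j
    rw [card_filter_sum, card_filter_sum, card_filter_sum]
    simp only [Sum.elim_inl, Sum.elim_inr]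
    rw [P2_one]
  · intro j
    simp
  · intro j
    simp
  · intro i j hij
    simp at hij
  · intro l
    rw [card_filter_sum, card_filter_sum, card_filter_sum]
    simp only [Sum.elim_inl, Sum.elim_inr]
    have g1 := P2_le r 0 h.hr (show a ≤ 6000000 * a by omega) l
    have g2 := guard_le y 2 (6000000 * a) hmy l
    have g3 := P2_le s 2 h.hs (show a ≤ 6000000 * a by omega) l
    have g4 := guard_le (fun i => y (τ.symm i)) 2 (6000000 * a)
      (fun v => by rw [mult_perm y τ.symm v]; exact hmy v) l
    omega
  · refine num_S ha ?_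
    simp only [Fintype.card_sum]
    omega
  · omega
  · omega

end Pool.Agent.DQO
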