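import Pool.Agent.DQO.Stage

/-!
# DQO-P3: token phase the rows rho_i

The phase lemma `phase'` is applied with the owners `I` and four families of new cells, whose guards have the sorts column, symbol,
column, symbol.
-/

namespace Pool.Agent.DQO

open Finset

variable {V : Type} [Fintype V] [DecidableEq V] {m : ℕ} {I : Type} [Fintype I] [DecidableEq I]

private theorem P3_one {J : Type} [Fintype J] [DecidableEq J] (j : J) :
    (univ.filter fun i : J => i = j).card = 1 := by
  rw [Finset.filter_eq' univ j]
  simp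

theorem P3 (q : Sq V m) {r c s : I → V} {τ ι κ : Equiv.Perm I} {a : ℕ}
    (h : Ctx m r c s τ ι κ a) (x y : I → V) (hcx : ∀ i, c i ≠ x (τ i))
    (hys : ∀ i, y i ≠ s (τ i)) (hmy : ∀ v, mult y v ≤ 36000000 * a)
    (hmx : ∀ v, mult x v ≤ 36000000 * a) (X2 : Finset (V × V))
    (hX : X2.card ≤ 2 * (m * a) + 6 * Fintype.card I) (hL : ∀ l, load q X2 l ≤ 36000000 * a) :
    ∃ (ρ : I → V) (X3 : Finset (V × V)),
      Ext q X2 X3 (Sum.elim
        (Sum.elim (fun i => (ρ i, c i)) (fun i => (ρ i, q.col (ρ i) (y i))))
        (Sum.elim (fun i => (ρ i, x (τ i)))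
          (fun i => (ρ i, q.col (ρ i) (s (τ i)))))) (216000000 * a) := by
  have ha := h.ha
  have hm0 := h.hm
  have hI := h.hI
  have hA : m ≤ (univ : Finset V).card := by
    rw [← q.cardR true]
    exact Finset.card_le_card (Finset.filter_subset _ _)
  have key := phase' q (J := I) (E := (I ⊕ I) ⊕ (I ⊕ I))
    (Sum.elim (Sum.elim (fun i => i) (fun i => i)) (Sum.elim (fun i => i) (fun i => i)))
    (fun _ => univ) (fun _ => ∅) (fun _ => ∅)
    (Sum.elim (Sum.elim (fun i v => (v, c i)) (fun i v => (v, q.col v (y i))))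
      (Sum.elim (fun i v => (v, x (τ i))) (fun i v => (v, q.col v (s (τ i))))))
    (Sum.elim (Sum.elim (fun i => (1, c i)) (fun i => (2, y i)))
      (Sum.elim (fun i => (1, x (τ i))) (fun i => (2, s (τ i)))))
    X2 4 0 (36000000 * a) (144000000 * a) (100000 * a) (m / 100) (216000000 * a)
    (fun _ => hA) ?_ ?_ ?_ ?_ ?_ ?_ hL ?_ ?_ ?_ ?_
  · obtain ⟨ρ, X3, _, _, _, hE⟩ := key
    have e : (fun e : (I ⊕ I) ⊕ (I ⊕ I) =>
        (Sum.elim (Sum.elim (fun i v => (v, c i)) (fun i v => (v, q.col v (y i))))
          (Sum.elim (fun i v => (v, x (τ i))) (fun i v => (v, q.col v (s (τ i))))) :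
          (I ⊕ I) ⊕ (I ⊕ I) → V → V × V) e
        (ρ ((Sum.elim (Sum.elim (fun i => i) (fun i => i)) (Sum.elim (fun i => i) (fun i => i)) :
          (I ⊕ I) ⊕ (I ⊕ I) → I) e))) = (Sum.elim
        (Sum.elim (fun i => (ρ i, c i)) (fun i => (ρ i, q.col (ρ i) (y i))))
        (Sum.elim (fun i => (ρ i, x (τ i)))
          (fun i => (ρ i, q.col (ρ i) (s (τ i)))))) := by
      funext e
      rcases e with (i | i) | (i | i) <;> rfl
    rw [e] at hE
    exact ⟨ρ, X3, hE⟩
  · rintro ((i | i) | (i | i))
    · exact cf_c_row q _ (c i)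
    · exact cf_s_row q _ (y i)
    · exact cf_c_row q _ (x (τ i))
    · exact cf_s_row q _ (s (τ i))
  · have h12 : ((1 : Fin 3)) ≠ 2 := by decide
    rintro ((i | i) | (i | i)) ((j | j) | (j | j)) hij hgg
    all_goals
      change i = j at hij
      subst hij
      first
        | rfl
        | (exfalso
           simp only [Sum.elim_inl, Sum.elim_inr, Prod.mk.injEq] at hgg
           first
             | exact h12 hgg.1
             | exact h12 hgg.1.symm
             | exact hcx i hgg.2
             | exact hcx i hgg.2.symm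
             | exact hys i hgg.2
             | exact hys i hgg.2.symm)
  · intro j
    rw [card_filter_sum, card_filter_sum, card_filter_sum]
    simp only [Sum.elim_inl, Sum.elim_inr]
    rw [P3_one]
  · intro j
    simp
  · intro j
    simp
  · intro i j hij
    simp at hij
  · intro l
    rw [card_filter_sum, card_filter_sum, card_filter_sum]
    simp only [Sum.elim_inl, Sum.elim_inr]
    have g1 := guard_le c 1 a h.hc l
    have g2 := guard_le y 2 (36000000 * a) hmy l
    have g3 := guard_le (fun i => x (τ i)) 1 (36000000 * a)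
      (fun v => by rw [mult_perm x τ v]; exact hmx v) l
    have g4 := guard_le (fun i => s (τ i)) 2 a
      (fun v => by rw [mult_perm s τ v]; exact h.hs v) l
    omega
  · refine num_S ha ?_
    simp only [Fintype.card_sum]
    omega
  · omega
  · omega

end Pool.Agent.DQO
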