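import Pool.Agent.DQO.Stage

/-!
# DQO-P4: token phase the columns x'_i, constant on the orbits of ι

`phase'` with the owners `rep i` (all `i`) and `rep (τ i)` (`κ i ≠ i`), `rep` the representative of an orbit of `ι`; `x' i = v (rep i)`.
-/

namespace Pool.Agent.DQO

open Finset

variable {V : Type} [Fintype V] [DecidableEq V] {m : ℕ} {I : Type} [Fintype I] [DecidableEq I]

private theorem P4_card1 (ι : Equiv.Perm I) (hii : ∀ i, ι (ι i) = i) (rep : I → I) (r2 : ∀ i, rep i = i ∨ rep i = ι i) (j : I) :
    (univ.filter fun i : I => rep i = j).card ≤ 2 := by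
  have h1 : (univ.filter fun i : I => rep i = j) ⊆ {j, ι j} := by
    intro i hi
    have hi' : rep i = j := (mem_filter.1 hi).2
    rw [mem_insert, mem_singleton]
    rcases r2 i with h | h
    · left
      rw [← hi', h]
    · right
      rw [← hi', h, hii]
  exact (card_le_card h1).trans card_le_two

private theorem P4_card2 (ι τ : Equiv.Perm I) (p : I → Prop) [DecidablePred p] (hii : ∀ i, ι (ι i) = i) (rep : I → I)
    (r2 : ∀ i, rep i = i ∨ rep i = ι i) (j : I) :
    (univ.filter fun i : {i // p i} => rep (τ i) = j).card ≤ 2 := by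
  have h1 : (univ.filter fun i : {i // p i} => rep (τ i) = j).card ≤ ({τ.symm j, τ.symm (ι j)} : Finset I).card := by
    refine card_le_card_of_injOn (fun i => (i : I)) ?_ ?_
    · intro i hi
      have hi' : rep (τ i) = j := (mem_filter.1 (mem_coe.1 hi)).2
      rw [mem_coe, mem_insert, mem_singleton]
      rcases r2 (τ i) with h | h
      · left
        rw [← hi', h, Equiv.symm_apply_apply]
      · right
        rw [← hi', h, hii, Equiv.symm_apply_apply]
    · intro i _ i' _ h
      exact Subtype.ext h
  exact h1.trans card_le_two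

theorem P4 (q : Sq V m) {r c s : I → V} {τ ι κ : Equiv.Perm I} {a : ℕ}
    (h : Ctx m r c s τ ι κ a) (x y : I → V)
    (hyy : ∀ i, ∀ j ∈ ({ι i, κ i, τ i, τ.symm i, κ (ι (κ i))} : Finset I), j ≠ i → y j ≠ y i)
    (hmy : ∀ v, mult y v ≤ 216000000 * a) (X3 : Finset (V × V))
    (hX : X3.card ≤ 2 * (m * a) + 10 * Fintype.card I)
    (hL : ∀ l, load q X3 l ≤ 216000000 * a) :
    ∃ (x' : I → V) (X4 : Finset (V × V)), (∀ i, x' (ι i) = x' i) ∧ (∀ i, x' i ≠ x i) ∧
      (∀ i, κ i ≠ i → x' (κ i) ≠ x' i) ∧ (∀ v, mult x' v ≤ 1296000000 * a) ∧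
      Ext q X3 X4 (Sum.elim (fun i => (q.row (x' i) (y i), x' i))
        (fun i : {i // κ i ≠ i} => (q.row (x' (τ i)) (y i), x' (τ i)))) (1296000000 * a) := by
  obtain ⟨hii, hkk, ht, hts, hne, hit, -, -⟩ := inv_facts τ ι κ h.hι h.hκ h.hτ h.hfix
  obtain ⟨rep, r1, r2, r3, r4⟩ := exists_rep ι h.hι
  have ha := h.ha
  have hm := h.hm
  have hI := h.hI
  have hcE : Fintype.card (I ⊕ {i // κ i ≠ i}) ≤ 2 * Fintype.card I := by
    rw [Fintype.card_sum]
    have := Fintype.card_subtype_le (fun i => κ i ≠ i)
    omega
  obtain ⟨v, X', -, hB, hnb, hext⟩ := phase' (J := I) (E := I ⊕ {i // κ i ≠ i}) q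
    (Sum.elim rep (fun i => rep (τ i))) (fun _ => univ) (fun j => {x j, x (ι j)})
    (fun j => if rep j = j then {rep (κ j), rep (κ (ι j))} else ∅)
    (Sum.elim (fun i v => (q.row v (y i), v)) (fun i v => (q.row v (y i), v)))
    (Sum.elim (fun i => (2, y i)) (fun i => (2, y i))) X3 4 2 (216000000 * a) (2 * (216000000 * a)) (100000 * a)
    (m / 100) (1296000000 * a)
    (by
      intro j
      rw [← q.cardR true]
      exact card_le_card (filter_subset _ _))
    (by
      rintro (i | i)
      · exact cf_s_col q univ (y i)
      · exact cf_s_col q univ (y i))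
    (by
      rintro (i | i) (i' | i') ho hg
      · simp only [Sum.elim_inl, Prod.mk.injEq, true_and] at ho hg
        rcases r4 _ _ ho with h1 | h1
        · rw [h1]
        · by_cases h2 : i' = i
          · rw [h2]
          · exact absurd hg.symm (hyy i i' (by rw [h1]; simp) h2)
      · exfalso
        simp only [Sum.elim_inl, Sum.elim_inr, Prod.mk.injEq, true_and] at ho hg
        have hk := i'.2
        rcases r4 _ _ ho with h1 | h1
        · exact hyy i' (τ i') (by simp) (h.hfix _) (by rw [h1, hg])
        · have h2 : κ i' = i := by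
            rw [ht] at h1
            exact ι.injective h1
          exact hyy i' (κ i') (by simp) hk (by rw [h2, hg])
      · exfalso
        simp only [Sum.elim_inl, Sum.elim_inr, Prod.mk.injEq, true_and] at ho hg
        have hk := i.2
        rcases r4 _ _ ho.symm with h1 | h1
        · exact hyy i (τ i) (by simp) (h.hfix _) (by rw [h1, hg])
        · have h2 : κ i = i' := by
            rw [ht] at h1
            exact ι.injective h1
          exact hyy i (κ i) (by simp) hk (by rw [h2, hg])
      · simp only [Sum.elim_inr, Prod.mk.injEq, true_and] at ho hg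
        rcases r4 _ _ ho with h1 | h1
        · rw [Subtype.ext (τ.injective h1)]
        · have h2 : (i' : I) = κ (ι (κ i)) := by
            have h3 : (i' : I) = τ.symm (κ i) := by
              rw [← hit, ← h1, Equiv.symm_apply_apply]
            rw [h3, hts]
          by_cases h4 : (i' : I) = i
          · rw [Subtype.ext h4]
          · exact absurd hg.symm (hyy i i' (by rw [h2]; simp) h4))
    (by
      intro j
      rw [card_filter_sum]
      have h1 := P4_card1 ι hii rep r2 j
      have h2 := P4_card2 ι τ (fun i => κ i ≠ i) hii rep r2 j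
      simp only [Sum.elim_inl, Sum.elim_inr]
      exact (Nat.add_le_add h1 h2))
    (fun j => card_le_two)
    (by
      intro j
      by_cases h1 : rep j = j
      · rw [if_pos h1]
        exact card_le_two
      · rw [if_neg h1, card_empty]
        exact Nat.zero_le _)
    (by
      intro i j hij
      by_cases h1 : rep j = j
      · rw [if_pos h1, mem_insert, mem_singleton] at hij
        have h2 : rep i = i := by
          rcases hij with h2 | h2
          · rw [h2, r3]
          · rw [h2, r3]
        rw [if_pos h2, mem_insert, mem_singleton]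
        rcases hij with h3 | h3
        · rcases r2 (κ j) with h4 | h4
          · left
            rw [h3, h4, hkk, h1]
          · right
            rw [h3, h4, hii, hkk, h1]
        · rcases r2 (κ (ι j)) with h4 | h4
          · left
            rw [h3, h4, hkk, r1, h1]
          · right
            rw [h3, h4, hii, hkk, r1, h1]
      · rw [if_neg h1] at hij
        exact absurd hij (notMem_empty _))
    hL
    (by
      intro l
      rw [card_filter_sum]
      have h1 := guard_le y 2 (216000000 * a) hmy l
      have h2 := guard_le (fun i : {i // κ i ≠ i} => y i) 2 (216000000 * a)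
        (fun v => (mult_sub (fun i => κ i ≠ i) y v).trans (hmy v)) l
      simp only [Sum.elim_inl, Sum.elim_inr]
      omega)
    (num_S ha (by omega)) (by omega) (by omega)
  have hfun : (fun e : I ⊕ {i // κ i ≠ i} =>
      (Sum.elim (fun i v => (q.row v (y i), v)) (fun i v => (q.row v (y i), v)) : I ⊕ {i // κ i ≠ i} → V → V × V) e
        (v ((Sum.elim rep (fun i => rep (τ i)) : I ⊕ {i // κ i ≠ i} → I) e))) =
      Sum.elim (fun i => (q.row (v (rep i)) (y i), v (rep i)))
        (fun i : {i // κ i ≠ i} => (q.row (v (rep (τ i))) (y i), v (rep (τ i)))) := by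
    funext e
    rcases e with e | e <;> rfl
  rw [hfun] at hext
  refine ⟨fun i => v (rep i), X', fun i => congrArg v (r1 i), fun i hx => ?_, fun i hk hx => ?_, fun w => ?_, hext⟩
  · have hx' : v (rep i) = x i := hx
    refine hB (rep i) ?_
    rw [mem_insert, mem_singleton]
    rcases r2 i with h1 | h1
    · left
      rw [hx', h1]
    · right
      rw [hx', h1, hii]
  · refine hnb (rep i) (rep (κ i)) ?_ ?_ hx
    · rw [if_pos (r3 i), mem_insert, mem_singleton]
      rcases r2 i with h1 | h1
      · left
        rw [h1]
      · right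
        rw [h1, hii]
    · intro h1
      rcases r4 _ _ h1.symm with h2 | h2
      · exact hk h2
      · exact hne i h2.symm
  · have h1 := hext.cnt I Sum.inl Sum.inl_injective (1, w)
    rw [cnt_eq_mult] at h1
    exact h1

end Pool.Agent.DQO
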