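import Pool.Agent.DQO.Stage

/-!
# DQO-P5: token phase the symbols y'_i, constant on the orbits of κ

The phase lemma `phase'` for the cells `(row (x' i) v, x' i)`, `κ i ≠ i`, with the guards `(1, x' i)` and the owner `rep i`, the
representative of the orbit `{i, κ i}`.
-/

namespace Pool.Agent.DQO

open Finset

variable {V : Type} [Fintype V] [DecidableEq V] {m : ℕ} {I : Type} [Fintype I] [DecidableEq I]

theorem P5 (q : Sq V m) {r c s : I → V} {τ ι κ : Equiv.Perm I} {a : ℕ}
    (h : Ctx m r c s τ ι κ a) (x' y : I → V) (hxx : ∀ i, κ i ≠ i → x' (κ i) ≠ x' i)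
    (hmx : ∀ v, mult x' v ≤ 1296000000 * a) (X4 : Finset (V × V))
    (hX : X4.card ≤ 2 * (m * a) + 12 * Fintype.card I)
    (hL : ∀ l, load q X4 l ≤ 1296000000 * a) :
    ∃ (y' : I → V) (X5 : Finset (V × V)), (∀ i, y' (κ i) = y' i) ∧ (∀ i, y' i ≠ y i) ∧
      (∀ v, mult (fun i : {i // κ i ≠ i} => y' i) v ≤ 7776000000 * a) ∧
      Ext q X4 X5 (fun i : {i // κ i ≠ i} => (q.row (x' i) (y' i), x' i)) (7776000000 * a) := by
  obtain ⟨rep, hr1, hr2, -, hr4⟩ := exists_rep κ h.hκ
  have hκκ : ∀ i, κ (κ i) = i := fun i => by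
    have h1 := congrArg (fun e : Equiv.Perm I => e i) h.hκ
    simpa using h1
  have ha := h.ha
  have hm := h.hm
  have hI := h.hI
  have hcE : Fintype.card {i // κ i ≠ i} ≤ Fintype.card I := Fintype.card_subtype_le _
  obtain ⟨v, X5, -, h2, -, h3⟩ := phase' q (J := I) (E := {i // κ i ≠ i}) (fun e => rep e) (fun _ => univ)
    (fun j => {y j, y (κ j)}) (fun _ => ∅) (fun e v => (q.row (x' e) v, x' e)) (fun e => (1, x' e)) X4 2 2
    (1296000000 * a) (1296000000 * a) (100000 * a) (m / 100) (7776000000 * a)
    (fun _ => by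
      rw [← q.cardR true]
      exact Finset.card_le_card (Finset.subset_univ _))
    (fun e => cf_c_sym q univ (x' e))
    (fun e e' ho hg => by
      have h1 : x' e = x' e' := (Prod.mk.injEq _ _ _ _ ▸ hg).2
      rcases hr4 e e' ho with h2 | h2
      · exact Subtype.ext h2.symm
      · rw [h2] at h1
        exact absurd h1.symm (hxx e e.2))
    (fun j => by
      rcases (univ.filter fun e : {i // κ i ≠ i} => rep e = j).eq_empty_or_nonempty with h1 | ⟨e0, he0⟩
      · rw [h1, Finset.card_empty]
        omega
      · have hsub : (univ.filter fun e : {i // κ i ≠ i} => rep e = j).image (Subtype.val : {i // κ i ≠ i} → I) ⊆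
            {(e0 : I), κ e0} := by
          intro i hi
          obtain ⟨e, he, rfl⟩ := Finset.mem_image.1 hi
          have h4 := (Finset.mem_filter.1 he0).2
          have h5 := (Finset.mem_filter.1 he).2
          rw [Finset.mem_insert, Finset.mem_singleton]
          exact hr4 e0 e (h4.trans h5.symm)
        have h6 := Finset.card_le_card hsub
        rw [Finset.card_image_of_injective _ Subtype.val_injective] at h6
        exact h6.trans Finset.card_le_two)
    (fun j => Finset.card_le_two) (fun j => by simp) (fun i j hi => absurd hi (Finset.notMem_empty i)) hL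
    (fun l => guard_le (fun e : {i // κ i ≠ i} => x' e) 1 _ (fun v => (mult_sub _ x' v).trans (hmx v)) l)
    (num_S ha (by omega)) (by omega) (by omega)
  refine ⟨fun i => v (rep i), X5, fun i => congrArg v (hr1 i), fun i hi => ?_, fun w => ?_, h3⟩
  · apply h2 (rep i)
    rw [Finset.mem_insert, Finset.mem_singleton]
    have hi' : v (rep i) = y i := hi
    rw [hi']
    rcases hr2 i with h4 | h4
    · left
      rw [h4]
    · right
      rw [h4, hκκ]
  · have h4 := h3.cnt {i // κ i ≠ i} id Function.injective_id (2, w)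
    rw [cnt_eq_mult] at h4
    have h5 : ∀ e : {i // κ i ≠ i}, pt q (q.row (x' e) (v (rep e)), x' e) 2 = v (rep e) := fun e => by
      have h6 : pt q (q.row (x' e) (v (rep e)), x' e) 2 = q.nu (q.row (x' e) (v (rep e))) (x' e) := rfl
      rw [h6, q.nu_row]
    simpa only [id_eq, h5] using h4

end Pool.Agent.DQO
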