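import Pool.Agent.DQO.Stage

/-!
# DQO-P6: token phase the rows rho1_i

Context: `Ctx` (Stage).  An application of `phase'` (PhC) with `θ := 100000 * a`, `S := m / 100`,
`A := fun _ => univ`, no forbidden values, no neighbours.  Families: `(v, x i)` guard `(1, x i)`;
`(v, col v (y (τ.symm i)))` guard `(2, y (τ.symm i))`; `(v, x' i)` guard `(1, x' i)`;
`(v, col v (y i))` guard `(2, y i)`; `d = 4`, `L = 7776000000 * a`, `G = 4 * L`,
`L' = 46656000000 * a`.
-/

namespace Pool.Agent.DQO

open Finset

variable {V : Type} [Fintype V] [DecidableEq V] {m : ℕ} {I : Type} [Fintype I] [DecidableEq I]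

/-- The fibre of the identity has one element. -/
private theorem card_fib (j : I) : (univ.filter fun i : I => i = j).card = 1 := by
  rw [Finset.filter_eq' univ j, if_pos (mem_univ j), card_singleton]

private theorem ne12 : (1 : Fin 3) ≠ 2 := by decide

private theorem ne21 : (2 : Fin 3) ≠ 1 := by decide

theorem P6 (q : Sq V m) {r c s : I → V} {τ ι κ : Equiv.Perm I} {a : ℕ}
    (h : Ctx m r c s τ ι κ a) (x x' y : I → V) (hxx : ∀ i, x i ≠ x' i)
    (hyy : ∀ i, y (τ.symm i) ≠ y i) (hmy : ∀ v, mult y v ≤ 7776000000 * a)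
    (hmx : ∀ v, mult x v ≤ 7776000000 * a) (hmx' : ∀ v, mult x' v ≤ 7776000000 * a)
    (X5 : Finset (V × V)) (hX : X5.card ≤ 2 * (m * a) + 13 * Fintype.card I)
    (hL : ∀ l, load q X5 l ≤ 7776000000 * a) :
    ∃ (ρ1 : I → V) (X6 : Finset (V × V)),
      Ext q X5 X6 (Sum.elim
        (Sum.elim (fun i => (ρ1 i, x i)) (fun i => (ρ1 i, q.col (ρ1 i) (y (τ.symm i)))))
        (Sum.elim (fun i => (ρ1 i, x' i)) (fun i => (ρ1 i, q.col (ρ1 i) (y i)))))
        (46656000000 * a) := by
  have ha := h.ha
  have hm := h.hm
  have hI := h.hI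
  have hmy' : ∀ v, mult (fun i => y (τ.symm i)) v ≤ 7776000000 * a := by
    intro v
    rw [mult_perm y τ.symm v]
    exact hmy v
  have hmA : m ≤ (univ : Finset V).card := by
    rw [← q.cardR true]
    exact card_le_card (filter_subset _ _)
  obtain ⟨v, X', -, -, -, hE⟩ := phase' q (J := I) (E := (I ⊕ I) ⊕ (I ⊕ I))
    (Sum.elim (Sum.elim id id) (Sum.elim id id))
    (fun _ => univ) (fun _ => ∅) (fun _ => ∅)
    (Sum.elim
      (Sum.elim (fun i v => (v, x i)) (fun i v => (v, q.col v (y (τ.symm i)))))
      (Sum.elim (fun i v => (v, x' i)) (fun i v => (v, q.col v (y i)))))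
    (Sum.elim
      (Sum.elim (fun i => ((1, x i) : Fin 3 × V)) (fun i => ((2, y (τ.symm i)) : Fin 3 × V)))
      (Sum.elim (fun i => ((1, x' i) : Fin 3 × V)) (fun i => ((2, y i) : Fin 3 × V))))
    X5 4 0 (7776000000 * a) (4 * (7776000000 * a)) (100000 * a) (m / 100) (46656000000 * a)
    (fun _ => hmA)
    (by
      rintro ((i | i) | (i | i))
      · exact cf_c_row q univ (x i)
      · exact cf_s_row q univ (y (τ.symm i))
      · exact cf_c_row q univ (x' i)
      · exact cf_s_row q univ (y i))
    (by
      rintro ((i | i) | (i | i)) ((j | j) | (j | j)) ho hgg <;>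
        simp only [Sum.elim_inl, Sum.elim_inr, id_eq] at ho hgg <;> subst ho
      · rfl
      · exact absurd (congrArg Prod.fst hgg) ne12
      · exact absurd (congrArg Prod.snd hgg) (hxx i)
      · exact absurd (congrArg Prod.fst hgg) ne12
      · exact absurd (congrArg Prod.fst hgg) ne21
      · rfl
      · exact absurd (congrArg Prod.fst hgg) ne21
      · exact absurd (congrArg Prod.snd hgg) (hyy i)
      · exact absurd (congrArg Prod.snd hgg) (hxx i).symm
      · exact absurd (congrArg Prod.fst hgg) ne12
      · rfl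
      · exact absurd (congrArg Prod.fst hgg) ne12
      · exact absurd (congrArg Prod.fst hgg) ne21
      · exact absurd (congrArg Prod.snd hgg) (hyy i).symm
      · exact absurd (congrArg Prod.fst hgg) ne21
      · rfl)
    (by
      intro j
      rw [card_filter_sum, card_filter_sum, card_filter_sum]
      simp only [Sum.elim_inl, Sum.elim_inr, id_eq, card_fib]
      norm_num)
    (fun _ => by simp) (fun _ => by simp)
    (fun i j hij => by simp at hij)
    hL
    (by
      intro l
      rw [card_filter_sum, card_filter_sum, card_filter_sum]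
      simp only [Sum.elim_inl, Sum.elim_inr]
      have h1 := guard_le x 1 _ hmx l
      have h2 := guard_le (fun i => y (τ.symm i)) 2 _ hmy' l
      have h3 := guard_le x' 1 _ hmx' l
      have h4 := guard_le y 2 _ hmy l
      omega)
    (by
      apply num_S ha
      simp only [Fintype.card_sum]
      omega)
    (by omega)
    (by omega)
  refine ⟨v, X', ?_⟩
  convert hE using 1
  funext e
  rcases e with (i | i) | (i | i) <;> rfl

end Pool.Agent.DQO
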