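import Pool.Agent.DQO.Stage

/-!
# DQO-P7: token phase the rows rho2_i

Context: `Ctx` (Stage).  An application of `phase'` (PhC) with `θ := 100000 * a`, `S := m / 100`,
`A := fun _ => univ`, no forbidden values, no neighbours, index type `{i // κ i ≠ i}`.
Families: `(v, x' (τ i))` guard `(1, x' (τ i))`; `(v, col v (y i))` guard
`(2, y i)`; `(v, x' i)` guard `(1, x' i)`; `(v, col v (y' i))` guard `(2, y' i)`; `d = 4`,
`L = 46656000000 * a`, `G = 4 * L`, `L' = 279936000000 * a`.
-/

namespace Pool.Agent.DQO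

open Finset

variable {V : Type} [Fintype V] [DecidableEq V] {m : ℕ} {I : Type} [Fintype I] [DecidableEq I]

/-- The fibre of the identity has one element. -/
private theorem P7_fib {J : Type} [Fintype J] [DecidableEq J] (j : J) :
    (univ.filter fun i : J => i = j).card = 1 := by
  rw [Finset.filter_eq' univ j, if_pos (mem_univ j), card_singleton]

private theorem P7_ne12 : (1 : Fin 3) ≠ 2 := by decide

private theorem P7_ne21 : (2 : Fin 3) ≠ 1 := by decide

theorem P7 (q : Sq V m) {r c s : I → V} {τ ι κ : Equiv.Perm I} {a : ℕ}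
    (h : Ctx m r c s τ ι κ a) (x' y y' : I → V) (hxx : ∀ i, κ i ≠ i → x' (τ i) ≠ x' i)
    (hyy : ∀ i, y i ≠ y' i) (hmy : ∀ v, mult y v ≤ 46656000000 * a)
    (hmx : ∀ v, mult x' v ≤ 46656000000 * a)
    (hmy' : ∀ v, mult (fun i : {i // κ i ≠ i} => y' i) v ≤ 46656000000 * a)
    (X6 : Finset (V × V)) (hX : X6.card ≤ 2 * (m * a) + 17 * Fintype.card I)
    (hL : ∀ l, load q X6 l ≤ 46656000000 * a) :
    ∃ (ρ2 : {i // κ i ≠ i} → V) (X7 : Finset (V × V)),
      Ext q X6 X7 (Sum.elim
        (Sum.elim (fun i => (ρ2 i, x' (τ i))) (fun i => (ρ2 i, q.col (ρ2 i) (y i))))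
        (Sum.elim (fun i => (ρ2 i, x' i)) (fun i => (ρ2 i, q.col (ρ2 i) (y' i)))))
        (279936000000 * a) := by
  have ha := h.ha
  have hm := h.hm
  have hI := h.hI
  have hc : Fintype.card {i // κ i ≠ i} ≤ Fintype.card I := Fintype.card_subtype_le _
  have hm1 : ∀ v, mult (fun i : {i // κ i ≠ i} => x' (τ i)) v ≤ 46656000000 * a := by
    intro v
    refine le_trans (mult_sub (fun i => κ i ≠ i) (fun i => x' (τ i)) v) ?_
    rw [mult_perm x' τ v]
    exact hmx v
  have hm2 : ∀ v, mult (fun i : {i // κ i ≠ i} => y i) v ≤ 46656000000 * a :=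
    fun v => le_trans (mult_sub (fun i => κ i ≠ i) y v) (hmy v)
  have hm3 : ∀ v, mult (fun i : {i // κ i ≠ i} => x' i) v ≤ 46656000000 * a :=
    fun v => le_trans (mult_sub (fun i => κ i ≠ i) x' v) (hmx v)
  have hmA : m ≤ (univ : Finset V).card := by
    rw [← q.cardR true]
    exact card_le_card (filter_subset _ _)
  obtain ⟨v, X', -, -, -, hE⟩ := phase' q (J := {i // κ i ≠ i})
    (E := ({i // κ i ≠ i} ⊕ {i // κ i ≠ i}) ⊕ ({i // κ i ≠ i} ⊕ {i // κ i ≠ i}))
    (Sum.elim (Sum.elim id id) (Sum.elim id id))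
    (fun _ => univ) (fun _ => ∅) (fun _ => ∅)
    (Sum.elim
      (Sum.elim (fun i v => (v, x' (τ i))) (fun i v => (v, q.col v (y i))))
      (Sum.elim (fun i v => (v, x' i)) (fun i v => (v, q.col v (y' i)))))
    (Sum.elim
      (Sum.elim (fun i => ((1, x' (τ i)) : Fin 3 × V)) (fun i => ((2, y i) : Fin 3 × V)))
      (Sum.elim (fun i => ((1, x' i) : Fin 3 × V)) (fun i => ((2, y' i) : Fin 3 × V))))
    X6 4 0 (46656000000 * a) (4 * (46656000000 * a)) (100000 * a) (m / 100) (279936000000 * a)
    (fun _ => hmA)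
    (by
      rintro ((i | i) | (i | i))
      · exact cf_c_row q univ (x' (τ i))
      · exact cf_s_row q univ (y i)
      · exact cf_c_row q univ (x' i)
      · exact cf_s_row q univ (y' i))
    (by
      rintro ((i | i) | (i | i)) ((j | j) | (j | j)) ho hgg <;>
        simp only [Sum.elim_inl, Sum.elim_inr, id_eq] at ho hgg <;> subst ho
      · rfl
      · exact absurd (congrArg Prod.fst hgg) P7_ne12
      · exact absurd (congrArg Prod.snd hgg) (hxx i i.2)
      · exact absurd (congrArg Prod.fst hgg) P7_ne12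
      · exact absurd (congrArg Prod.fst hgg) P7_ne21
      · rfl
      · exact absurd (congrArg Prod.fst hgg) P7_ne21
      · exact absurd (congrArg Prod.snd hgg) (hyy i)
      · exact absurd (congrArg Prod.snd hgg) (hxx i i.2).symm
      · exact absurd (congrArg Prod.fst hgg) P7_ne12
      · rfl
      · exact absurd (congrArg Prod.fst hgg) P7_ne12
      · exact absurd (congrArg Prod.fst hgg) P7_ne21
      · exact absurd (congrArg Prod.snd hgg) (hyy i).symm
      · exact absurd (congrArg Prod.fst hgg) P7_ne21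
      · rfl)
    (by
      intro j
      rw [card_filter_sum, card_filter_sum, card_filter_sum]
      simp only [Sum.elim_inl, Sum.elim_inr, id_eq, P7_fib]
      norm_num)
    (fun _ => by simp) (fun _ => by simp)
    (fun i j hij => by simp at hij)
    hL
    (by
      intro l
      rw [card_filter_sum, card_filter_sum, card_filter_sum]
      simp only [Sum.elim_inl, Sum.elim_inr]
      have h1 := guard_le (fun i : {i // κ i ≠ i} => x' (τ i)) 1 _ hm1 l
      have h2 := guard_le (fun i : {i // κ i ≠ i} => y i) 2 _ hm2 l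
      have h3 := guard_le (fun i : {i // κ i ≠ i} => x' i) 1 _ hm3 l
      have h4 := guard_le (fun i : {i // κ i ≠ i} => y' i) 2 _ hmy' l
      omega)
    (by
      apply num_S ha
      simp only [Fintype.card_sum]
      omega)
    (by omega)
    (by omega)
  refine ⟨v, X', ?_⟩
  have hfun : (Sum.elim
        (Sum.elim (fun i => (v i, x' (τ i))) (fun i => (v i, q.col (v i) (y i))))
        (Sum.elim (fun i => (v i, x' i)) (fun i => (v i, q.col (v i) (y' i)))) :
        ({i // κ i ≠ i} ⊕ {i // κ i ≠ i}) ⊕ ({i // κ i ≠ i} ⊕ {i // κ i ≠ i}) → V × V) =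
      fun e => (Sum.elim
        (Sum.elim (fun i v => (v, x' (τ i))) (fun i v => (v, q.col v (y i))))
        (Sum.elim (fun i v => (v, x' i)) (fun i v => (v, q.col v (y' i)))) :
        ({i // κ i ≠ i} ⊕ {i // κ i ≠ i}) ⊕ ({i // κ i ≠ i} ⊕ {i // κ i ≠ i}) → V → V × V) e
        (v ((Sum.elim (Sum.elim id id) (Sum.elim id id) :
          ({i // κ i ≠ i} ⊕ {i // κ i ≠ i}) ⊕ ({i // κ i ≠ i} ⊕ {i // κ i ≠ i}) →
            {i // κ i ≠ i}) e)) := by
    funext e
    rcases e with (i | i) | (i | i) <;> rfl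
  rw [hfun]
  exact hE

end Pool.Agent.DQO
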