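import Pool.Agent.DQO.PhA

/-!
# DQO-PhB: one greedy step

`Es` is the finset of the new cells of the token which is chosen now (at most `d`), all with
candidates `A`, cell functions `f e` and DISTINCT guards `g e`.  `X` the cells used so far,
`P` a bound of all loads, `Bd` the forbidden values, `θ` the saturation threshold, at most `S`
lines are saturated.  The bad values of `A` are counted by a union bound.
-/

namespace Pool.Agent.DQO

open Finset

variable {V : Type} [Fintype V] [DecidableEq V] {m : ℕ}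

theorem step (q : Sq V m) {E : Type} [DecidableEq E] (Es : Finset E) (A Bd : Finset V)
    (f : E → V → V × V) (g : E → Fin 3 × V) (X : Finset (V × V)) (d P θ S : ℕ)
    (hcf : ∀ e ∈ Es, IsCF q A (f e) (g e))
    (hg : ∀ e ∈ Es, ∀ e' ∈ Es, g e = g e' → e = e')
    (hd : Es.card ≤ d) (hP : ∀ l, load q X l ≤ P)
    (hS : (univ.filter fun l : Fin 3 × V => θ ≤ load q X l).card ≤ S)
    (hA : d * P + d * d + d * S + Bd.card < A.card) :
    ∃ v ∈ A, v ∉ Bd ∧ (∀ e ∈ Es, f e v ∉ X) ∧
      (∀ e ∈ Es, ∀ e' ∈ Es, f e v = f e' v → e = e') ∧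
      (∀ e ∈ Es, ∀ l : Fin 3 × V, l ≠ g e → pt q (f e v) l.1 = l.2 → load q X l < θ) := by
  set T : Finset (Fin 3 × V) := univ.filter fun l : Fin 3 × V => θ ≤ load q X l with hT
  set B1 : Finset V := Es.biUnion fun e => A.filter fun v => f e v ∈ X with hB1
  set B2 : Finset V := ((Es ×ˢ Es).filter fun p : E × E => p.1 ≠ p.2).biUnion
    fun p => A.filter fun v => f p.1 v = f p.2 v with hB2
  set B3 : Finset V := Es.biUnion fun e =>
    A.filter fun v => ∃ l ∈ T, l ≠ g e ∧ pt q (f e v) l.1 = l.2 with hB3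
  have c1 : B1.card ≤ d * P := by
    refine (Finset.card_biUnion_le_card_mul _ _ P fun e he => ?_).trans (Nat.mul_le_mul_right P hd)
    exact ((hcf e he).card_mem X).trans (hP _)
  have c2 : B2.card ≤ d * d := by
    have h1 : B2.card ≤ ((Es ×ˢ Es).filter fun p : E × E => p.1 ≠ p.2).card * 1 := by
      refine Finset.card_biUnion_le_card_mul _ _ 1 fun p hp => ?_
      obtain ⟨hp1, hp2⟩ := Finset.mem_filter.1 hp
      obtain ⟨h3, h4⟩ := Finset.mem_product.1 hp1
      exact (hcf _ h3).card_eq (hcf _ h4) fun h5 => hp2 (hg _ h3 _ h4 h5)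
    have h2 : ((Es ×ˢ Es).filter fun p : E × E => p.1 ≠ p.2).card ≤ Es.card * Es.card := by
      refine (Finset.card_filter_le _ _).trans ?_
      rw [Finset.card_product]
    have h3 : Es.card * Es.card ≤ d * d := Nat.mul_le_mul hd hd
    omega
  have c3 : B3.card ≤ d * S := by
    refine (Finset.card_biUnion_le_card_mul _ _ S fun e he => ?_).trans (Nat.mul_le_mul_right S hd)
    exact ((hcf e he).card_on T).trans hS
  have hlt : (((B1 ∪ B2) ∪ B3) ∪ Bd).card < A.card := by
    have e1 := Finset.card_union_le B1 B2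
    have e2 := Finset.card_union_le (B1 ∪ B2) B3
    have e3 := Finset.card_union_le ((B1 ∪ B2) ∪ B3) Bd
    omega
  obtain ⟨v, hvA, hv⟩ := Finset.exists_mem_notMem_of_card_lt_card hlt
  rw [Finset.mem_union, Finset.mem_union, Finset.mem_union, not_or, not_or, not_or] at hv
  obtain ⟨⟨⟨h1, h2⟩, h3⟩, h4⟩ := hv
  refine ⟨v, hvA, h4, ?_, ?_, ?_⟩
  · intro e he hX
    exact h1 (Finset.mem_biUnion.2 ⟨e, he, Finset.mem_filter.2 ⟨hvA, hX⟩⟩)
  · intro e he e' he' heq
    by_contra hne
    exact h2 (Finset.mem_biUnion.2 ⟨(e, e'), Finset.mem_filter.2 ⟨Finset.mem_product.2 ⟨he, he'⟩, hne⟩,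
      Finset.mem_filter.2 ⟨hvA, heq⟩⟩)
  · intro e he l hl hpt
    by_contra hge
    rw [not_lt] at hge
    exact h3 (Finset.mem_biUnion.2 ⟨e, he, Finset.mem_filter.2 ⟨hvA, l,
      Finset.mem_filter.2 ⟨Finset.mem_univ l, hge⟩, hl, hpt⟩⟩)

end Pool.Agent.DQO
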