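import Pool.Agent.DQO.PhB

/-!
# DQO-PhC: the phase lemma

`J` the tokens to be chosen, `E` the new cells, `o : E → J` the owner.  The tokens are chosen one after the other by `step`
(induction over `K : Finset J`).
-/

namespace Pool.Agent.DQO

open Finset

variable {V : Type} [Fintype V] [DecidableEq V] {m : ℕ}

private theorem PhC_load (q : Sq V m) {E : Type} [DecidableEq E] (X : Finset (V × V)) (Es : Finset E) (h : E → V × V)
    (l : Fin 3 × V) : load q (X ∪ Es.image h) l ≤ load q X l + (Es.filter fun e => pt q (h e) l.1 = l.2).card := by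
  unfold load
  rw [Finset.filter_union]
  refine (Finset.card_union_le _ _).trans (Nat.add_le_add_left ?_ _)
  rw [Finset.filter_image]
  exact Finset.card_image_le

private theorem PhC_ind (q : Sq V m) {J E : Type} [DecidableEq J] [Fintype E] [DecidableEq E]
    (o : E → J) (A B : J → Finset V) (nb : J → Finset J) (f : E → V → V × V)
    (g : E → Fin 3 × V) (X : Finset (V × V)) (d b L G θ S : ℕ)
    (hA : ∀ j, m ≤ (A j).card)
    (hcf : ∀ e, IsCF q (A (o e)) (f e) (g e))
    (hg : ∀ e e', o e = o e' → g e = g e' → e = e')
    (hd : ∀ j, (univ.filter fun e => o e = j).card ≤ d)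
    (hB : ∀ j, (B j).card ≤ b) (hnb : ∀ j, (nb j).card ≤ b)
    (hsym : ∀ i j, i ∈ nb j → j ∈ nb i)
    (hL : ∀ l, load q X l ≤ L)
    (hG : ∀ l, (univ.filter fun e => g e = l).card ≤ G)
    (hS : 3 * (X.card + Fintype.card E) < (S + 1) * θ)
    (hm : d * (L + θ + d + G) + d * d + d * S + 2 * b < m) (K : Finset J) :
    ∃ v : J → V, (∀ j ∈ K, v j ∈ A j ∧ v j ∉ B j) ∧
      (∀ j ∈ K, ∀ i ∈ K, i ∈ nb j → i ≠ j → v i ≠ v j) ∧
      (∀ e e', o e ∈ K → o e' ∈ K → f e (v (o e)) = f e' (v (o e')) → e = e') ∧
      (∀ e, o e ∈ K → f e (v (o e)) ∉ X) ∧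
      ∀ l, load q (X ∪ (univ.filter fun e => o e ∈ K).image fun e => f e (v (o e))) l ≤
        max L (θ + d) + (univ.filter fun e => o e ∈ K ∧ g e = l).card := by
  induction K using Finset.induction_on with
  | empty =>
    have hne : ∀ j, ∃ x, x ∈ A j := fun j => Finset.card_pos.1 (by have := hA j; omega)
    choose v hv using hne
    refine ⟨v, by simp, by simp, by simp, by simp, fun l => ?_⟩
    have h1 : (univ.filter fun e : E => o e ∈ (∅ : Finset J)) = ∅ := by
      apply Finset.filter_false_of_mem
      intro e _ he
      exact absurd he (Finset.notMem_empty _)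
    rw [h1, Finset.image_empty, Finset.union_empty]
    exact (hL l).trans ((le_max_left _ _).trans (Nat.le_add_right _ _))
  | insert j K hj ih =>
    obtain ⟨v, h1, h2, h3, h4, h5⟩ := ih
    set XK : Finset (V × V) := X ∪ (univ.filter fun e => o e ∈ K).image fun e => f e (v (o e)) with hXK
    have hXc : XK.card ≤ X.card + Fintype.card E :=
      (Finset.card_union_le _ _).trans (Nat.add_le_add_left
        (Finset.card_image_le.trans ((Finset.card_le_univ _))) _)
    have hP : ∀ l, load q XK l ≤ L + θ + d + G := by
      intro l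
      have h6 := h5 l
      have h7 : (univ.filter fun e => o e ∈ K ∧ g e = l).card ≤ G :=
        (Finset.card_le_card (Finset.monotone_filter_right _ fun e _ he => he.2)).trans (hG l)
      have h8 : max L (θ + d) ≤ L + (θ + d) := max_le (Nat.le_add_right _ _) (Nat.le_add_left _ _)
      omega
    have hSat : (univ.filter fun l : Fin 3 × V => θ ≤ load q XK l).card ≤ S := by
      have h6 := card_sat q XK θ
      have h7 : (univ.filter fun l : Fin 3 × V => θ ≤ load q XK l).card * θ < (S + 1) * θ := by
        calc _ ≤ 3 * XK.card := h6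
          _ ≤ 3 * (X.card + Fintype.card E) := Nat.mul_le_mul_left _ hXc
          _ < _ := hS
      exact Nat.lt_succ_iff.1 (Nat.lt_of_mul_lt_mul_right h7)
    have hBd : (B j ∪ (nb j ∩ K).image v).card ≤ 2 * b := by
      have h6 : ((nb j ∩ K).image v).card ≤ b :=
        Finset.card_image_le.trans ((Finset.card_le_card Finset.inter_subset_left).trans (hnb j))
      have h7 := Finset.card_union_le (B j) ((nb j ∩ K).image v)
      have h8 := hB j
      omega
    obtain ⟨v₀, k1, k2, k3, k4, k5⟩ := step q (univ.filter fun e => o e = j) (A j) (B j ∪ (nb j ∩ K).image v) f g XK d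
      (L + θ + d + G) θ S
      (by
        intro e he
        have he' : o e = j := (Finset.mem_filter.1 he).2
        rw [← he']
        exact hcf e)
      (by
        intro e he e' he' hge
        exact hg e e' ((Finset.mem_filter.1 he).2.trans (Finset.mem_filter.1 he').2.symm) hge)
      (hd j) hP hSat (by have := hA j; omega)
    have hEs : ∀ e, o e = j → e ∈ (univ.filter fun e => o e = j) := fun e he =>
      Finset.mem_filter.2 ⟨Finset.mem_univ e, he⟩
    have u1 : Function.update v j v₀ j = v₀ := Function.update_self _ _ _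
    have u2 : ∀ i ∈ K, Function.update v j v₀ i = v i := fun i hi =>
      Function.update_of_ne (fun h => hj (by rw [← h]; exact hi)) _ _
    have hmemK : ∀ e, o e ∈ K → f e (v (o e)) ∈ XK := fun e he =>
      Finset.mem_union_right _ (Finset.mem_image.2 ⟨e, Finset.mem_filter.2 ⟨Finset.mem_univ e, he⟩, rfl⟩)
    rw [Finset.mem_union, not_or] at k2
    refine ⟨Function.update v j v₀, ?_, ?_, ?_, ?_, ?_⟩
    · intro i hi
      rcases Finset.mem_insert.1 hi with rfl | hi
      · rw [u1]
        exact ⟨k1, k2.1⟩
      · rw [u2 i hi]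
        exact h1 i hi
    · intro j' hj' i hi hnbi hne
      by_cases e1 : j' = j
      · by_cases e2 : i = j
        · exact absurd (e2.trans e1.symm) hne
        · have hiK : i ∈ K := (Finset.mem_insert.1 hi).resolve_left e2
          rw [e1, u1, u2 i hiK]
          intro he
          rw [e1] at hnbi
          exact k2.2 (Finset.mem_image.2 ⟨i, Finset.mem_inter.2 ⟨hnbi, hiK⟩, he⟩)
      · have hjK : j' ∈ K := (Finset.mem_insert.1 hj').resolve_left e1
        by_cases e2 : i = j
        · rw [e2, u1, u2 j' hjK]
          intro he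
          rw [e2] at hnbi
          exact k2.2 (Finset.mem_image.2 ⟨j', Finset.mem_inter.2 ⟨hsym _ _ hnbi, hjK⟩, he.symm⟩)
        · have hiK : i ∈ K := (Finset.mem_insert.1 hi).resolve_left e2
          rw [u2 i hiK, u2 j' hjK]
          exact h2 j' hjK i hiK hnbi hne
    · intro e e' he he' hff
      rcases Finset.mem_insert.1 he with he | he
      · rcases Finset.mem_insert.1 he' with he' | he'
        · rw [he, he', u1] at hff
          exact k4 e (hEs e he) e' (hEs e' he') hff
        · rw [he, u1, u2 _ he'] at hff
          exact absurd (hff ▸ hmemK e' he') (k3 e (hEs e he))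
      · rcases Finset.mem_insert.1 he' with he' | he'
        · rw [he', u1, u2 _ he] at hff
          exact absurd (hff ▸ hmemK e he) (k3 e' (hEs e' he'))
        · rw [u2 _ he, u2 _ he'] at hff
          exact h3 e e' he he' hff
    · intro e he
      rcases Finset.mem_insert.1 he with he | he
      · rw [he, u1]
        exact fun hx => k3 e (hEs e he) (Finset.mem_union_left _ hx)
      · rw [u2 _ he]
        exact h4 e he
    · intro l
      have hX' : X ∪ (univ.filter fun e => o e ∈ insert j K).image (fun e => f e (Function.update v j v₀ (o e))) =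
          XK ∪ (univ.filter fun e => o e = j).image fun e => f e v₀ := by
        have e1 : (univ.filter fun e => o e ∈ insert j K) =
            (univ.filter fun e => o e ∈ K) ∪ (univ.filter fun e => o e = j) := by
          ext e
          simp only [Finset.mem_filter, Finset.mem_univ, true_and, Finset.mem_insert, Finset.mem_union]
          exact or_comm
        rw [e1, Finset.image_union, ← Finset.union_assoc, hXK]
        congr 1
        · congr 1
          apply Finset.image_congr
          intro e he
          have he' : o e ∈ K := (Finset.mem_filter.1 (Finset.mem_coe.1 he)).2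
          show f e (Function.update v j v₀ (o e)) = f e (v (o e))
          rw [u2 _ he']
        · apply Finset.image_congr
          intro e he
          have he' : o e = j := (Finset.mem_filter.1 (Finset.mem_coe.1 he)).2
          show f e (Function.update v j v₀ (o e)) = f e v₀
          rw [he', u1]
      rw [hX']
      have h6 := PhC_load q XK (univ.filter fun e => o e = j) (fun e => f e v₀) l
      by_cases hθ : load q XK l < θ
      · have h7 : ((univ.filter fun e => o e = j).filter fun e => pt q (f e v₀) l.1 = l.2).card ≤ d :=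
          (Finset.card_le_card (Finset.filter_subset _ _)).trans (hd j)
        have h8 : θ + d ≤ max L (θ + d) := le_max_right _ _
        omega
      · have h7 : ((univ.filter fun e => o e = j).filter fun e => pt q (f e v₀) l.1 = l.2) ⊆
            (univ.filter fun e => o e = j ∧ g e = l) := by
          intro e he
          rw [Finset.mem_filter] at he
          refine Finset.mem_filter.2 ⟨Finset.mem_univ e, (Finset.mem_filter.1 he.1).2, ?_⟩
          by_contra hc
          exact hθ (k5 e he.1 l (fun h => hc h.symm) he.2)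
        have h8 : (univ.filter fun e => o e ∈ insert j K ∧ g e = l) =
            (univ.filter fun e => o e ∈ K ∧ g e = l) ∪ (univ.filter fun e => o e = j ∧ g e = l) := by
          ext e
          simp only [Finset.mem_filter, Finset.mem_univ, true_and, Finset.mem_insert, Finset.mem_union]
          tauto
        have h9 : Disjoint (univ.filter fun e => o e ∈ K ∧ g e = l) (univ.filter fun e => o e = j ∧ g e = l) := by
          rw [Finset.disjoint_left]
          intro e he he'
          have a1 := (Finset.mem_filter.1 he).2.1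
          have a2 := (Finset.mem_filter.1 he').2.1
          rw [a2] at a1
          exact hj a1
        rw [h8, Finset.card_union_of_disjoint h9]
        have h10 := Finset.card_le_card h7
        have h11 := h5 l
        omega

theorem phase (q : Sq V m) {J E : Type} [Fintype J] [DecidableEq J] [Fintype E] [DecidableEq E]
    (o : E → J) (A B : J → Finset V) (nb : J → Finset J) (f : E → V → V × V)
    (g : E → Fin 3 × V) (X : Finset (V × V)) (d b L G θ S : ℕ)
    (hA : ∀ j, m ≤ (A j).card)
    (hcf : ∀ e, IsCF q (A (o e)) (f e) (g e))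
    (hg : ∀ e e', o e = o e' → g e = g e' → e = e')
    (hd : ∀ j, (univ.filter fun e => o e = j).card ≤ d)
    (hB : ∀ j, (B j).card ≤ b) (hnb : ∀ j, (nb j).card ≤ b)
    (hsym : ∀ i j, i ∈ nb j → j ∈ nb i)
    (hL : ∀ l, load q X l ≤ L)
    (hG : ∀ l, (univ.filter fun e => g e = l).card ≤ G)
    (hS : 3 * (X.card + Fintype.card E) < (S + 1) * θ)
    (hm : d * (L + θ + d + G) + d * d + d * S + 2 * b < m) :
    ∃ v : J → V, (∀ j, v j ∈ A j) ∧ (∀ j, v j ∉ B j) ∧
      (∀ j, ∀ i ∈ nb j, i ≠ j → v i ≠ v j) ∧
      Function.Injective (fun e => f e (v (o e))) ∧ (∀ e, f e (v (o e)) ∉ X) ∧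
      ∀ l, load q (X ∪ univ.image fun e => f e (v (o e))) l ≤ L + θ + d + G := by
  obtain ⟨v, h1, h2, h3, h4, h5⟩ := PhC_ind q o A B nb f g X d b L G θ S hA hcf hg hd hB hnb hsym hL hG hS hm univ
  refine ⟨v, fun j => (h1 j (Finset.mem_univ j)).1, fun j => (h1 j (Finset.mem_univ j)).2,
    fun j i hi hne => h2 j (Finset.mem_univ j) i (Finset.mem_univ i) hi hne,
    fun e e' he => h3 e e' (Finset.mem_univ _) (Finset.mem_univ _) he, fun e => h4 e (Finset.mem_univ _), fun l => ?_⟩
  have h6 := h5 l
  have h7 : (univ.filter fun e => o e ∈ (univ : Finset J)) = univ := by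
    apply Finset.filter_true_of_mem
    intro e _
    exact Finset.mem_univ _
  rw [h7] at h6
  have h8 : (univ.filter fun e => o e ∈ (univ : Finset J) ∧ g e = l).card ≤ G :=
    (Finset.card_le_card (Finset.monotone_filter_right _ fun e _ he => he.2)).trans (hG l)
  have h9 : max L (θ + d) ≤ L + (θ + d) := max_le (Nat.le_add_right _ _) (Nat.le_add_left _ _)
  omega

/-- Corollary in the form `Ext` (see Defs): `X'` is `X` together with the new cells. -/
theorem phase' (q : Sq V m) {J E : Type} [Fintype J] [DecidableEq J] [Fintype E]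
    [DecidableEq E]
    (o : E → J) (A B : J → Finset V) (nb : J → Finset J) (f : E → V → V × V)
    (g : E → Fin 3 × V) (X : Finset (V × V)) (d b L G θ S L' : ℕ)
    (hA : ∀ j, m ≤ (A j).card)
    (hcf : ∀ e, IsCF q (A (o e)) (f e) (g e))
    (hg : ∀ e e', o e = o e' → g e = g e' → e = e')
    (hd : ∀ j, (univ.filter fun e => o e = j).card ≤ d)
    (hB : ∀ j, (B j).card ≤ b) (hnb : ∀ j, (nb j).card ≤ b)
    (hsym : ∀ i j, i ∈ nb j → j ∈ nb i)
    (hL : ∀ l, load q X l ≤ L)
    (hG : ∀ l, (univ.filter fun e => g e = l).card ≤ G)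
    (hS : 3 * (X.card + Fintype.card E) < (S + 1) * θ)
    (hL' : L + θ + d + G ≤ L')
    (hm : d * L' + d * d + d * S + 2 * b < m) :
    ∃ (v : J → V) (X' : Finset (V × V)), (∀ j, v j ∈ A j) ∧ (∀ j, v j ∉ B j) ∧
      (∀ j, ∀ i ∈ nb j, i ≠ j → v i ≠ v j) ∧
      Ext q X X' (fun e => f e (v (o e))) L' := by
  have hm' : d * (L + θ + d + G) + d * d + d * S + 2 * b < m := by
    have h1 := Nat.mul_le_mul_left d hL'
    omega
  obtain ⟨v, h1, h2, h3, h4, h5, h6⟩ := phase q o A B nb f g X d b L G θ S hA hcf hg hd hB hnb hsym hL hG hS hm'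
  have hdisj : Disjoint X (univ.image fun e => f e (v (o e))) := by
    rw [Finset.disjoint_left]
    intro w hw hw'
    obtain ⟨e, -, rfl⟩ := Finset.mem_image.1 hw'
    exact h5 e hw
  refine ⟨v, X ∪ univ.image fun e => f e (v (o e)), h1, h2, h3, ?_⟩
  refine ⟨Finset.subset_union_left, fun φ => ?_, ?_, fun l => (h6 l).trans hL', fun K _ k hk l => ?_⟩
  · rw [Finset.sum_union hdisj, Finset.sum_image fun e _ e' _ he => h4 he]
  · exact (Finset.card_union_le _ _).trans (Nat.add_le_add_left (Finset.card_image_le.trans (Finset.card_le_univ _)) _)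
  · refine le_trans ?_ ((h6 l).trans hL')
    unfold cnt load
    refine Finset.card_le_card_of_injOn (fun x => f (k x) (v (o (k x)))) ?_ ?_
    · intro x hx
      have hx' := (Finset.mem_filter.1 (Finset.mem_coe.1 hx)).2
      exact Finset.mem_coe.2 (Finset.mem_filter.2 ⟨Finset.mem_union_right _
        (Finset.mem_image.2 ⟨k x, Finset.mem_univ _, rfl⟩), hx'⟩)
    · intro x _ x' _ he
      exact hk (h4 he)

end Pool.Agent.DQO
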