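import Mathlib

/-!
# DQO-PmA: counting bijections with one or two prescribed values: `card_one`, `card_two`

`V ≃ W` with `Fintype.card V = Fintype.card W = N`.

* `card_one`: `N * #{π | π v = w} = #(V ≃ W)`: all `w` have the same number (compose with
  `Equiv.swap w w'`), the sum over `w` is everything.
* `card_two`: `v ≠ v'`, `w ≠ w'`: `N * (N - 1) * #{π | π v = w ∧ π v' = w'} = #(V ≃ W)`: same number for
  all ordered pairs of distinct elements (compose with two swaps), the sum over the pairs is everything.
-/

namespace Pool.Agent.DQO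

open Finset

variable {V W : Type} [Fintype V] [DecidableEq V] [Fintype W] [DecidableEq W]

theorem card_one (h : Fintype.card V = Fintype.card W) (v : V) (w : W) :
    Fintype.card V * (univ.filter fun π : V ≃ W => π v = w).card = Fintype.card (V ≃ W) := by
  have key : ∀ w' : W, (univ.filter fun π : V ≃ W => π v = w').card =
      (univ.filter fun π : V ≃ W => π v = w).card := by
    intro w'
    refine Finset.card_nbij' (fun π => π.trans (Equiv.swap w' w))
      (fun π => π.trans (Equiv.swap w' w)) ?_ ?_ ?_ ?_
    · intro π hπ
      simp only [coe_filter, mem_univ, true_and, Set.mem_setOf_eq] at hπ ⊢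
      simp [hπ]
    · intro π hπ
      simp only [coe_filter, mem_univ, true_and, Set.mem_setOf_eq] at hπ ⊢
      simp [hπ]
    · intro π _
      ext x
      simp
    · intro π _
      ext x
      simp
  have h1 : (univ : Finset (V ≃ W)).card =
      ∑ w' ∈ (univ : Finset W), ((univ : Finset (V ≃ W)).filter fun π => π v = w').card :=
    Finset.card_eq_sum_card_fiberwise (f := fun π : V ≃ W => π v) (fun π _ => by simp)
  rw [Finset.sum_congr rfl fun w' _ => key w', Finset.sum_const, smul_eq_mul, Finset.card_univ,
    Finset.card_univ] at h1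
  rw [h, h1]

theorem card_two (h : Fintype.card V = Fintype.card W) {v v' : V} {w w' : W} (hv : v ≠ v')
    (hw : w ≠ w') :
    Fintype.card V * (Fintype.card V - 1) *
      (univ.filter fun π : V ≃ W => π v = w ∧ π v' = w').card = Fintype.card (V ≃ W) := by
  have key : ∀ p ∈ (univ : Finset W).offDiag,
      ((univ : Finset (V ≃ W)).filter fun π => (π v, π v') = p).card =
      (univ.filter fun π : V ≃ W => π v = w ∧ π v' = w').card := by
    rintro ⟨a, b⟩ hp
    have hab : a ≠ b := (Finset.mem_offDiag.1 hp).2.2
    obtain ⟨σ, h1, h2⟩ : ∃ σ : W ≃ W, σ a = w ∧ σ b = w' := by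
      refine ⟨(Equiv.swap a w).trans (Equiv.swap (Equiv.swap a w b) w'), ?_, ?_⟩
      · rw [Equiv.trans_apply, Equiv.swap_apply_left]
        apply Equiv.swap_apply_of_ne_of_ne _ hw
        intro h3
        apply hab
        apply (Equiv.swap a w).injective
        rw [Equiv.swap_apply_left]
        exact h3
      · rw [Equiv.trans_apply, Equiv.swap_apply_left]
    refine Finset.card_nbij' (fun π => π.trans σ) (fun π => π.trans σ.symm) ?_ ?_ ?_ ?_
    · intro π hπ
      simp only [coe_filter, mem_univ, true_and, Set.mem_setOf_eq, Prod.mk.injEq] at hπ ⊢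
      exact ⟨by rw [Equiv.trans_apply, hπ.1, h1], by rw [Equiv.trans_apply, hπ.2, h2]⟩
    · intro π hπ
      simp only [coe_filter, mem_univ, true_and, Set.mem_setOf_eq, Prod.mk.injEq] at hπ ⊢
      exact ⟨by rw [Equiv.trans_apply, hπ.1, ← h1, Equiv.symm_apply_apply],
        by rw [Equiv.trans_apply, hπ.2, ← h2, Equiv.symm_apply_apply]⟩
    · intro π _
      ext x
      simp
    · intro π _
      ext x
      simp
  have h1 : (univ : Finset (V ≃ W)).card =
      ∑ p ∈ (univ : Finset W).offDiag,
        ((univ : Finset (V ≃ W)).filter fun π => (π v, π v') = p).card := by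
    refine Finset.card_eq_sum_card_fiberwise (f := fun π : V ≃ W => (π v, π v')) ?_
    intro π _
    simp only [coe_offDiag, Set.mem_offDiag, coe_univ, Set.mem_univ, true_and]
    exact fun h3 => hv (π.injective h3)
  rw [Finset.sum_congr rfl key, Finset.sum_const, smul_eq_mul, Finset.offDiag_card,
    Finset.card_univ, Finset.card_univ] at h1
  rw [h, h1, Nat.mul_sub, Nat.mul_one]

end Pool.Agent.DQO
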