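import Pool.Agent.DQO.PmA

/-!
# DQO-PmB: a random bijection is good for many relations (second moment): `moment`

`V ≃ W` with `Fintype.card V = Fintype.card W = N ≥ 2`; `R : Finset (W × V)`, `X π := #{v | (π v, v) ∈ R}`,
`D := R.card`. In ℤ: `(N - 1) * ∑ π, (N * X π - D)^2 ≤ #(V ≃ W) * (N * (N - 1) * D + D^2)`.
First moment by `card_one`, second moment by `card_one` and `card_two`.
-/

namespace Pool.Agent.DQO

open Finset

variable {V W : Type} [Fintype V] [DecidableEq V] [Fintype W] [DecidableEq W]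

omit [Fintype W] in
private theorem PmB_X (R : Finset (W × V)) (π : V ≃ W) :
    ((univ.filter fun v => (π v, v) ∈ R).card : ℤ) = ∑ p ∈ R, if π p.2 = p.1 then (1 : ℤ) else 0 := by
  rw [← Finset.sum_filter, Finset.sum_const, nsmul_eq_mul, mul_one]
  congr 1
  refine Finset.card_nbij' (fun v => (π v, v)) (fun p => p.2) ?_ ?_ ?_ ?_
  · intro v hv
    simp only [coe_filter, mem_univ, true_and, Set.mem_ofPred_eq] at hv ⊢
    exact ⟨hv, trivial⟩
  · rintro ⟨w, v⟩ hp
    simp only [coe_filter, mem_univ, true_and, Set.mem_ofPred_eq] at hp ⊢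
    rw [hp.2]
    exact hp.1
  · intro v _
    rfl
  · rintro ⟨w, v⟩ hp
    simp only [coe_filter, Set.mem_ofPred_eq] at hp
    simp only [Prod.mk.injEq, and_true]
    exact hp.2

private theorem PmB_ind (P : (V ≃ W) → Prop) [DecidablePred P] :
    ∑ π : V ≃ W, (if P π then (1 : ℤ) else 0) = ((univ.filter fun π => P π).card : ℤ) := by
  rw [← Finset.sum_filter, Finset.sum_const, nsmul_eq_mul, mul_one]

private theorem PmB_first (h : Fintype.card V = Fintype.card W) (R : Finset (W × V)) :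
    (Fintype.card V : ℤ) * ∑ π : V ≃ W, ((univ.filter fun v => (π v, v) ∈ R).card : ℤ) =
      (Fintype.card (V ≃ W) : ℤ) * R.card := by
  have h1 : ∑ π : V ≃ W, ((univ.filter fun v => (π v, v) ∈ R).card : ℤ) =
      ∑ p ∈ R, ((univ.filter fun π : V ≃ W => π p.2 = p.1).card : ℤ) := by
    rw [Finset.sum_congr rfl fun π _ => PmB_X R π, Finset.sum_comm]
    exact Finset.sum_congr rfl fun p _ => PmB_ind _
  rw [h1, Finset.mul_sum]
  have h2 : ∀ p ∈ R, (Fintype.card V : ℤ) * ((univ.filter fun π : V ≃ W => π p.2 = p.1).card : ℤ) =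
      (Fintype.card (V ≃ W) : ℤ) := by
    intro p _
    exact_mod_cast card_one h p.2 p.1
  rw [Finset.sum_congr rfl h2, Finset.sum_const, nsmul_eq_mul, mul_comm]

private theorem PmB_pair (h : Fintype.card V = Fintype.card W) (hN : 2 ≤ Fintype.card V)
    (p q : W × V) :
    (Fintype.card V : ℤ) * ((Fintype.card V : ℤ) - 1) *
      ((univ.filter fun π : V ≃ W => π p.2 = p.1 ∧ π q.2 = q.1).card : ℤ) ≤
    (Fintype.card (V ≃ W) : ℤ) +
      (if p = q then ((Fintype.card V : ℤ) - 1) * (Fintype.card (V ≃ W) : ℤ) else 0) := by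
  have hT : (0 : ℤ) ≤ (Fintype.card (V ≃ W) : ℤ) := Int.natCast_nonneg _
  have hN1 : (0 : ℤ) ≤ (Fintype.card V : ℤ) - 1 := by
    have : (2 : ℤ) ≤ (Fintype.card V : ℤ) := by exact_mod_cast hN
    omega
  by_cases hpq : p = q
  · subst hpq
    rw [if_pos rfl]
    have h1 : (univ.filter fun π : V ≃ W => π p.2 = p.1 ∧ π p.2 = p.1) =
        (univ.filter fun π : V ≃ W => π p.2 = p.1) := by
      apply Finset.filter_congr
      intro π _
      exact and_self_iff
    rw [h1]
    have h2 : (Fintype.card V : ℤ) * ((univ.filter fun π : V ≃ W => π p.2 = p.1).card : ℤ) =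
        (Fintype.card (V ≃ W) : ℤ) := by
      exact_mod_cast card_one h p.2 p.1
    have h3 : (Fintype.card V : ℤ) * ((Fintype.card V : ℤ) - 1) *
        ((univ.filter fun π : V ≃ W => π p.2 = p.1).card : ℤ) =
        ((Fintype.card V : ℤ) - 1) * (Fintype.card (V ≃ W) : ℤ) := by
      rw [← h2]
      ring
    rw [h3]
    omega
  · rw [if_neg hpq, add_zero]
    by_cases hv : p.2 = q.2
    · have h0 : (univ.filter fun π : V ≃ W => π p.2 = p.1 ∧ π q.2 = q.1) = ∅ := by
        rw [Finset.filter_eq_empty_iff]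
        rintro π _ ⟨h1, h2⟩
        apply hpq
        refine Prod.ext ?_ hv
        rw [← h1, ← h2, hv]
      rw [h0, Finset.card_empty, Nat.cast_zero, mul_zero]
      exact hT
    by_cases hw : p.1 = q.1
    · have h0 : (univ.filter fun π : V ≃ W => π p.2 = p.1 ∧ π q.2 = q.1) = ∅ := by
        rw [Finset.filter_eq_empty_iff]
        rintro π _ ⟨h1, h2⟩
        apply hv
        apply π.injective
        rw [h1, h2, hw]
      rw [h0, Finset.card_empty, Nat.cast_zero, mul_zero]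
      exact hT
    have h1 := card_two h hv hw
    have h2 : ((Fintype.card V - 1 : ℕ) : ℤ) = (Fintype.card V : ℤ) - 1 := by
      rw [Nat.cast_sub (by omega)]
      norm_num
    rw [← h2]
    exact le_of_eq (by exact_mod_cast h1)

private theorem PmB_second (h : Fintype.card V = Fintype.card W) (hN : 2 ≤ Fintype.card V)
    (R : Finset (W × V)) :
    (Fintype.card V : ℤ) * ((Fintype.card V : ℤ) - 1) *
      ∑ π : V ≃ W, ((univ.filter fun v => (π v, v) ∈ R).card : ℤ) ^ 2 ≤
      (Fintype.card (V ≃ W) : ℤ) * (((Fintype.card V : ℤ) - 1) * R.card + (R.card : ℤ) ^ 2) := by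
  have h1 : ∑ π : V ≃ W, ((univ.filter fun v => (π v, v) ∈ R).card : ℤ) ^ 2 =
      ∑ p ∈ R, ∑ q ∈ R, ((univ.filter fun π : V ≃ W => π p.2 = p.1 ∧ π q.2 = q.1).card : ℤ) := by
    have h2 : ∀ π : V ≃ W, ((univ.filter fun v => (π v, v) ∈ R).card : ℤ) ^ 2 =
        ∑ p ∈ R, ∑ q ∈ R, (if π p.2 = p.1 ∧ π q.2 = q.1 then (1 : ℤ) else 0) := by
      intro π
      rw [PmB_X, sq, Finset.sum_mul_sum]
      refine Finset.sum_congr rfl fun p _ => Finset.sum_congr rfl fun q _ => ?_
      by_cases h3 : π p.2 = p.1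
      · by_cases h4 : π q.2 = q.1
        · rw [if_pos h3, if_pos h4, if_pos ⟨h3, h4⟩, mul_one]
        · rw [if_neg h4, mul_zero, if_neg fun h5 => h4 h5.2]
      · rw [if_neg h3, zero_mul, if_neg fun h5 => h3 h5.1]
    rw [Finset.sum_congr rfl fun π _ => h2 π, Finset.sum_comm]
    refine Finset.sum_congr rfl fun p _ => ?_
    rw [Finset.sum_comm]
    exact Finset.sum_congr rfl fun q _ => PmB_ind _
  rw [h1, Finset.mul_sum]
  calc ∑ p ∈ R, (Fintype.card V : ℤ) * ((Fintype.card V : ℤ) - 1) *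
        ∑ q ∈ R, ((univ.filter fun π : V ≃ W => π p.2 = p.1 ∧ π q.2 = q.1).card : ℤ)
      ≤ ∑ p ∈ R, ∑ q ∈ R, ((Fintype.card (V ≃ W) : ℤ) +
          (if p = q then ((Fintype.card V : ℤ) - 1) * (Fintype.card (V ≃ W) : ℤ) else 0)) := by
        refine Finset.sum_le_sum fun p _ => ?_
        rw [Finset.mul_sum]
        exact Finset.sum_le_sum fun q _ => PmB_pair h hN p q
    _ = (Fintype.card (V ≃ W) : ℤ) * (((Fintype.card V : ℤ) - 1) * R.card + (R.card : ℤ) ^ 2) := by
        have h5 : ∀ p ∈ R, ∑ q ∈ R, ((Fintype.card (V ≃ W) : ℤ) +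
            (if p = q then ((Fintype.card V : ℤ) - 1) * (Fintype.card (V ≃ W) : ℤ) else 0)) =
            R.card * (Fintype.card (V ≃ W) : ℤ) +
              ((Fintype.card V : ℤ) - 1) * (Fintype.card (V ≃ W) : ℤ) := by
          intro p hp
          rw [Finset.sum_add_distrib, Finset.sum_const, nsmul_eq_mul, Finset.sum_ite_eq, if_pos hp]
        rw [Finset.sum_congr rfl h5, Finset.sum_const, nsmul_eq_mul]
        ring

theorem moment (h : Fintype.card V = Fintype.card W) (hN : 2 ≤ Fintype.card V)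
    (R : Finset (W × V)) :
    ((Fintype.card V : ℤ) - 1) *
      ∑ π : V ≃ W, ((Fintype.card V : ℤ) * ((univ.filter fun v => (π v, v) ∈ R).card : ℤ)
        - (R.card : ℤ)) ^ 2 ≤
      (Fintype.card (V ≃ W) : ℤ) * ((Fintype.card V : ℤ) * ((Fintype.card V : ℤ) - 1) * R.card
        + (R.card : ℤ) ^ 2) := by
  have h1 := PmB_first h R
  have h2 := PmB_second h hN R
  have h3 : ∑ π : V ≃ W, ((Fintype.card V : ℤ) * ((univ.filter fun v => (π v, v) ∈ R).card : ℤ)
        - (R.card : ℤ)) ^ 2 =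
      (Fintype.card V : ℤ) ^ 2 * ∑ π : V ≃ W, ((univ.filter fun v => (π v, v) ∈ R).card : ℤ) ^ 2 -
      2 * (R.card : ℤ) * ((Fintype.card V : ℤ) *
        ∑ π : V ≃ W, ((univ.filter fun v => (π v, v) ∈ R).card : ℤ)) +
      (Fintype.card (V ≃ W) : ℤ) * (R.card : ℤ) ^ 2 := by
    rw [Finset.mul_sum, Finset.mul_sum, Finset.mul_sum, ← Finset.sum_sub_distrib]
    have h4 : (Fintype.card (V ≃ W) : ℤ) * (R.card : ℤ) ^ 2 = ∑ _π : V ≃ W, (R.card : ℤ) ^ 2 := by
      rw [Finset.sum_const, nsmul_eq_mul, Finset.card_univ]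
    rw [h4, ← Finset.sum_add_distrib]
    refine Finset.sum_congr rfl fun π _ => ?_
    ring
  rw [h3, h1]
  have hN0 : (0 : ℤ) ≤ (Fintype.card V : ℤ) := Int.natCast_nonneg _
  have h6 := mul_le_mul_of_nonneg_left h2 hN0
  generalize ∑ π : V ≃ W, ((univ.filter fun v => (π v, v) ∈ R).card : ℤ) ^ 2 = S at h6 ⊢
  generalize (Fintype.card (V ≃ W) : ℤ) = T at h6 ⊢
  generalize (Fintype.card V : ℤ) = N at h6 ⊢
  generalize (R.card : ℤ) = D at h6 ⊢
  nlinarith [h6]

end Pool.Agent.DQO
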