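import Pool.Agent.DQO.Stage

/-!
# DQO-R1: resolve phase: the symbols s'_j

The phase lemma with three new cells per index `j`: the cells `(R j, col (R j) v)`, `(row (C j) v, C j)` and
`(row (C j) v, col (R j) v)` of the intercalate of `(R j, C j)` with the symbol `v`.
-/

namespace Pool.Agent.DQO

open Finset

variable {V : Type} [Fintype V] [DecidableEq V] {m : ℕ} {J : Type} [Fintype J] [DecidableEq J]

/-- the owner of a new cell -/
private def R1_o (J : Type) : J ⊕ (J ⊕ J) → J := Sum.elim id (Sum.elim id id)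

/-- the cell functions -/
private def R1_f (q : Sq V m) (R C : J → V) : J ⊕ (J ⊕ J) → V → V × V :=
  Sum.elim (fun j v => (R j, q.col (R j) v))
    (Sum.elim (fun j v => (q.row (C j) v, C j)) (fun j v => (q.row (C j) v, q.col (R j) v)))

/-- the guards -/
private def R1_g (q : Sq V m) (R C : J → V) : J ⊕ (J ⊕ J) → Fin 3 × V :=
  Sum.elim (fun j => (0, R j)) (Sum.elim (fun j => (1, C j)) (fun j => (2, q.nu (R j) (C j))))

/-- the candidates -/
private def R1_A (q : Sq V m) (R C : J → V) (j : J) : Finset V :=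
  univ.filter fun v => q.clS v = !(xor (q.clR (R j)) (q.clC (C j)))

omit [Fintype J] [DecidableEq J] in
private theorem R1_cf (q : Sq V m) (R C : J → V) (e : J ⊕ (J ⊕ J)) :
    IsCF q (R1_A q R C (R1_o J e)) (R1_f q R C e) (R1_g q R C e) := by
  rcases e with j | j | j
  · exact cf_r_sym q _ (R j)
  · exact cf_c_sym q _ (C j)
  · refine cf_b1 q _ (R j) (C j) ?_
    intro v hv
    have h1 : v ∈ R1_A q R C j := hv
    unfold R1_A at h1
    rw [mem_filter] at h1
    rw [h1.2]
    cases xor (q.clR (R j)) (q.clC (C j)) <;> decide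

omit [Fintype J] [DecidableEq J] in
private theorem R1_inj (q : Sq V m) (R C : J → V) (e e' : J ⊕ (J ⊕ J)) (h : R1_o J e = R1_o J e')
    (hg : R1_g q R C e = R1_g q R C e') : e = e' := by
  rcases e with j | j | j <;> rcases e' with k | k | k <;>
    simp [R1_o, R1_g] at h hg ⊢ <;> exact h

omit [DecidableEq J] in
private theorem R1_one [DecidableEq J] (j : J) : (univ.filter fun k : J => k = j).card ≤ 1 := by
  rw [filter_eq' univ j, if_pos (mem_univ j), card_singleton]

private theorem R1_d (j : J) : (univ.filter fun e => R1_o J e = j).card ≤ 3 := by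
  rw [card_filter_sum, card_filter_sum]
  have h1 := R1_one j
  have h2 : (univ.filter fun k : J => R1_o J (Sum.inl k) = j).card ≤ 1 := h1
  have h3 : (univ.filter fun k : J => R1_o J (Sum.inr (Sum.inl k)) = j).card ≤ 1 := h1
  have h4 : (univ.filter fun k : J => R1_o J (Sum.inr (Sum.inr k)) = j).card ≤ 1 := h1
  omega

omit [DecidableEq J] in
private theorem R1_G (q : Sq V m) (R C : J → V) (n : ℕ)
    (h1 : ∀ l, cnt q (fun j => (R j, C j)) l ≤ n) (l : Fin 3 × V) :
    (univ.filter fun e => R1_g q R C e = l).card ≤ 3 * n := by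
  rw [card_filter_sum, card_filter_sum]
  have h2 : (univ.filter fun j : J => R1_g q R C (Sum.inl j) = l).card ≤ n :=
    guard_le R 0 n (fun v => h1 (0, v)) l
  have h3 : (univ.filter fun j : J => R1_g q R C (Sum.inr (Sum.inl j)) = l).card ≤ n :=
    guard_le C 1 n (fun v => h1 (1, v)) l
  have h4 : (univ.filter fun j : J => R1_g q R C (Sum.inr (Sum.inr j)) = l).card ≤ n :=
    guard_le (fun j => q.nu (R j) (C j)) 2 n (fun v => h1 (2, v)) l
  omega

theorem R1 (q : Sq V m) (R C S : J → V) (a : ℕ) (ha : 1 ≤ a)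
    (hm : 100000000000000000 * a ≤ m) (hJ : Fintype.card J ≤ 14 * (m * a))
    (X : Finset (V × V)) (hX : X.card ≤ 44 * (m * a))
    (hL : ∀ l, load q X l ≤ 279936000000 * a)
    (h1 : ∀ l, cnt q (fun j => (R j, C j)) l ≤ 1959552000000 * a) :
    ∃ (s' : J → V) (X1 : Finset (V × V)),
      (∀ j, q.clS (s' j) ≠ xor (q.clR (R j)) (q.clC (C j))) ∧ (∀ j, S j ≠ s' j) ∧
      (∀ v, mult s' v ≤ 6438528000000 * a) ∧
      Ext q X X1 (Sum.elim (fun j => (R j, q.col (R j) (s' j)))
        (Sum.elim (fun j => (q.row (C j) (s' j), C j))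
          (fun j => (q.row (C j) (s' j), q.col (R j) (s' j))))) (6438528000000 * a) := by
  have hE : Fintype.card (J ⊕ (J ⊕ J)) = 3 * Fintype.card J := by
    rw [Fintype.card_sum, Fintype.card_sum]
    omega
  have hma : X.card + Fintype.card (J ⊕ (J ⊕ J)) ≤ 300 * (m * a) := by
    rw [hE]
    omega
  obtain ⟨v, X', h2, h3, -, h5⟩ := phase' q (R1_o J) (R1_A q R C) (fun j => {S j}) (fun _ => ∅)
    (R1_f q R C) (R1_g q R C) X 3 1 (279936000000 * a) (3 * (1959552000000 * a)) (100000 * a)
    (m / 100) (6438528000000 * a)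
    (by
      intro j
      unfold R1_A
      rw [q.cardS])
    (R1_cf q R C) (R1_inj q R C) R1_d
    (by
      intro j
      rw [card_singleton])
    (by
      intro j
      rw [card_empty]
      omega)
    (by
      intro i j hi
      exact absurd hi (notMem_empty _))
    hL (R1_G q R C _ h1) (num_S ha hma) (by omega) (by omega)
  have h6 : (fun e => R1_f q R C e (v (R1_o J e))) = Sum.elim (fun j => (R j, q.col (R j) (v j)))
      (Sum.elim (fun j => (q.row (C j) (v j), C j)) (fun j => (q.row (C j) (v j), q.col (R j) (v j)))) := by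
    funext e
    rcases e with j | j | j <;> rfl
  rw [h6] at h5
  refine ⟨v, X', ?_, ?_, ?_, h5⟩
  · intro j hj
    have h7 := h2 j
    unfold R1_A at h7
    rw [mem_filter, hj] at h7
    revert h7
    cases xor (q.clR (R j)) (q.clC (C j)) <;> simp
  · intro j hj
    exact h3 j (mem_singleton.2 hj.symm)
  · intro x
    have h7 := h5.cnt J Sum.inl Sum.inl_injective (2, x)
    rw [cnt_eq_mult] at h7
    have h8 : (fun j => pt q (Sum.elim (fun j => (R j, q.col (R j) (v j)))
        (Sum.elim (fun j => (q.row (C j) (v j), C j)) (fun j => (q.row (C j) (v j), q.col (R j) (v j))))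
          (Sum.inl j : J ⊕ (J ⊕ J))) 2) = v := by
      funext j
      show q.nu (R j) (q.col (R j) (v j)) = v j
      exact q.nu_col _ _
    rw [h8] at h7
    exact h7

end Pool.Agent.DQO
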