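import Pool.Agent.DQO.PhC
import Pool.Agent.DQO.CFs
import Pool.Agent.DQO.Inv

/-!
# DQO-Stage: the context of the token phases and the numbers

Thresholds: `θ = 10^5 a`, `S = m / 100`, loads `L_k` below; everything needs `10^17 a ≤ m`.
-/

namespace Pool.Agent.DQO

open Finset

variable {V : Type} [Fintype V] [DecidableEq V] {m : ℕ}

/-- The context of the token phases: `τ = ι κ`, involutions, no fixed points. -/
structure Ctx (m : ℕ) {V I : Type} [Fintype V] [DecidableEq V] [Fintype I] [DecidableEq I]
    (r c s : I → V) (τ ι κ : Equiv.Perm I) (a : ℕ) : Prop where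
  ha : 1 ≤ a
  hm : 100000000000000000 * a ≤ m
  hI : Fintype.card I ≤ 2 * (m * a)
  hr : ∀ v, mult r v ≤ a
  hc : ∀ v, mult c v ≤ a
  hs : ∀ v, mult s v ≤ a
  hι : ι * ι = 1
  hκ : κ * κ = 1
  hτ : τ = ι * κ
  hfix : ∀ i, τ i ≠ i

/-- The condition on the number of saturated lines. -/
theorem num_S {m a n : ℕ} (ha : 1 ≤ a) (hn : n ≤ 300 * (m * a)) :
    3 * n < (m / 100 + 1) * (100000 * a) := by
  have h1 : m + 1 ≤ 100 * (m / 100 + 1) := by omega
  have h2 : (m + 1) * (1000 * a) ≤ 100 * (m / 100 + 1) * (1000 * a) :=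
    Nat.mul_le_mul_right _ h1
  have h3 : 100 * (m / 100 + 1) * (1000 * a) = (m / 100 + 1) * (100000 * a) := by ring
  have h4 : (m + 1) * (1000 * a) = 1000 * (m * a) + 1000 * a := by ring
  rw [h3, h4] at h2
  omega

/-- The guard multiplicity of a symbol, column or row token. -/
theorem mult_eq_card {J : Type} [Fintype J] (f : J → V) (i : Fin 3) (v : V) :
    (univ.filter fun j => ((i, f j) : Fin 3 × V) = (i, v)).card = mult f v := by
  unfold mult
  congr 1
  ext j
  simp

/-- For a family of guards with a fixed sort. -/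
theorem guard_le {J : Type} [Fintype J] (f : J → V) (i : Fin 3) (n : ℕ)
    (h : ∀ v, mult f v ≤ n) (l : Fin 3 × V) :
    (univ.filter fun j => ((i, f j) : Fin 3 × V) = l).card ≤ n := by
  refine le_trans (card_le_card ?_) (h l.2)
  intro j hj
  rw [mem_filter] at hj ⊢
  exact ⟨mem_univ _, by rw [← hj.2]⟩

/-- Cells of `h` on the line of sort `i`: `cnt q h (i, v) = mult (fun j => pt q (h j) i) v`. -/
theorem cnt_eq_mult (q : Sq V m) {J : Type} [Fintype J] (h : J → V × V) (i : Fin 3) (v : V) :
    cnt q h (i, v) = mult (fun j => pt q (h j) i) v := rfl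

/-- `mult` under a permutation of the indices. -/
theorem mult_perm {J : Type} [Fintype J] (f : J → V) (σ : Equiv.Perm J) (v : V) :
    mult (fun j => f (σ j)) v = mult f v := by
  unfold mult
  refine card_bij (fun j _ => σ j) ?_ ?_ ?_
  · intro j hj
    rw [mem_filter] at hj ⊢
    exact ⟨mem_univ _, hj.2⟩
  · intro j _ j' _ hjj
    exact σ.injective hjj
  · intro j hj
    rw [mem_filter] at hj
    refine ⟨σ.symm j, ?_, ?_⟩
    · rw [mem_filter]
      exact ⟨mem_univ _, by simpa using hj.2⟩
    · simp

/-- Restriction to a subtype does not increase `mult`. -/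
theorem mult_sub {J : Type} [Fintype J] (p : J → Prop) [DecidablePred p] (f : J → V) (v : V) :
    mult (fun j : {j // p j} => f j) v ≤ mult f v := by
  unfold mult
  refine card_le_card_of_injOn (fun j => (j : J)) ?_ ?_
  · intro j hj
    have hj' := (mem_filter.1 (mem_coe.1 hj)).2
    exact mem_coe.2 (mem_filter.2 ⟨mem_univ _, hj'⟩)
  · intro j _ j' _ hjj
    exact Subtype.ext hjj

/-- The fibres of a sum of two families. -/
theorem card_filter_sum {J K : Type} [Fintype J] [Fintype K] (p : J ⊕ K → Prop)
    [DecidablePred p] :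
    (univ.filter p).card = (univ.filter fun j : J => p (Sum.inl j)).card +
      (univ.filter fun k : K => p (Sum.inr k)).card := by
  rw [card_filter, card_filter, card_filter, Fintype.sum_sum_type]

end Pool.Agent.DQO
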