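import Pool.Agent.DQO.Stage

/-!
# DQO-TokAlg: the algebraic identity (TOK)

Every triangle is the sum of its three edges; the column-symbol edges which remain are added up
over all indices and cancel after the substitutions `i ↦ τ i` and `i ↦ κ i`.
-/

namespace Pool.Agent.DQO

open Finset

variable {V : Type} [Fintype V] [DecidableEq V] {I : Type} [Fintype I] [DecidableEq I]

private theorem tokAlg_sub (κ : Equiv.Perm I) (F : I → Mm V) (hF : ∀ i, κ i = i → F i = 0) :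
    ∑ i : {i // κ i ≠ i}, F i = ∑ i, F i := by
  rw [← Fintype.sum_subtype_add_sum_subtype (fun i => κ i ≠ i) F]
  have h : ∑ i : {i // ¬ κ i ≠ i}, F i = 0 :=
    Finset.sum_eq_zero fun i _ => hF i.1 (not_not.1 i.2)
  rw [h, add_zero]

theorem tok_identity (r c s : I → V) (τ ι κ : Equiv.Perm I) (hι : ι * ι = 1) (hκ : κ * κ = 1)
    (hτ : τ = ι * κ) (x y x' y' ρ ρ1 : I → V) (ρ2 : {i // κ i ≠ i} → V)
    (hx' : ∀ i, x' (ι i) = x' i) (hy' : ∀ i, y' (κ i) = y' i) :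
    ∑ i, (mg (dl (r i) (c i) (y i)) + mg (dl (r i) (x i) (s i))
        + mg (dl (ρ i) (c i) (s (τ i))) + mg (dl (ρ i) (x (τ i)) (y i))
        + mg (dl (ρ1 i) (x i) (y i)) + mg (dl (ρ1 i) (x' i) (y (τ.symm i))))
      + ∑ i : {i // κ i ≠ i}, (mg (dl (ρ2 i) (x' i) (y i)) + mg (dl (ρ2 i) (x' (τ i)) (y' i)))
    = ∑ i, (rc (r i) (c i) + rs (r i) (s i) + cs (c i) (s (τ i)))
      + ∑ i, (mg (dl (r i) (x i) (y i)) + mg (dl (ρ i) (c i) (y i))
        + mg (dl (ρ i) (x (τ i)) (s (τ i))) + mg (dl (ρ1 i) (x i) (y (τ.symm i)))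
        + mg (dl (ρ1 i) (x' i) (y i)))
      + ∑ i : {i // κ i ≠ i}, (mg (dl (ρ2 i) (x' (τ i)) (y i)) + mg (dl (ρ2 i) (x' i) (y' i))) := by
  have h1 : ∀ i, (mg (dl (r i) (c i) (y i)) + mg (dl (r i) (x i) (s i))
        + mg (dl (ρ i) (c i) (s (τ i))) + mg (dl (ρ i) (x (τ i)) (y i))
        + mg (dl (ρ1 i) (x i) (y i)) + mg (dl (ρ1 i) (x' i) (y (τ.symm i)))) =
      (rc (r i) (c i) + rs (r i) (s i) + cs (c i) (s (τ i))) +
      (mg (dl (r i) (x i) (y i)) + mg (dl (ρ i) (c i) (y i))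
        + mg (dl (ρ i) (x (τ i)) (s (τ i))) + mg (dl (ρ1 i) (x i) (y (τ.symm i)))
        + mg (dl (ρ1 i) (x' i) (y i))) +
      ((cs (x i) (s i) - cs (x (τ i)) (s (τ i))) + (cs (x (τ i)) (y i) - cs (x i) (y (τ.symm i)))
        + (cs (x' i) (y (τ.symm i)) - cs (x' i) (y i))) := by
    intro i
    simp only [mg_dl]
    abel
  have h2 : ∀ i : {i // κ i ≠ i}, (mg (dl (ρ2 i) (x' i) (y i)) + mg (dl (ρ2 i) (x' (τ i)) (y' i))) =
      (mg (dl (ρ2 i) (x' (τ i)) (y i)) + mg (dl (ρ2 i) (x' i) (y' i))) +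
      (fun j => cs (x' j) (y j) + cs (x' (τ j)) (y' j) - cs (x' (τ j)) (y j) - cs (x' j) (y' j))
        (i : I) := by
    intro i
    simp only [mg_dl]
    abel
  have hF : ∀ i, κ i = i → (fun j => cs (x' j) (y j) + cs (x' (τ j)) (y' j) -
      cs (x' (τ j)) (y j) - cs (x' j) (y' j)) i = 0 := by
    intro i hi
    have h3 : x' (τ i) = x' i := by
      rw [hτ, Equiv.Perm.mul_apply, hi, hx']
    simp only [h3]
    abel
  rw [sum_congr rfl fun i _ => h1 i, sum_congr rfl fun i _ => h2 i, sum_add_distrib,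
    sum_add_distrib, sum_add_distrib (f := fun i : {i // κ i ≠ i} =>
      mg (dl (ρ2 i) (x' (τ i)) (y i)) + mg (dl (ρ2 i) (x' i) (y' i))), tokAlg_sub κ _ hF]
  have e1 : ∑ i, cs (x (τ i)) (s (τ i)) = ∑ i, cs (x i) (s i) :=
    Equiv.sum_comp τ fun i => cs (x i) (s i)
  have e2 : ∑ i, cs (x (τ i)) (y i) = ∑ i, cs (x i) (y (τ.symm i)) := by
    rw [← Equiv.sum_comp τ fun i => cs (x i) (y (τ.symm i))]
    exact sum_congr rfl fun i _ => by rw [Equiv.symm_apply_apply]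
  have e3 : ∑ i, cs (x' i) (y (τ.symm i)) = ∑ i, cs (x' (τ i)) (y i) := by
    rw [← Equiv.sum_comp τ fun i => cs (x' i) (y (τ.symm i))]
    exact sum_congr rfl fun i _ => by rw [Equiv.symm_apply_apply]
  have e4 : ∑ i, cs (x' (τ i)) (y' i) = ∑ i, cs (x' i) (y' i) := by
    rw [← Equiv.sum_comp κ fun i => cs (x' (τ i)) (y' i)]
    refine sum_congr rfl fun i _ => ?_
    have h5 : κ (κ i) = i := by
      rw [← Equiv.Perm.mul_apply, hκ, Equiv.Perm.one_apply]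
    rw [hy', hτ, Equiv.Perm.mul_apply, h5, hx']
  simp only [sum_add_distrib, sum_sub_distrib]
  rw [e1, e2, e3, e4]
  abel

end Pool.Agent.DQO
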