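import Pool.Agent.DQO.P1
import Pool.Agent.DQO.P2
import Pool.Agent.DQO.P3
import Pool.Agent.DQO.P4
import Pool.Agent.DQO.P5
import Pool.Agent.DQO.P6
import Pool.Agent.DQO.P7
import Pool.Agent.DQO.TokAlg

/-!
# DQO-Tok: all tokens together

Output of the token phases: the negative triangles `(R j, C j, S j)`, `j : J`, with all their base
cells new, the positive part `p`.  There are seven families of triangles; their base cells are the
new cells of the seven phases.
-/

namespace Pool.Agent.DQO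

open Finset

variable {V : Type} [Fintype V] [DecidableEq V] {m : ℕ}

private theorem Tok_cnt7 (q : Sq V m) {A B C D E F G : Type} [Fintype A] [Fintype B] [Fintype C]
    [Fintype D] [Fintype E] [Fintype F] [Fintype G]
    (h : (A ⊕ (B ⊕ (C ⊕ (D ⊕ E)))) ⊕ (F ⊕ G) → V × V) (l : Fin 3 × V) (n : ℕ)
    (hA : cnt q (fun j => h (Sum.inl (Sum.inl j))) l ≤ n)
    (hB : cnt q (fun j => h (Sum.inl (Sum.inr (Sum.inl j)))) l ≤ n)
    (hC : cnt q (fun j => h (Sum.inl (Sum.inr (Sum.inr (Sum.inl j))))) l ≤ n)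
    (hD : cnt q (fun j => h (Sum.inl (Sum.inr (Sum.inr (Sum.inr (Sum.inl j)))))) l ≤ n)
    (hE : cnt q (fun j => h (Sum.inl (Sum.inr (Sum.inr (Sum.inr (Sum.inr j)))))) l ≤ n)
    (hF : cnt q (fun j => h (Sum.inr (Sum.inl j))) l ≤ n)
    (hG : cnt q (fun j => h (Sum.inr (Sum.inr j))) l ≤ n) :
    cnt q h l ≤ 7 * n := by
  unfold cnt at *
  beta_reduce at *
  rw [card_filter_sum, card_filter_sum, card_filter_sum, card_filter_sum, card_filter_sum,
    card_filter_sum]
  omega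

private theorem Tok_pos {I K : Type} [Fintype I] [Fintype K] (f1 f2 f3 f4 f5 f6 : I → V → V → V → ℤ)
    (g1 g2 : K → V → V → V → ℤ) :
    mg (∑ i, (f1 i + f2 i + f3 i + f4 i + f5 i + f6 i) + ∑ k, (g1 k + g2 k)) =
      ∑ i, (mg (f1 i) + mg (f2 i) + mg (f3 i) + mg (f4 i) + mg (f5 i) + mg (f6 i)) +
        ∑ k, (mg (g1 k) + mg (g2 k)) := by
  rw [mg_add, mg_sum, mg_sum]
  simp only [mg_add]

theorem tokens (q : Sq V m) {I : Type} [Fintype I] [DecidableEq I] (r c s : I → V)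
    (τ : Equiv.Perm I) (a : ℕ) (ha : 1 ≤ a) (hm : 100000000000000000 * a ≤ m)
    (hfix : ∀ i, τ i ≠ i) (hI : Fintype.card I ≤ 2 * (m * a))
    (hr : ∀ v, mult r v ≤ a) (hc : ∀ v, mult c v ≤ a) (hs : ∀ v, mult s v ≤ a)
    (X0 : Finset (V × V)) (hX : X0.card ≤ 2 * (m * a)) (hL : ∀ l, load q X0 l ≤ a) :
    ∃ (J : Type) (_ : Fintype J) (_ : DecidableEq J) (R C S : J → V) (p : V → V → V → ℤ)
      (X : Finset (V × V)),
      Fintype.card J ≤ 14 * (m * a) ∧ X0 ⊆ X ∧ X.card ≤ 44 * (m * a) ∧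
      (∀ l, load q X l ≤ 279936000000 * a) ∧ (∀ u v w, 0 ≤ p u v w) ∧
      mg p = ∑ i, (rc (r i) (c i) + rs (r i) (s i) + cs (c i) (s (τ i)))
        + ∑ j, mg (dl (R j) (C j) (S j)) ∧
      ∑ w ∈ X, mg (dN q w) = ∑ w ∈ X0, mg (dN q w)
        + ∑ j, (mg (dN q (R j, C j)) + mg (dN q (R j, q.col (R j) (S j)))
          + mg (dN q (q.row (C j) (S j), C j))) ∧
      (∀ l, cnt q (fun j => (R j, C j)) l ≤ 1959552000000 * a) ∧
      (∀ l, cnt q (fun j => (R j, q.col (R j) (S j))) l ≤ 1959552000000 * a) ∧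
      (∀ l, cnt q (fun j => (q.row (C j) (S j), C j)) l ≤ 1959552000000 * a) := by
  obtain ⟨ι, κ, hι, hκ, hτ⟩ := perm_eq_mul_inv τ
  have ctx : Ctx m r c s τ ι κ a := ⟨ha, hm, hI, hr, hc, hs, hι, hκ, hτ, hfix⟩
  have hfix' : ∀ i, τ.symm i ≠ i := by
    intro i h
    exact hfix i (by rw [Equiv.symm_apply_eq] at h; exact h.symm)
  have hsub : Fintype.card {i // κ i ≠ i} ≤ Fintype.card I := Fintype.card_subtype_le _
  obtain ⟨y, X1, hys, hys', hyy, hmy, E1⟩ := P1 q ctx X0 hX hL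
  have hc1 := E1.card
  rw [Fintype.card_sum] at hc1
  have hyτ : ∀ i, y (τ.symm i) ≠ y i := fun i => hyy i _ (by simp) (hfix' i)
  obtain ⟨x, X2, hxc, hmx, E2⟩ := P2 q ctx y hys
    (fun i => by have := hys' (τ.symm i); rw [Equiv.apply_symm_apply] at this; exact this.symm)
    (fun i => (hyτ i).symm) hmy X1 (by omega) E1.load
  have hc2 := E2.card
  rw [Fintype.card_sum, Fintype.card_sum] at hc2
  obtain ⟨ρ, X3, E3⟩ := P3 q ctx x y
    (fun i => by have := hxc (τ i); rw [Equiv.symm_apply_apply] at this; exact this.symm)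
    hys' (fun v => (hmy v).trans (by omega)) hmx X2 (by omega) E2.load
  have hc3 := E3.card
  rw [Fintype.card_sum, Fintype.card_sum] at hc3
  obtain ⟨x', X4, hx1, hx2, hx3, hmx', E4⟩ := P4 q ctx x y hyy
    (fun v => (hmy v).trans (by omega)) X3 (by omega) E3.load
  have hc4 := E4.card
  rw [Fintype.card_sum] at hc4
  obtain ⟨y', X5, hy1, hy2, hmy', E5⟩ := P5 q ctx x' y hx3 hmx' X4 (by omega) E4.load
  have hc5 := E5.card
  obtain ⟨ρ1, X6, E6⟩ := P6 q ctx x x' y (fun i => (hx2 i).symm) hyτ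
    (fun v => (hmy v).trans (by omega)) (fun v => (hmx v).trans (by omega))
    (fun v => (hmx' v).trans (by omega)) X5 (by omega) E5.load
  have hc6 := E6.card
  rw [Fintype.card_sum, Fintype.card_sum] at hc6
  have hxτ : ∀ i, κ i ≠ i → x' (τ i) ≠ x' i := by
    intro i hi
    have h1 : τ i = ι (κ i) := by rw [hτ]; rfl
    rw [h1, hx1]
    exact hx3 i hi
  obtain ⟨ρ2, X7, E7⟩ := P7 q ctx x' y y' hxτ (fun i => (hy2 i).symm)
    (fun v => (hmy v).trans (by omega)) (fun v => (hmx' v).trans (by omega))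
    (fun v => (hmy' v).trans (by omega)) X6 (by omega) E6.load
  have hc7 := E7.card
  rw [Fintype.card_sum, Fintype.card_sum] at hc7
  refine ⟨(I ⊕ (I ⊕ (I ⊕ (I ⊕ I)))) ⊕ ({i // κ i ≠ i} ⊕ {i // κ i ≠ i}), inferInstance,
    inferInstance,
    Sum.elim (Sum.elim r (Sum.elim ρ (Sum.elim ρ (Sum.elim ρ1 ρ1)))) (Sum.elim ρ2 ρ2),
    Sum.elim (Sum.elim x (Sum.elim c (Sum.elim (fun i => x (τ i)) (Sum.elim x x'))))
      (Sum.elim (fun i => x' (τ i)) (fun i => x' i)),
    Sum.elim (Sum.elim y (Sum.elim y (Sum.elim (fun i => s (τ i))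
      (Sum.elim (fun i => y (τ.symm i)) y)))) (Sum.elim (fun i => y i) (fun i => y' i)),
    ∑ i, (dl (r i) (c i) (y i) + dl (r i) (x i) (s i) + dl (ρ i) (c i) (s (τ i))
        + dl (ρ i) (x (τ i)) (y i) + dl (ρ1 i) (x i) (y i) + dl (ρ1 i) (x' i) (y (τ.symm i)))
      + ∑ i : {i // κ i ≠ i}, (dl (ρ2 i) (x' i) (y i) + dl (ρ2 i) (x' (τ i)) (y' i)),
    X7, ?_, ?_, ?_, E7.load, ?_, ?_, ?_, ?_, ?_, ?_⟩
  · simp only [Fintype.card_sum]
    omega
  · exact E1.sub.trans (E2.sub.trans (E3.sub.trans (E4.sub.trans (E5.sub.trans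
      (E6.sub.trans E7.sub)))))
  · omega
  · intro u v w
    simp only [Pi.add_apply, Finset.sum_apply]
    refine add_nonneg (Finset.sum_nonneg fun i _ => ?_) (Finset.sum_nonneg fun i _ => ?_)
    · have h := fun a b c => dl_nonneg (V := V) a b c u v w
      have h1 := h (r i) (c i) (y i)
      have h2 := h (r i) (x i) (s i)
      have h3 := h (ρ i) (c i) (s (τ i))
      have h4 := h (ρ i) (x (τ i)) (y i)
      have h5 := h (ρ1 i) (x i) (y i)
      have h6 := h (ρ1 i) (x' i) (y (τ.symm i))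
      omega
    · exact add_nonneg (dl_nonneg _ _ _ _ _ _) (dl_nonneg _ _ _ _ _ _)
  · rw [Tok_pos, tok_identity r c s τ ι κ hι hκ hτ x y x' y' ρ ρ1 ρ2 hx1 hy1]
    simp only [Fintype.sum_sum_type, Sum.elim_inl, Sum.elim_inr, Finset.sum_add_distrib]
    abel
  · have h1 := E1.sum (fun w => mg (dN q w))
    have h2 := E2.sum (fun w => mg (dN q w))
    have h3 := E3.sum (fun w => mg (dN q w))
    have h4 := E4.sum (fun w => mg (dN q w))
    have h5 := E5.sum (fun w => mg (dN q w))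
    have h6 := E6.sum (fun w => mg (dN q w))
    have h7 := E7.sum (fun w => mg (dN q w))
    rw [h7, h6, h5, h4, h3, h2, h1]
    simp only [Fintype.sum_sum_type, Sum.elim_inl, Sum.elim_inr, Finset.sum_add_distrib]
    have hp := Equiv.sum_comp τ (fun i => mg (dN q (q.row (x i) (s i), x i)))
    rw [← hp]
    abel
  · intro l
    refine (Tok_cnt7 q _ l (279936000000 * a) ?_ ?_ ?_ ?_ ?_ ?_ ?_).trans (by omega)
    · exact (E2.cnt I (fun i => Sum.inl (Sum.inl i)) (fun _ _ h => Sum.inl.inj (Sum.inl.inj h)) l).trans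
        (by omega)
    · exact (E3.cnt I (fun i => Sum.inl (Sum.inl i)) (fun _ _ h => Sum.inl.inj (Sum.inl.inj h)) l).trans
        (by omega)
    · exact (E3.cnt I (fun i => Sum.inr (Sum.inl i)) (fun _ _ h => Sum.inl.inj (Sum.inr.inj h)) l).trans
        (by omega)
    · exact (E6.cnt I (fun i => Sum.inl (Sum.inl i)) (fun _ _ h => Sum.inl.inj (Sum.inl.inj h)) l).trans
        (by omega)
    · exact (E6.cnt I (fun i => Sum.inr (Sum.inl i)) (fun _ _ h => Sum.inl.inj (Sum.inr.inj h)) l).trans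
        (by omega)
    · exact (E7.cnt _ (fun i => Sum.inl (Sum.inl i)) (fun _ _ h => Sum.inl.inj (Sum.inl.inj h)) l).trans
        (by omega)
    · exact (E7.cnt _ (fun i => Sum.inr (Sum.inl i)) (fun _ _ h => Sum.inl.inj (Sum.inr.inj h)) l).trans
        (by omega)
  · intro l
    refine (Tok_cnt7 q _ l (279936000000 * a) ?_ ?_ ?_ ?_ ?_ ?_ ?_).trans (by omega)
    · exact (E1.cnt I (fun i => Sum.inl i) (fun _ _ h => Sum.inl.inj h) l).trans
        (by omega)
    · exact (E3.cnt I (fun i => Sum.inl (Sum.inr i)) (fun _ _ h => Sum.inr.inj (Sum.inl.inj h)) l).trans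
        (by omega)
    · exact (E3.cnt I (fun i => Sum.inr (Sum.inr i)) (fun _ _ h => Sum.inr.inj (Sum.inr.inj h)) l).trans
        (by omega)
    · exact (E6.cnt I (fun i => Sum.inl (Sum.inr i)) (fun _ _ h => Sum.inr.inj (Sum.inl.inj h)) l).trans
        (by omega)
    · exact (E6.cnt I (fun i => Sum.inr (Sum.inr i)) (fun _ _ h => Sum.inr.inj (Sum.inr.inj h)) l).trans
        (by omega)
    · exact (E7.cnt _ (fun i => Sum.inl (Sum.inr i)) (fun _ _ h => Sum.inr.inj (Sum.inl.inj h)) l).trans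
        (by omega)
    · exact (E7.cnt _ (fun i => Sum.inr (Sum.inr i)) (fun _ _ h => Sum.inr.inj (Sum.inr.inj h)) l).trans
        (by omega)
  · intro l
    refine (Tok_cnt7 q _ l (279936000000 * a) ?_ ?_ ?_ ?_ ?_ ?_ ?_).trans (by omega)
    · exact (E2.cnt I (fun i => Sum.inl (Sum.inr i)) (fun _ _ h => Sum.inr.inj (Sum.inl.inj h)) l).trans
        (by omega)
    · exact (E1.cnt I (fun i => Sum.inr i) (fun _ _ h => Sum.inr.inj h) l).trans
        (by omega)
    · exact (E2.cnt I (fun i => Sum.inr (Sum.inl (τ i)))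
        (fun _ _ h => τ.injective (Sum.inl.inj (Sum.inr.inj h))) l).trans (by omega)
    · exact (E2.cnt I (fun i => Sum.inr (Sum.inr i)) (fun _ _ h => Sum.inr.inj (Sum.inr.inj h)) l).trans
        (by omega)
    · exact (E4.cnt I (fun i => Sum.inl i) (fun _ _ h => Sum.inl.inj h) l).trans
        (by omega)
    · exact (E4.cnt _ (fun i => Sum.inr i) (fun _ _ h => Sum.inr.inj h) l).trans
        (by omega)
    · exact (E5.cnt _ (fun i => i) (fun _ _ h => h) l).trans
        (by omega)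

end Pool.Agent.DQO
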